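import Pool.Agent.Lib.MP_9cec2c_lc.SL.Gr

/-!
TASK Bind: substitution of formulas for the variables of a derivation.

All by induction on formulas. `bind_derivation`: a line `L i = R.concl.subst σ` becomes
`R.concl.subst (fun j => (σ j).bind X)`.
-/

set_option autoImplicit false

open Finset
open scoped Classical

namespace Pool.Agent.MP_9cec2c_lc.SLT

open SL

variable {E F : Type}

/-- Substitution of formulas for the variables. -/
def bind (X : E → Form F) : Form E → Form F
  | .var e => X e
  | .tt => .tt
  | .ff => .ff
  | .neg A => .neg (bind X A)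
  | .and A B => .and (bind X A) (bind X B)
  | .or A B => .or (bind X A) (bind X B)
  | .imp A B => .imp (bind X A) (bind X B)

theorem bind_subst (X : E → Form F) (σ : ℕ → Form E) (A : Form ℕ) :
    bind X (A.subst σ) = A.subst fun j => bind X (σ j) := by
  induction A with
  | var i => simp [Form.subst, bind]
  | tt => simp [Form.subst, bind]
  | ff => simp [Form.subst, bind]
  | neg A ih => simp [Form.subst, bind, ih]
  | and A B ihA ihB => simp [Form.subst, bind, ihA, ihB]
  | or A B ihA ihB => simp [Form.subst, bind, ihA, ihB]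
  | imp A B ihA ihB => simp [Form.subst, bind, ihA, ihB]

theorem bind_size {X : E → Form F} {K : ℕ} (hK : 1 ≤ K) (hX : ∀ e, (X e).size ≤ K) (A : Form E) :
    (bind X A).size ≤ A.size * K := by
  induction A with
  | var e => simpa [Form.size, bind] using hX e
  | tt => simpa [Form.size, bind] using hK
  | ff => simpa [Form.size, bind] using hK
  | neg A ih => simpa [Form.size, bind] using ih
  | and A B ihA ihB => simp only [Form.size, bind, add_mul]; exact add_le_add ihA ihB
  | or A B ihA ihB => simp only [Form.size, bind, add_mul]; exact add_le_add ihA ihB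
  | imp A B ihA ihB => simp only [Form.size, bind, add_mul]; exact add_le_add ihA ihB

theorem bind_eval (X : E → Form F) (y : F → Bool) (A : Form E) :
    (bind X A).eval y = A.eval fun e => (X e).eval y := by
  induction A with
  | var e => simp [Form.eval, bind]
  | tt => simp [Form.eval, bind]
  | ff => simp [Form.eval, bind]
  | neg A ih => simp [Form.eval, bind, ih]
  | and A B ihA ihB => simp [Form.eval, bind, ihA, ihB]
  | or A B ihA ihB => simp [Form.eval, bind, ihA, ihB]
  | imp A B ihA ihB => simp [Form.eval, bind, ihA, ihB]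

theorem bind_derivation (X : E → Form F) {S : Set Rule} {Φ : Set (Form E)} {Ψ : Set (Form F)}
    (hΨ : ∀ A ∈ Φ, bind X A ∈ Ψ) {l : ℕ} {L : Fin l → Form E} (hL : IsDerivation S Φ L) :
    IsDerivation S Ψ fun i => bind X (L i) := by
  intro i
  rcases hL i with h | ⟨R, hR, σ, hc, hp⟩
  · exact Or.inl (hΨ _ h)
  · refine Or.inr ⟨R, hR, fun j => bind X (σ j), ?_, ?_⟩
    · rw [← bind_subst, hc]
    · intro P hP
      obtain ⟨j, hj, hjL⟩ := hp P hP
      refine ⟨j, hj, ?_⟩
      rw [← bind_subst, ← hjL]

theorem bind_isConj (X : E → Form F) {Φ : Set (Form E)} {Ψ : Set (Form F)}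
    (hΨ : ∀ A ∈ Φ, bind X A ∈ Ψ) {A : Form E} (hA : IsConj Φ A) : IsConj Ψ (bind X A) := by
  induction hA with
  | base A h => exact IsConj.base _ (hΨ A h)
  | and A B _ _ ihA ihB => exact IsConj.and _ _ ihA ihB

end Pool.Agent.MP_9cec2c_lc.SLT
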