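import Pool.Agent.Lib.MP_9cec2c_lc.SLT.Walk

/-!
TASK Cond: pairs of walks with the same end.

`Om μ R a b` = the pairs `(c, c')` of strings with `en μ R a c = en μ R b c'`. `W = WM μ R`,
`1/(2k) ≤ W ≤ 3/(2k)`, `k = |Q| ≥ 1`.
* `om_card`: `|Om| = ∑_z #{c | en a c = z} #{c' | en b c' = z} = 4^R ∑_z W a z W b z ≥ 4^R (1/(2k)) ∑_z W b z =
  4^R/(2k)` (`en_card`, `WM_row`).
* `om_fst`: `#{x ∈ Om | p x.1} = ∑_{c : p c} #{c' | en b c' = en a c} = ∑_{c : p c} 2^R W b (en a c) ≤
  #{c | p c} 2^R 3/(2k) ≤ 3 #{c | p c} |Om| / 2^R`. `om_snd` is the same with the roles of `a` and `b` exchanged.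
-/

set_option autoImplicit false

open Finset
open scoped Classical

namespace Pool.Agent.MP_9cec2c_lc.SLT

open SL

noncomputable section

variable {V E Q : Type} [Fintype V] [Fintype E] [Fintype Q]

/-- The pairs of walks from `a` and from `b` with the same end. -/
def Om (μ : ℕ → Q → Q) (R : ℕ) (a b : Q) : Finset ((Fin R → Bool) × (Fin R → Bool)) :=
  univ.filter fun x => en μ R a x.1 = en μ R b x.2

private theorem Cond_count_fst (μ : ℕ → Q → Q) (R : ℕ) (a b : Q) (p : (Fin R → Bool) → Prop) :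
    (((Om μ R a b).filter fun x => p x.1).card : ℝ) =
      ∑ c ∈ univ.filter (fun c => p c), 2 ^ R * WM μ R b (en μ R a c) := by
  have h : ((Om μ R a b).filter fun x => p x.1).card =
      ∑ c ∈ univ.filter (fun c => p c),
        (univ.filter fun c' : Fin R → Bool => en μ R b c' = en μ R a c).card := by
    rw [Finset.card_eq_sum_card_fiberwise (f := Prod.fst)
      (t := univ.filter (fun c : Fin R → Bool => p c))]
    · refine Finset.sum_congr rfl fun c hc => ?_
      have hpc : p c := (Finset.mem_filter.1 hc).2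
      refine Finset.card_nbij' (fun x => x.2) (fun c' => (c, c')) ?_ ?_ ?_ ?_
      · intro x hx
        have hx1 := (Finset.mem_filter.1 (Finset.mem_coe.1 hx))
        have hx2 := (Finset.mem_filter.1 hx1.1)
        have hx3 : en μ R a x.1 = en μ R b x.2 := (Finset.mem_filter.1 hx2.1).2
        have hxc : x.1 = c := hx1.2
        refine Finset.mem_coe.2 (Finset.mem_filter.2 ⟨Finset.mem_univ _, ?_⟩)
        show en μ R b x.2 = en μ R a c
        rw [← hx3, hxc]
      · intro c' hc'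
        have hc1 : en μ R b c' = en μ R a c := (Finset.mem_filter.1 (Finset.mem_coe.1 hc')).2
        refine Finset.mem_coe.2 (Finset.mem_filter.2 ⟨Finset.mem_filter.2
          ⟨Finset.mem_filter.2 ⟨Finset.mem_univ _, ?_⟩, hpc⟩, rfl⟩)
        exact hc1.symm
      · intro x hx
        have hx1 := (Finset.mem_filter.1 (Finset.mem_coe.1 hx))
        have hxc : x.1 = c := hx1.2
        exact Prod.ext hxc.symm rfl
      · intro c' _
        rfl
    · intro x hx
      exact Finset.mem_coe.2 (Finset.mem_filter.2 ⟨Finset.mem_univ _,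
        (Finset.mem_filter.1 (Finset.mem_coe.1 hx)).2⟩)
  rw [h, Nat.cast_sum]
  exact Finset.sum_congr rfl fun c _ => en_card μ R b (en μ R a c)

private theorem Cond_swap (μ : ℕ → Q → Q) (R : ℕ) (a b : Q) (p : (Fin R → Bool) → Prop) :
    ((Om μ R a b).filter fun x => p x.2).card = ((Om μ R b a).filter fun x => p x.1).card := by
  refine Finset.card_nbij' (fun x => (x.2, x.1)) (fun x => (x.2, x.1)) ?_ ?_ ?_ ?_
  · intro x hx
    have hx1 := (Finset.mem_filter.1 (Finset.mem_coe.1 hx))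
    have hx2 : en μ R a x.1 = en μ R b x.2 := (Finset.mem_filter.1 hx1.1).2
    exact Finset.mem_coe.2 (Finset.mem_filter.2
      ⟨Finset.mem_filter.2 ⟨Finset.mem_univ _, hx2.symm⟩, hx1.2⟩)
  · intro x hx
    have hx1 := (Finset.mem_filter.1 (Finset.mem_coe.1 hx))
    have hx2 : en μ R b x.1 = en μ R a x.2 := (Finset.mem_filter.1 hx1.1).2
    exact Finset.mem_coe.2 (Finset.mem_filter.2
      ⟨Finset.mem_filter.2 ⟨Finset.mem_univ _, hx2.symm⟩, hx1.2⟩)
  · intro x _
    rfl
  · intro x _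
    rfl

theorem om_card [Nonempty Q] (μ : ℕ → Q → Q) (R : ℕ)
    (h1 : ∀ q z, 1 / (2 * (Fintype.card Q : ℝ)) ≤ WM μ R q z) (a b : Q) :
    (4 : ℝ) ^ R / (2 * Fintype.card Q) ≤ (Om μ R a b).card := by
  have h := Cond_count_fst μ R a b (fun _ => True)
  simp only [Finset.filter_true] at h
  rw [h]
  have h2 : ∑ _c : Fin R → Bool, (2 : ℝ) ^ R * (1 / (2 * (Fintype.card Q : ℝ))) ≤
      ∑ c : Fin R → Bool, 2 ^ R * WM μ R b (en μ R a c) :=
    Finset.sum_le_sum fun c _ => mul_le_mul_of_nonneg_left (h1 _ _) (by positivity)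
  refine le_trans (le_of_eq ?_) h2
  have hc : (Finset.univ : Finset (Fin R → Bool)).card = 2 ^ R := by
    rw [Finset.card_univ, Fintype.card_fun, Fintype.card_bool, Fintype.card_fin]
  rw [Finset.sum_const, hc, nsmul_eq_mul]
  have h4 : (4 : ℝ) ^ R = 2 ^ R * 2 ^ R := by
    rw [← mul_pow]; norm_num
  rw [h4]
  push_cast
  ring

theorem om_fst [Nonempty Q] (μ : ℕ → Q → Q) (R : ℕ)
    (h1 : ∀ q z, 1 / (2 * (Fintype.card Q : ℝ)) ≤ WM μ R q z)
    (h2 : ∀ q z, WM μ R q z ≤ 3 / (2 * (Fintype.card Q : ℝ))) (a b : Q)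
    (p : (Fin R → Bool) → Prop) :
    (((Om μ R a b).filter fun x => p x.1).card : ℝ) * 2 ^ R ≤
      3 * (univ.filter fun c => p c).card * (Om μ R a b).card := by
  rw [Cond_count_fst μ R a b p]
  have hk : (0 : ℝ) < Fintype.card Q := by exact_mod_cast Fintype.card_pos
  have h3 : ∑ c ∈ univ.filter (fun c => p c), 2 ^ R * WM μ R b (en μ R a c) ≤
      ∑ _c ∈ univ.filter (fun c : Fin R → Bool => p c),
        (2 : ℝ) ^ R * (3 / (2 * (Fintype.card Q : ℝ))) :=
    Finset.sum_le_sum fun c _ => mul_le_mul_of_nonneg_left (h2 _ _) (by positivity)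
  rw [Finset.sum_const, nsmul_eq_mul] at h3
  have h4 := om_card μ R h1 a b
  have h5 : (4 : ℝ) ^ R = 2 ^ R * 2 ^ R := by
    rw [← mul_pow]; norm_num
  have hp : (0 : ℝ) ≤ ((univ.filter fun c : Fin R → Bool => p c).card : ℝ) := Nat.cast_nonneg _
  calc (∑ c ∈ univ.filter (fun c => p c), 2 ^ R * WM μ R b (en μ R a c)) * 2 ^ R
      ≤ (((univ.filter fun c : Fin R → Bool => p c).card : ℝ) *
          ((2 : ℝ) ^ R * (3 / (2 * (Fintype.card Q : ℝ))))) * 2 ^ R :=
        mul_le_mul_of_nonneg_right h3 (by positivity)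
    _ = 3 * ((univ.filter fun c : Fin R → Bool => p c).card : ℝ) *
          ((4 : ℝ) ^ R / (2 * Fintype.card Q)) := by
        rw [h5]; ring
    _ ≤ 3 * ((univ.filter fun c : Fin R → Bool => p c).card : ℝ) * (Om μ R a b).card :=
        mul_le_mul_of_nonneg_left h4 (by positivity)

theorem om_snd [Nonempty Q] (μ : ℕ → Q → Q) (R : ℕ)
    (h1 : ∀ q z, 1 / (2 * (Fintype.card Q : ℝ)) ≤ WM μ R q z)
    (h2 : ∀ q z, WM μ R q z ≤ 3 / (2 * (Fintype.card Q : ℝ))) (a b : Q)
    (p : (Fin R → Bool) → Prop) :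
    (((Om μ R a b).filter fun x => p x.2).card : ℝ) * 2 ^ R ≤
      3 * (univ.filter fun c => p c).card * (Om μ R a b).card := by
  have h := om_fst μ R h1 h2 b a p
  have hs : ((Om μ R a b).filter fun x => p x.2).card =
      ((Om μ R b a).filter fun x => p x.1).card := Cond_swap μ R a b p
  have hs2 : (Om μ R a b).card = (Om μ R b a).card := by
    have h3 := Cond_swap μ R a b (fun _ => True)
    simp only [Finset.filter_true] at h3
    exact h3
  rw [hs, hs2]
  exact h

end

end Pool.Agent.MP_9cec2c_lc.SLT
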