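import Pool.Agent.Lib.MP_9cec2c_lc.SLT.MixA

/-!
TASK Walk: walks along the matchings.

* `ch_bd`: induction on `R`: the first chain has boundary `pt (φ q) + pt (φ (μ q))` (`hP`), the rest
  `pt (φ q') + pt (φ (en ..))`, where `q'` is the next terminal; `G.bd` is additive (`bd_add`, prove it), and
  `pt a + pt a = 0`.
* `ch_hit`: if the chain of the walk contains the edge `e`, then the walk hits every pattern `A` with
  `P i q e ≠ 0 → q ∈ A i` for `i < R`: induction on `R`.
* `en_card`: `#{c | en μ R q c = z} = 2^R WM μ R q z`: induction on `R`, with the bijection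
  `(Fin (R+1) → Bool) ≃ Bool × (Fin R → Bool)` (`Fin.consEquiv` or `Fin.cons`, `Fin.tail`).
* `hit_sum`: `h R = ∑_q #{c | Hit μ A R q c}`: `h (R+1) ≤ 2^R |A R| + 2 h R` (for fixed `c 0` the map `q ↦ next
  terminal` is a bijection of `Q`), so with `|A i| ≤ 2`: `h R ≤ 2^R R` by induction.
-/

set_option autoImplicit false

open Finset
open scoped Classical

namespace Pool.Agent.MP_9cec2c_lc.SLT

open SL

variable {V E Q : Type} [Fintype V] [Fintype E] [Fintype Q]

theorem bd_add (G : MG V E) (x y : Cube E) : G.bd (x + y) = G.bd x + G.bd y := by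
  funext v
  unfold MG.bd
  rw [Pi.add_apply, ← Finset.sum_add_distrib]
  refine Finset.sum_congr rfl fun e _ => ?_
  by_cases h1 : G.src e = v <;> by_cases h2 : G.dst e = v <;>
    simp only [h1, h2, if_true, if_false, Pi.add_apply, add_zero, zero_add]
  ring

theorem bd_zero (G : MG V E) : G.bd 0 = 0 := by
  funext v
  unfold MG.bd
  simp

private theorem Walk_self (x : Cube V) : x + x = 0 := by
  funext w
  exact CharTwo.add_self_eq_zero _

theorem ch_bd (G : MG V E) (φ : Q → V) (μ : ℕ → Q → Q) (P : ℕ → Q → Cube E)
    (hP : ∀ i q, G.bd (P i q) = pt (φ q) + pt (φ (μ i q))) : ∀ R q c,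
    G.bd (ch μ P R q c) = pt (φ q) + pt (φ (en μ R q c)) := by
  intro R
  induction R with
  | zero =>
    intro q c
    change G.bd 0 = pt (φ q) + pt (φ q)
    rw [bd_zero, Walk_self]
  | succ R ih =>
    intro q c
    change G.bd ((if c 0 = true then P R q else 0) +
      ch μ P R (if c 0 = true then μ R q else q) fun i => c i.succ) =
      pt (φ q) + pt (φ (en μ R (if c 0 = true then μ R q else q) fun i => c i.succ))
    rw [bd_add, ih]
    by_cases h : c 0 = true
    · rw [if_pos h, if_pos h, hP]
      rw [add_assoc, ← add_assoc (pt (φ (μ R q))) (pt (φ (μ R q))), Walk_self, zero_add]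
    · rw [if_neg h, if_neg h, bd_zero, zero_add]

theorem ch_hit (μ : ℕ → Q → Q) (P : ℕ → Q → Cube E) (e : E) (A : ℕ → Finset Q) : ∀ R q c,
    (∀ i < R, ∀ q, P i q e ≠ 0 → q ∈ A i) → ch μ P R q c e ≠ 0 → Hit μ A R q c := by
  intro R
  induction R with
  | zero =>
    intro q c _ h
    exact h rfl
  | succ R ih =>
    intro q c hA h
    change ((if c 0 = true then P R q else 0) +
      ch μ P R (if c 0 = true then μ R q else q) fun i => c i.succ) e ≠ 0 at h
    change (c 0 = true ∧ q ∈ A R) ∨
      Hit μ A R (if c 0 = true then μ R q else q) fun i => c i.succ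
    by_cases h1 : (ch μ P R (if c 0 = true then μ R q else q) fun i => c i.succ) e = 0
    · left
      rw [Pi.add_apply, h1, add_zero] at h
      by_cases h2 : c 0 = true
      · rw [if_pos h2] at h
        exact ⟨h2, hA R (Nat.lt_succ_self R) q h⟩
      · rw [if_neg h2] at h
        exact absurd rfl h
    · right
      exact ih _ _ (fun i hi => hA i (hi.trans (Nat.lt_succ_self R))) h1

private theorem Walk_split (R : ℕ) (p : (Fin (R + 1) → Bool) → Prop) :
    (univ.filter p).card = (univ.filter fun c : Fin R → Bool => p (Fin.cons true c)).card +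
      (univ.filter fun c : Fin R → Bool => p (Fin.cons false c)).card := by
  rw [card_filter, card_filter, card_filter,
    ← (Fin.consEquiv (fun _ : Fin (R + 1) => Bool)).sum_comp, Fintype.sum_prod_type,
    Fintype.sum_bool]
  rfl

private theorem Walk_en_cons (μ : ℕ → Q → Q) (R : ℕ) (q : Q) (b : Bool) (c : Fin R → Bool) :
    en μ (R + 1) q (Fin.cons b c) = en μ R (if b = true then μ R q else q) c := rfl

private theorem Walk_hit_cons (μ : ℕ → Q → Q) (A : ℕ → Finset Q) (R : ℕ) (q : Q) (b : Bool)
    (c : Fin R → Bool) : Hit μ A (R + 1) q (Fin.cons b c) ↔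
      (b = true ∧ q ∈ A R) ∨ Hit μ A R (if b = true then μ R q else q) c := Iff.rfl

theorem en_card (μ : ℕ → Q → Q) : ∀ R q z,
    ((univ.filter fun c : Fin R → Bool => en μ R q c = z).card : ℝ) = 2 ^ R * WM μ R q z := by
  intro R
  induction R with
  | zero =>
    intro q z
    change ((univ.filter fun c : Fin 0 → Bool => q = z).card : ℝ) =
      2 ^ 0 * (if q = z then 1 else 0)
    by_cases h : q = z
    · simp [h]
    · simp [h]
  | succ R ih =>
    intro q z
    rw [Walk_split]
    simp only [Walk_en_cons, if_true, Bool.false_eq_true, if_false]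
    rw [Nat.cast_add, ih, ih]
    change _ = 2 ^ (R + 1) * ((WM μ R q z + WM μ R (μ R q) z) / 2)
    ring

theorem hit_sum (μ : ℕ → Q → Q) (hμ : ∀ i q, μ i (μ i q) = q) (A : ℕ → Finset Q) : ∀ R,
    (∀ i < R, (A i).card ≤ 2) →
    ∑ q, (univ.filter fun c : Fin R → Bool => Hit μ A R q c).card ≤ 2 ^ R * R := by
  intro R
  induction R with
  | zero =>
    intro _
    have h : ∀ q : Q, (univ.filter fun c : Fin 0 → Bool => Hit μ A 0 q c).card = 0 := by
      intro q
      rw [card_eq_zero, filter_eq_empty_iff]
      intro c _ hc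
      exact hc
    simp only [h, sum_const_zero, mul_zero, le_refl]
  | succ R ih =>
    intro hA
    have ih' := ih fun i hi => hA i (hi.trans (Nat.lt_succ_self R))
    have h1 : ∀ q : Q, (univ.filter fun c : Fin (R + 1) → Bool => Hit μ A (R + 1) q c).card ≤
        (if q ∈ A R then 2 ^ R else 0) +
          (univ.filter fun c : Fin R → Bool => Hit μ A R (μ R q) c).card +
          (univ.filter fun c : Fin R → Bool => Hit μ A R q c).card := by
      intro q
      rw [Walk_split]
      simp only [Walk_hit_cons, if_true, Bool.false_eq_true, if_false, true_and, false_and,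
        false_or]
      refine Nat.add_le_add_right ?_ _
      by_cases hq : q ∈ A R
      · rw [if_pos hq]
        refine le_trans (card_filter_le _ _) ?_
        rw [card_univ, Fintype.card_fun, Fintype.card_bool, Fintype.card_fin]
        exact Nat.le_add_right _ _
      · rw [if_neg hq, zero_add]
        refine card_le_card fun c hc => ?_
        rw [mem_filter] at hc ⊢
        exact ⟨hc.1, hc.2.resolve_left hq⟩
    have h2 : ∑ q, (univ.filter fun c : Fin R → Bool => Hit μ A R (μ R q) c).card =
        ∑ q, (univ.filter fun c : Fin R → Bool => Hit μ A R q c).card := by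
      exact Equiv.sum_comp (Function.Involutive.toPerm (μ R) (hμ R))
        (fun q => (univ.filter fun c : Fin R → Bool => Hit μ A R q c).card)
    have h3 : ∑ q : Q, (if q ∈ A R then 2 ^ R else 0) ≤ 2 ^ R * 2 := by
      rw [← sum_filter, sum_const, smul_eq_mul, mul_comm]
      refine Nat.mul_le_mul_left _ ?_
      have h4 : (univ.filter fun q => q ∈ A R) = A R := by
        ext q
        simp
      rw [h4]
      exact hA R (Nat.lt_succ_self R)
    calc ∑ q, (univ.filter fun c : Fin (R + 1) → Bool => Hit μ A (R + 1) q c).card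
        ≤ ∑ q, ((if q ∈ A R then 2 ^ R else 0) +
          (univ.filter fun c : Fin R → Bool => Hit μ A R (μ R q) c).card +
          (univ.filter fun c : Fin R → Bool => Hit μ A R q c).card) := sum_le_sum fun q _ => h1 q
      _ = ∑ q : Q, (if q ∈ A R then 2 ^ R else 0) +
          ∑ q, (univ.filter fun c : Fin R → Bool => Hit μ A R q c).card +
          ∑ q, (univ.filter fun c : Fin R → Bool => Hit μ A R q c).card := by
        rw [sum_add_distrib, sum_add_distrib, h2]
      _ ≤ 2 ^ R * 2 + 2 ^ R * R + 2 ^ R * R := by gcongr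
      _ = 2 ^ (R + 1) * (R + 1) := by ring

end Pool.Agent.MP_9cec2c_lc.SLT
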