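import Pool.Agent.Lib.MP_9cec2c_lc.SLT.Path
import Pool.Agent.Lib.MP_9cec2c_lc.SLT.Walk

/-!
TASK Conn: in a connected multigraph every vector of charges with sum 0 is a boundary.

`ConnG G`: the cut of every set of vertices other than `∅` and `V` is not empty. For all `u v` the vertex `v`
is reachable from `u` by all darts (`al = fun _ _ => True`; the set of the reachable vertices has an empty cut,
so it is everything); `exists_path` and the reduction mod 2 give `x` with `G.bd x = pt u + pt v`
(as in `bd_cast` of Decomp; prove it here directly). Then for `∑ γ = 0`: fix `u`; `γ = ∑_v γ v (pt v + pt u)` because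
`∑_v γ v pt u = 0`; let `x = ∑_v γ v • x_v` (`G.bd` is linear, `bd_add`). If `V` is empty, `x = 0`.
-/

set_option autoImplicit false

open Finset
open scoped Classical

namespace Pool.Agent.MP_9cec2c_lc.SLT

open SL

variable {V E : Type} [Fintype V] [Fintype E]

/-- The multigraph is connected: some edge leaves each set of vertices which is not empty and does not
contain all vertices. -/
def ConnG (G : MG V E) : Prop := ∀ U : Finset V, U.Nonempty → U ≠ univ → cutc G U ≠ 0

private theorem Conn_reach (G : MG V E) (hG : ConnG G) (u v : V) :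
    Relation.ReflTransGen (Dart G fun _ _ => True) u v := by
  by_contra hv
  obtain ⟨U, hU⟩ : ∃ U : Finset V,
      U = univ.filter fun w => Relation.ReflTransGen (Dart G fun _ _ => True) u w := ⟨_, rfl⟩
  have hmem : ∀ w, w ∈ U ↔ Relation.ReflTransGen (Dart G fun _ _ => True) u w := by
    intro w
    rw [hU, mem_filter]
    exact ⟨fun h => h.2, fun h => ⟨mem_univ _, h⟩⟩
  have h1 : U.Nonempty := ⟨u, (hmem u).2 Relation.ReflTransGen.refl⟩
  have h2 : U ≠ univ := by
    intro h
    exact hv ((hmem v).1 (h ▸ mem_univ v))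
  have h3 := hG U h1 h2
  rw [cutc, Finset.card_ne_zero] at h3
  obtain ⟨e, he⟩ := h3
  rw [mem_filter] at he
  apply he.2
  rw [hmem, hmem]
  constructor
  · intro h
    exact h.tail ⟨e, Or.inl ⟨rfl, rfl, trivial⟩⟩
  · intro h
    exact h.tail ⟨e, Or.inr ⟨rfl, rfl, trivial⟩⟩

private theorem Conn_pair (G : MG V E) (hG : ConnG G) (u v : V) :
    ∃ x : Cube E, G.bd x = pt v + pt u := by
  obtain ⟨g, -, hg⟩ := exists_path G (fun _ _ => True) (Conn_reach G hG u v)
  refine ⟨fun e => (g e : ZMod 2), ?_⟩
  funext w
  have h1 := congrArg (fun n : ℤ => (n : ZMod 2)) (hg w)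
  simp only [bdZ] at h1
  push_cast at h1
  have h2 : G.bd (fun e => (g e : ZMod 2)) w =
      ∑ e, (g e : ZMod 2) * ((if G.src e = w then 1 else 0) - (if G.dst e = w then 1 else 0)) := by
    rw [MG.bd]
    refine Finset.sum_congr rfl fun e _ => ?_
    rw [CharTwo.sub_eq_add]
    split_ifs <;> ring
  rw [h2, h1, CharTwo.sub_eq_add, Pi.add_apply, pt, pt, add_comm]
  congr 1
  · by_cases h : v = w
    · rw [if_pos h, if_pos h.symm]
    · rw [if_neg h, if_neg fun h' => h h'.symm]
  · by_cases h : u = w
    · rw [if_pos h, if_pos h.symm]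
    · rw [if_neg h, if_neg fun h' => h h'.symm]

theorem exists_bd (G : MG V E) (hG : ConnG G) (γ : Cube V) (hγ : ∑ v, γ v = 0) :
    ∃ x : Cube E, G.bd x = γ := by
  rcases isEmpty_or_nonempty V with hV | ⟨⟨u⟩⟩
  · exact ⟨0, funext fun v => isEmptyElim v⟩
  · choose x hx using fun v => Conn_pair G hG u v
    have hsmul : ∀ (c : ZMod 2) (y : Cube E), G.bd (c • y) = c • G.bd y := by
      intro c y
      funext v
      simp only [MG.bd, Pi.smul_apply, smul_eq_mul, Finset.mul_sum]
      refine Finset.sum_congr rfl fun e _ => ?_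
      split_ifs <;> ring
    have hsum : ∀ (s : Finset V) (f : V → Cube E), G.bd (∑ v ∈ s, f v) = ∑ v ∈ s, G.bd (f v) := by
      intro s f
      induction s using Finset.induction_on with
      | empty => simp only [Finset.sum_empty]; exact bd_zero G
      | insert a s ha ih => rw [Finset.sum_insert ha, Finset.sum_insert ha, bd_add, ih]
    refine ⟨∑ v, γ v • x v, ?_⟩
    rw [hsum]
    funext w
    simp only [hsmul, hx, Finset.sum_apply, Pi.smul_apply, Pi.add_apply, smul_eq_mul, mul_add,
      Finset.sum_add_distrib, pt]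
    rw [← Finset.sum_mul, hγ, zero_mul, add_zero]
    simp

end Pool.Agent.MP_9cec2c_lc.SLT
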