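import Pool.Agent.Lib.MP_9cec2c_lc.SLT.Def

/-!
TASK CutSum: the sum of the outflows over a set of vertices.

Exchange the sums: `∑ v ∈ U, (if G.src e = v then 1 else 0) = if G.src e ∈ U then 1 else 0`
(`Finset.sum_ite_eq`). `bdZ_le_of_cut`: if every edge with exactly one end in `U` carries at most `t e`
outwards .. the two corollaries: (a) if `f` carries 1 outwards on every edge of the cut, the sum is
`cutc G U`; (b) if `f` carries nothing outwards (`≤ 0`), the sum is `≤ 0`. In (a), (b) an edge with both ends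
or no end in `U` contributes 0.
-/

set_option autoImplicit false

open Finset
open scoped Classical

namespace Pool.Agent.MP_9cec2c_lc.SLT

open SL

variable {V E Q : Type} [Fintype V] [Fintype E] [Fintype Q]

theorem sum_bdZ (G : MG V E) (g : E → ℤ) (U : Finset V) : ∑ v ∈ U, bdZ G g v =
    ∑ e, g e * ((if G.src e ∈ U then 1 else 0) - (if G.dst e ∈ U then 1 else 0)) := by
  unfold bdZ
  rw [Finset.sum_comm]
  refine Finset.sum_congr rfl fun e _ => ?_
  rw [← Finset.mul_sum, Finset.sum_sub_distrib, Finset.sum_ite_eq, Finset.sum_ite_eq]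

theorem sum_bdZ_full (G : MG V E) (g : E → ℤ) (U : Finset V)
    (h1 : ∀ e, G.src e ∈ U → G.dst e ∉ U → g e = 1)
    (h2 : ∀ e, G.src e ∉ U → G.dst e ∈ U → g e = -1) : ∑ v ∈ U, bdZ G g v = cutc G U := by
  rw [sum_bdZ]
  unfold cutc
  rw [Finset.card_filter]
  push_cast
  refine Finset.sum_congr rfl fun e _ => ?_
  by_cases hs : G.src e ∈ U
  · by_cases hd : G.dst e ∈ U
    · simp [hs, hd]
    · simp [hs, hd, h1 e hs hd]
  · by_cases hd : G.dst e ∈ U
    · simp [hs, hd, h2 e hs hd]
    · simp [hs, hd]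

theorem sum_bdZ_le (G : MG V E) (g : E → ℤ) (U : Finset V)
    (h1 : ∀ e, G.src e ∈ U → G.dst e ∉ U → g e ≤ 0)
    (h2 : ∀ e, G.src e ∉ U → G.dst e ∈ U → 0 ≤ g e) : ∑ v ∈ U, bdZ G g v ≤ 0 := by
  rw [sum_bdZ]
  refine Finset.sum_nonpos fun e _ => ?_
  by_cases hs : G.src e ∈ U
  · by_cases hd : G.dst e ∈ U
    · simp [hs, hd]
    · have := h1 e hs hd
      simp [hs, hd, this]
  · by_cases hd : G.dst e ∈ U
    · have := h2 e hs hd
      simp [hs, hd, this]
    · simp [hs, hd]

end Pool.Agent.MP_9cec2c_lc.SLT
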