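import Pool.Agent.Lib.MP_9cec2c_lc.SLT.Path
import Pool.Agent.Lib.MP_9cec2c_lc.SLT.CutSum

/-!
TASK Decomp: decomposition of a flow into disjoint chains.

Claim, by induction on `A'.card`: let `A' B' : Finset Q` be disjoint, `|A'| = |B'|`, `f : E → ℤ` with values
in `[-1, 1]` and `bdZ G f v = ∑ q ∈ A', (if φ q = v then 1 else 0) - ∑ q ∈ B', (if φ q = v then 1 else 0)`. Then there
are `σ : Q → Q` and `g : Q → E → ℤ` with: `σ` maps `A'` bijectively to `B'` (`Set.BijOn σ A' B'`), for
`q ∈ A'`: `g q e = 0 ∨ g q e = f e`, `bdZ G (g q) v = [φ q = v] - [φ (σ q) = v]`, and for `q ≠ q'` in `A'`: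
`g q e = 0 ∨ g q' e = 0`.
Step: `a ∈ A'`. Allowed darts: `al e true ↔ f e = 1`, `al e false ↔ f e = -1`,
`U = {v | ReflTransGen (Dart G al) (φ a) v}`. If no `b ∈ B'` has `φ b ∈ U`, then
`∑ v ∈ U, bdZ G f v = #{q ∈ A' | φ q ∈ U} ≥ 1`, but nothing flows out of `U` (`sum_bdZ_le`: `src e ∈ U`, `dst e ∉ U`
implies `f e ≠ 1`), contradiction. So let `b ∈ B'`, `φ b ∈ U`; `exists_path` gives `g₀` with
`g₀ e = 0 ∨ g₀ e = f e`. `f - g₀` has values in `[-1, 1]` and the boundary of `A' \ {a}`, `B' \ {b}`; apply the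
induction hypothesis to it and put `σ a = b`, `g a = g₀` (`Function.update`); if `g q e ≠ 0` for another `q`
then `(f - g₀) e ≠ 0`, so `g₀ e ≠ f e`, so `g₀ e = 0`, and `g q e = (f - g₀) e = f e`.

The matching: `A' = A`, `B' = Aᶜ`. `μ q = σ q` for `q ∈ A`, and for `q ∉ A` the element of `A` with `σ (μ q) = q`.
`P q = fun e => (g q e : ZMod 2)` for `q ∈ A` and `P q = P (μ q)` for `q ∉ A`. `G.bd` of the reduction mod 2
of a chain is the reduction of `bdZ` (`-1 = 1` in `ZMod 2`; a loop contributes 0 to both).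
-/

set_option autoImplicit false

open Finset
open scoped Classical

namespace Pool.Agent.MP_9cec2c_lc.SLT

open SL

variable {V E Q : Type} [Fintype V] [Fintype E] [Fintype Q]

theorem bd_cast (G : MG V E) (g : E → ℤ) (v : V) :
    G.bd (fun e => (g e : ZMod 2)) v = ((bdZ G g v : ℤ) : ZMod 2) := by
  unfold MG.bd bdZ
  push_cast
  refine Finset.sum_congr rfl (fun e _ => ?_)
  by_cases h1 : G.src e = v <;> by_cases h2 : G.dst e = v <;>
    simp [h1, h2, CharTwo.add_self_eq_zero, CharTwo.neg_eq]

private theorem Decomp_bdZ_sub (G : MG V E) (f g : E → ℤ) (v : V) :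
    bdZ G (fun e => f e - g e) v = bdZ G f v - bdZ G g v := by
  unfold bdZ
  rw [← Finset.sum_sub_distrib]
  exact Finset.sum_congr rfl (fun e _ => by ring)

private theorem Decomp_ind (G : MG V E) {φ : Q → V} :
    ∀ (n : ℕ) (A' B' : Finset Q), A'.card = n → B'.card = n →
    ∀ f : E → ℤ, (∀ e, -1 ≤ f e ∧ f e ≤ 1) →
    (∀ v, bdZ G f v = ∑ q ∈ A', (if φ q = v then (1 : ℤ) else 0) -
      ∑ q ∈ B', (if φ q = v then (1 : ℤ) else 0)) →
    ∃ (σ : Q → Q) (g : Q → E → ℤ), Set.BijOn σ A' B' ∧
      (∀ q ∈ A', (∀ e, g q e = 0 ∨ g q e = f e) ∧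
        ∀ v, bdZ G (g q) v = (if φ q = v then 1 else 0) - (if φ (σ q) = v then 1 else 0)) ∧
      ∀ q ∈ A', ∀ q' ∈ A', q ≠ q' → ∀ e, g q e = 0 ∨ g q' e = 0 := by
  intro n
  induction n with
  | zero =>
    intro A' B' hA hB f _ _
    rw [Finset.card_eq_zero] at hA hB
    subst hA hB
    exact ⟨id, fun _ _ => 0, by simp, by simp, by simp⟩
  | succ n ih =>
    intro A' B' hA hB f hf hbd
    have hne : A'.Nonempty := by
      rw [← Finset.card_pos]
      omega
    obtain ⟨a, ha⟩ := hne
    let al : E → Bool → Prop := fun e b => (b = true ∧ f e = 1) ∨ (b = false ∧ f e = -1)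
    let U : Finset V := univ.filter fun v => Relation.ReflTransGen (Dart G al) (φ a) v
    have hU : ∀ v, v ∈ U ↔ Relation.ReflTransGen (Dart G al) (φ a) v := by
      intro v
      simp [U]
    have hex : ∃ b ∈ B', φ b ∈ U := by
      by_contra hcon
      push Not at hcon
      have h1 : ∑ v ∈ U, bdZ G f v ≤ 0 := by
        refine sum_bdZ_le G f U ?_ ?_
        · intro e he1 he2
          by_contra hlt
          have hfe : f e = 1 := by
            have := hf e
            omega
          apply he2
          rw [hU] at he1 ⊢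
          exact Relation.ReflTransGen.tail he1 ⟨e, Or.inl ⟨rfl, rfl, Or.inl ⟨rfl, hfe⟩⟩⟩
        · intro e he1 he2
          by_contra hlt
          have hfe : f e = -1 := by
            have := hf e
            omega
          apply he1
          rw [hU] at he2 ⊢
          exact Relation.ReflTransGen.tail he2 ⟨e, Or.inr ⟨rfl, rfl, Or.inr ⟨rfl, hfe⟩⟩⟩
      have h2 : ∑ v ∈ U, bdZ G f v = ∑ q ∈ A', (if φ q ∈ U then (1 : ℤ) else 0) -
          ∑ q ∈ B', (if φ q ∈ U then (1 : ℤ) else 0) := by
        calc ∑ v ∈ U, bdZ G f v = ∑ v ∈ U, (∑ q ∈ A', (if φ q = v then (1 : ℤ) else 0) -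
              ∑ q ∈ B', (if φ q = v then (1 : ℤ) else 0)) :=
              Finset.sum_congr rfl (fun v _ => hbd v)
          _ = _ := by
            rw [Finset.sum_sub_distrib, Finset.sum_comm, Finset.sum_comm (s := U) (t := B')]
            congr 1
            · exact Finset.sum_congr rfl (fun q _ => Finset.sum_ite_eq U (φ q) _)
            · exact Finset.sum_congr rfl (fun q _ => Finset.sum_ite_eq U (φ q) _)
      have h3 : ∑ q ∈ B', (if φ q ∈ U then (1 : ℤ) else 0) = 0 :=
        Finset.sum_eq_zero (fun q hq => if_neg (hcon q hq))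
      have h4 : (1 : ℤ) ≤ ∑ q ∈ A', (if φ q ∈ U then (1 : ℤ) else 0) := by
        have h5 : (if φ a ∈ U then (1 : ℤ) else 0) ≤
            ∑ q ∈ A', (if φ q ∈ U then (1 : ℤ) else 0) :=
          Finset.single_le_sum (f := fun q => (if φ q ∈ U then (1 : ℤ) else 0))
            (fun q _ => by
              show (0 : ℤ) ≤ (if φ q ∈ U then (1 : ℤ) else 0)
              split_ifs <;> norm_num) ha
        rw [if_pos ((hU (φ a)).2 Relation.ReflTransGen.refl)] at h5
        exact h5
      rw [h2, h3] at h1
      omega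
    obtain ⟨b, hb, hbU⟩ := hex
    obtain ⟨g₀, hg1, hg2⟩ := exists_path G al ((hU _).1 hbU)
    have hg0 : ∀ e, g₀ e = 0 ∨ g₀ e = f e := by
      intro e
      rcases hg1 e with h | ⟨h, h'⟩ | ⟨h, h'⟩
      · exact Or.inl h
      · right
        rcases h' with ⟨_, h''⟩ | ⟨h'', _⟩
        · rw [h, h'']
        · exact absurd h'' (by decide)
      · right
        rcases h' with ⟨h'', _⟩ | ⟨_, h''⟩
        · exact absurd h'' (by decide)
        · rw [h, h'']
    have hA' : (A'.erase a).card = n := by
      rw [Finset.card_erase_of_mem ha, hA]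
      rfl
    have hB' : (B'.erase b).card = n := by
      rw [Finset.card_erase_of_mem hb, hB]
      rfl
    obtain ⟨σ', g', hσ, hg', hdis⟩ := ih (A'.erase a) (B'.erase b) hA' hB' (fun e => f e - g₀ e)
      (by
        intro e
        have h0 := hf e
        show -1 ≤ f e - g₀ e ∧ f e - g₀ e ≤ 1
        rcases hg0 e with h | h
        · rw [h]
          omega
        · rw [h]
          omega)
      (by
        intro v
        rw [Decomp_bdZ_sub, hbd v, hg2 v, ← Finset.add_sum_erase A' _ ha,
          ← Finset.add_sum_erase B' _ hb]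
        ring)
    have hupd : ∀ q ∈ A', q ≠ a → q ∈ A'.erase a := fun q hq hqa =>
      Finset.mem_erase.2 ⟨hqa, hq⟩
    refine ⟨Function.update σ' a b, Function.update g' a g₀, ?_, ?_, ?_⟩
    · refine ⟨?_, ?_, ?_⟩
      · intro q hq
        by_cases hqa : q = a
        · subst hqa
          rw [Function.update_self]
          exact hb
        · rw [Function.update_of_ne hqa]
          have h1 := hσ.mapsTo (hupd q hq hqa)
          exact Finset.mem_of_mem_erase h1
      · intro q hq q' hq' heq
        by_cases hqa : q = a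
        · by_cases hqa' : q' = a
          · rw [hqa, hqa']
          · exfalso
            subst hqa
            rw [Function.update_self, Function.update_of_ne hqa'] at heq
            have h1 := hσ.mapsTo (hupd q' hq' hqa')
            exact (Finset.mem_erase.1 h1).1 heq.symm
        · by_cases hqa' : q' = a
          · exfalso
            subst hqa'
            rw [Function.update_self, Function.update_of_ne hqa] at heq
            have h1 := hσ.mapsTo (hupd q hq hqa)
            exact (Finset.mem_erase.1 h1).1 heq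
          · rw [Function.update_of_ne hqa, Function.update_of_ne hqa'] at heq
            exact hσ.injOn (hupd q hq hqa) (hupd q' hq' hqa') heq
      · intro y hy
        by_cases hyb : y = b
        · refine ⟨a, ha, ?_⟩
          rw [Function.update_self, hyb]
        · obtain ⟨q, hq, hqy⟩ := hσ.surjOn (Finset.mem_erase.2 ⟨hyb, hy⟩ : y ∈ B'.erase b)
          have hq' := Finset.mem_erase.1 hq
          refine ⟨q, hq'.2, ?_⟩
          rw [Function.update_of_ne hq'.1, hqy]
    · intro q hq
      by_cases hqa : q = a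
      · subst hqa
        rw [Function.update_self, Function.update_self]
        exact ⟨hg0, hg2⟩
      · rw [Function.update_of_ne hqa, Function.update_of_ne hqa]
        obtain ⟨h1, h2⟩ := hg' q (hupd q hq hqa)
        refine ⟨fun e => ?_, h2⟩
        rcases h1 e with h | h
        · exact Or.inl h
        · rcases hg0 e with h0 | h0
          · right
            rw [h, h0, sub_zero]
          · left
            rw [h, h0, sub_self]
    · intro q hq q' hq' hne e
      by_cases hqa : q = a
      · subst hqa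
        have hqa' : q' ≠ q := fun h => hne h.symm
        rw [Function.update_self, Function.update_of_ne hqa']
        rcases hg0 e with h0 | h0
        · exact Or.inl h0
        · right
          rcases (hg' q' (hupd q' hq' hqa')).1 e with h | h
          · exact h
          · rw [h, h0, sub_self]
      · by_cases hqa' : q' = a
        · subst hqa'
          rw [Function.update_self, Function.update_of_ne hqa]
          rcases hg0 e with h0 | h0
          · exact Or.inr h0
          · left
            rcases (hg' q (hupd q hq hqa)).1 e with h | h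
            · exact h
            · rw [h, h0, sub_self]
        · rw [Function.update_of_ne hqa, Function.update_of_ne hqa']
          exact hdis q (hupd q hq hqa) q' (hupd q' hq' hqa') hne e

theorem exists_decomp (G : MG V E) {φ : Q → V} (hφ : Function.Injective φ) (A : Finset Q)
    (hA : 2 * A.card = Fintype.card Q) (f : E → ℤ) (hf : ∀ e, -1 ≤ f e ∧ f e ≤ 1)
    (hbd : ∀ v, bdZ G f v = ∑ q, (if φ q = v then (if q ∈ A then 1 else -1) else 0)) :
    ∃ M : Mat G φ, ∀ q, M.μ q ∈ A ↔ q ∉ A := by
  have _ := hφ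
  have hAc : Aᶜ.card = A.card := by
    rw [Finset.card_compl]
    omega
  obtain ⟨σ, g, hσ, hg, hdis⟩ := Decomp_ind G (φ := φ) A.card A Aᶜ rfl hAc f hf (by
    intro v
    rw [hbd v, ← Finset.sum_add_sum_compl A, sub_eq_add_neg, ← Finset.sum_neg_distrib]
    congr 1
    · exact Finset.sum_congr rfl (fun q hq => by rw [if_pos hq])
    · refine Finset.sum_congr rfl (fun q hq => ?_)
      rw [if_neg (Finset.mem_compl.1 hq)]
      split_ifs <;> simp)
  have hinv : ∀ q, q ∉ A → ∃ r, r ∈ A ∧ σ r = q := by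
    intro q hq
    obtain ⟨r, hr, hrq⟩ := hσ.surjOn (Finset.mem_compl.2 hq : q ∈ Aᶜ)
    exact ⟨r, hr, hrq⟩
  have hinv' : ∀ q, ∃ r, q ∉ A → (r ∈ A ∧ σ r = q) := by
    intro q
    by_cases hq : q ∈ A
    · exact ⟨q, fun h => absurd hq h⟩
    · obtain ⟨r, hr⟩ := hinv q hq
      exact ⟨r, fun _ => hr⟩
  choose τ hτ using hinv'
  have hσA : ∀ q, q ∈ A → σ q ∉ A := fun q hq => Finset.mem_compl.1 (hσ.mapsTo hq)
  have hτσ : ∀ q, q ∈ A → τ (σ q) = q := fun q hq =>
    hσ.injOn (hτ (σ q) (hσA q hq)).1 hq (hτ (σ q) (hσA q hq)).2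
  let μ : Q → Q := fun q => if q ∈ A then σ q else τ q
  let r : Q → Q := fun q => if q ∈ A then q else τ q
  have hμ1 : ∀ q, q ∈ A → μ q = σ q := fun q hq => if_pos hq
  have hμ2 : ∀ q, q ∉ A → μ q = τ q := fun q hq => if_neg hq
  have hr1 : ∀ q, q ∈ A → r q = q := fun q hq => if_pos hq
  have hr2 : ∀ q, q ∉ A → r q = τ q := fun q hq => if_neg hq
  have hrA : ∀ q, r q ∈ A := by
    intro q
    by_cases hq : q ∈ A
    · rw [hr1 q hq]
      exact hq
    · rw [hr2 q hq]
      exact (hτ q hq).1
  refine ⟨⟨μ, fun q e => ((g (r q) e : ℤ) : ZMod 2), ?_, ?_, ?_⟩, ?_⟩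
  · intro q
    by_cases hq : q ∈ A
    · rw [hμ1 q hq, hμ2 _ (hσA q hq), hτσ q hq]
    · rw [hμ2 q hq, hμ1 _ (hτ q hq).1, (hτ q hq).2]
  · intro q
    funext v
    rw [bd_cast G (g (r q)) v, (hg (r q) (hrA q)).2 v]
    have h1 : (((if φ (r q) = v then (1 : ℤ) else 0) - (if φ (σ (r q)) = v then (1 : ℤ) else 0) : ℤ)
        : ZMod 2) = (if v = φ (r q) then (1 : ZMod 2) else 0) +
          (if v = φ (σ (r q)) then (1 : ZMod 2) else 0) := by
      by_cases h1 : φ (r q) = v <;> by_cases h2 : φ (σ (r q)) = v <;>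
        simp [h1, h2, eq_comm (a := v), CharTwo.add_self_eq_zero, CharTwo.neg_eq]
    rw [h1]
    by_cases hq : q ∈ A
    · rw [hr1 q hq, hμ1 q hq]
      rfl
    · rw [hr2 q hq, hμ2 q hq, (hτ q hq).2, add_comm]
      rfl
  · intro e q q' h1 h2
    have hrr : r q = r q' := by
      by_contra hne
      rcases hdis (r q) (hrA q) (r q') (hrA q') hne e with h | h
      · apply h1
        show ((g (r q) e : ℤ) : ZMod 2) = 0
        rw [h]
        simp
      · apply h2
        show ((g (r q') e : ℤ) : ZMod 2) = 0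
        rw [h]
        simp
    by_cases hq : q ∈ A <;> by_cases hq' : q' ∈ A
    · left
      rw [hr1 q hq, hr1 q' hq'] at hrr
      exact hrr.symm
    · right
      rw [hr1 q hq, hr2 q' hq'] at hrr
      rw [hμ1 q hq, hrr, (hτ q' hq').2]
    · right
      rw [hr2 q hq, hr1 q' hq'] at hrr
      rw [hμ2 q hq, hrr]
    · left
      rw [hr2 q hq, hr2 q' hq'] at hrr
      rw [← (hτ q' hq').2, ← hrr, (hτ q hq).2]
  · intro q
    show μ q ∈ A ↔ q ∉ A
    by_cases hq : q ∈ A
    · rw [hμ1 q hq]
      exact ⟨fun h => absurd h (hσA q hq), fun h => absurd hq h⟩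
    · rw [hμ2 q hq]
      exact ⟨fun _ => hq, fun _ => (hτ q hq).1⟩

end Pool.Agent.MP_9cec2c_lc.SLT
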