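import Pool.Agent.Lib.MP_9cec2c_lc.SL.Gm

/-!
Campaign SLT, definitions: flows and chains in multigraphs, well linked sets, matchings of a set of
terminals realised by disjoint chains, walks along a sequence of matchings.
-/

set_option autoImplicit false

open Finset
open scoped Classical

namespace Pool.Agent.MP_9cec2c_lc.SLT

open SL

noncomputable section

variable {V E Q : Type} [Fintype V] [Fintype E] [Fintype Q]

/-- The outflow of the integral chain `g` at the vertex `v`. -/
def bdZ (G : MG V E) (g : E → ℤ) (v : V) : ℤ :=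
  ∑ e, g e * ((if G.src e = v then 1 else 0) - (if G.dst e = v then 1 else 0))

/-- The number of edges with exactly one end in `U`. -/
def cutc (G : MG V E) (U : Finset V) : ℕ := (univ.filter fun e => ¬ (G.src e ∈ U ↔ G.dst e ∈ U)).card

/-- The allowed darts: `al e true` allows to go from `src e` to `dst e`, `al e false` allows to go from
`dst e` to `src e`. The relation `u → v`: some allowed dart goes from `u` to `v`. -/
def Dart (G : MG V E) (al : E → Bool → Prop) (u v : V) : Prop :=
  ∃ e, (G.src e = u ∧ G.dst e = v ∧ al e true) ∨ (G.dst e = u ∧ G.src e = v ∧ al e false)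

/-- The terminals `φ q` are well linked. -/
def WLk (G : MG V E) (φ : Q → V) : Prop :=
  ∀ U : Finset V, min (univ.filter fun q => φ q ∈ U).card (univ.filter fun q => φ q ∉ U).card ≤
    cutc G U

/-- A matching of the terminals by disjoint chains: `μ` is an involution, the chain `P q` joins
`φ q` and `φ (μ q)`, and different chains are disjoint. -/
structure Mat (G : MG V E) (φ : Q → V) where
  /-- the partner -/
  μ : Q → Q
  /-- the chain -/
  P : Q → Cube E
  inv : ∀ q, μ (μ q) = q
  bd_P : ∀ q, G.bd (P q) = pt (φ q) + pt (φ (μ q))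
  disj : ∀ e q q', P q e ≠ 0 → P q' e ≠ 0 → q' = q ∨ q' = μ q

/-- The matrix of the lazy walk along `μ (R - 1), …, μ 0`. -/
def WM (μ : ℕ → Q → Q) : ℕ → Q → Q → ℝ
  | 0, q, z => if q = z then 1 else 0
  | R + 1, q, z => (WM μ R q z + WM μ R (μ R q) z) / 2

/-- The distance from the uniform matrix. -/
def psi (μ : ℕ → Q → Q) (R : ℕ) : ℝ := ∑ q, ∑ z, (WM μ R q z - 1 / Fintype.card Q) ^ 2

/-- The end of the walk from `q` along `μ (R - 1), …, μ 0`; in the step number `i` one moves if and only
if `c i` is true. -/
def en (μ : ℕ → Q → Q) : (R : ℕ) → Q → (Fin R → Bool) → Q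
  | 0, q, _ => q
  | R + 1, q, c => en μ R (if c 0 = true then μ R q else q) fun i => c i.succ

/-- The chain of the walk. -/
def ch (μ : ℕ → Q → Q) (P : ℕ → Q → Cube E) : (R : ℕ) → Q → (Fin R → Bool) → Cube E
  | 0, _, _ => 0
  | R + 1, q, c => (if c 0 = true then P R q else 0) +
      ch μ P R (if c 0 = true then μ R q else q) fun i => c i.succ

/-- The walk hits the pattern `A`: at some step `i` it moves and is in `A i`. -/
def Hit (μ : ℕ → Q → Q) (A : ℕ → Finset Q) : (R : ℕ) → Q → (Fin R → Bool) → Prop
  | 0, _, _ => False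
  | R + 1, q, c => (c 0 = true ∧ q ∈ A R) ∨
      Hit μ A R (if c 0 = true then μ R q else q) fun i => c i.succ

end

end Pool.Agent.MP_9cec2c_lc.SLT
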