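import Pool.Agent.Lib.MP_9cec2c_lc.SLT.UTree
import Pool.Agent.Lib.MP_9cec2c_lc.SL.GmProps
import Pool.Agent.Lib.MP_9cec2c_lc.SL.CobA

/-!
TASK Exp: expanders have no tree decomposition with small bags, and they are connected.

`exp_tw`: let `n = |V|`. `tree_ind` with `P A = (4 |A| < n)`: `h0`: `n > 4 ≥ 0`. `h1`: `4 < n`. `h2`: if `4 |A| < n`, `4 |B| < n`
then `2 |A ∪ B| < n`, so by expansion `|A ∪ B| ≤ |cutE (A ∪ B)|` (`U = ∑ or indicator of A ∪ B` in `Cube V`, `wt U =
|A ∪ B|`, `wt (G.cob U) = |cutE G (A ∪ B)|`), and `cutE (A ∪ B) ⊆ cutE A ∪ cutE B ⊆ T.X i`, which has at most `Δ k` edges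
(`G.DegLE Δ`: at most `Δ` edges at each of the `≤ k` vertices of the bag). So `4 |A ∪ B| ≤ 4 Δ k < n`. The
conclusion `4 n < n` is false.
`exp_conn`: a set `U ≠ ∅, V` or its complement has at most half of the vertices, and its coboundary has at least
one edge.
`Gm_tw`, `Gm_conn`: `G_m` has `2^m` vertices (`card_Vm`), `Gm_expands`, `Gm_deg` (`Δ = 44`). For `m ≤ 2` the claim of `Gm_tw` is
about `2^m / 200 = 0`: bags of at most 0 vertices, but there is a vertex, which is in some bag.
-/

set_option autoImplicit false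

open Finset
open scoped Classical

namespace Pool.Agent.MP_9cec2c_lc.SLT

open SL

variable {V E : Type} [Fintype V] [Fintype E]

/-- The indicator of a set. -/
private noncomputable def Exp_ind (A : Finset V) : Cube V := fun v => if v ∈ A then 1 else 0

private theorem Exp_ind_ne (A : Finset V) (v : V) : Exp_ind A v ≠ 0 ↔ v ∈ A := by
  unfold Exp_ind
  split_ifs with h
  · simp [h]
  · simp [h]

private theorem Exp_wt (A : Finset V) : wt (Exp_ind A) = A.card := by
  unfold wt
  congr 1
  ext v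
  rw [mem_filter]
  exact ⟨fun h => (Exp_ind_ne A v).1 h.2, fun h => ⟨mem_univ _, (Exp_ind_ne A v).2 h⟩⟩

private theorem Exp_cob (G : MG V E) (A : Finset V) (e : E) :
    G.cob (Exp_ind A) e ≠ 0 ↔ ¬ (G.src e ∈ A ↔ G.dst e ∈ A) := by
  unfold MG.cob Exp_ind
  by_cases h1 : G.src e ∈ A <;> by_cases h2 : G.dst e ∈ A
  · rw [if_pos h1, if_pos h2]
    have : (1 : ZMod 2) + 1 = 0 := by decide
    simp [h1, h2, this]
  · rw [if_pos h1, if_neg h2]
    simp [h1, h2]
  · rw [if_neg h1, if_pos h2]
    simp [h1, h2]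
  · rw [if_neg h1, if_neg h2]
    simp [h1, h2]

private theorem Exp_wtc (G : MG V E) (A : Finset V) :
    wt (G.cob (Exp_ind A)) = (cutE G A).card := by
  unfold wt cutE
  congr 1
  ext e
  rw [mem_filter, mem_filter]
  exact and_congr_right fun _ => Exp_cob G A e

private theorem Exp_cut (G : MG V E) (A : Finset V) : (cutE G A).card = cutc G A := rfl

private theorem Exp_cut_compl (G : MG V E) (A : Finset V) : cutE G Aᶜ = cutE G A := by
  unfold cutE
  ext e
  rw [mem_filter, mem_filter]
  refine and_congr_right fun _ => ?_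
  rw [mem_compl, mem_compl]
  tauto

private theorem Exp_cut_union (G : MG V E) (A B : Finset V) :
    cutE G (A ∪ B) ⊆ cutE G A ∪ cutE G B := by
  intro e he
  unfold cutE at he ⊢
  rw [mem_filter] at he
  rw [mem_union, mem_filter, mem_filter]
  have h := he.2
  rw [mem_union, mem_union] at h
  by_contra hc
  push Not at hc
  apply h
  have h1 := hc.1 (mem_univ _)
  have h2 := hc.2 (mem_univ _)
  tauto

private theorem Exp_X_card {G : MG V E} {Δ k : ℕ} (hΔ : G.DegLE Δ) (T : TDec G k) (i : T.I) :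
    (T.X i).card ≤ Δ * k := by
  have h1 : T.X i ⊆ (T.bag i).biUnion
      (fun v => univ.filter (fun e => G.src e = v) ∪ univ.filter (fun e => G.dst e = v)) := by
    intro e he
    unfold TDec.X at he
    rw [mem_filter] at he
    rw [mem_biUnion]
    rcases he.2 with h | h
    · exact ⟨G.src e, h, mem_union_left _ (mem_filter.2 ⟨mem_univ _, rfl⟩)⟩
    · exact ⟨G.dst e, h, mem_union_right _ (mem_filter.2 ⟨mem_univ _, rfl⟩)⟩
  calc (T.X i).card ≤ _ := card_le_card h1
    _ ≤ (T.bag i).card * Δ := by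
        refine card_biUnion_le_card_mul _ _ _ fun v _ => ?_
        exact (card_union_le _ _).trans (hΔ v)
    _ ≤ k * Δ := Nat.mul_le_mul_right _ (T.card i)
    _ = Δ * k := mul_comm _ _

theorem exp_tw (G : MG V E) (hG : G.Expands) {Δ k : ℕ} (hΔ : G.DegLE Δ)
    (hn : 4 < Fintype.card V) (hk : 4 * (Δ * k) < Fintype.card V) :
    ¬ TT.HasTreeDec G.src G.dst k := by
  intro h
  obtain ⟨T⟩ := tdec_of h
  have key : 4 * (univ : Finset V).card < Fintype.card V := by
    refine tree_ind T (fun A : Finset V => 4 * A.card < Fintype.card V) ?_ ?_ ?_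
    · show 4 * (∅ : Finset V).card < Fintype.card V
      rw [card_empty]
      omega
    · intro v
      show 4 * ({v} : Finset V).card < Fintype.card V
      rw [card_singleton]
      omega
    · intro i A B _ hA hB hPA hPB
      have hPA' : 4 * A.card < Fintype.card V := hPA
      have hPB' : 4 * B.card < Fintype.card V := hPB
      show 4 * (A ∪ B).card < Fintype.card V
      have h1 : (A ∪ B).card ≤ A.card + B.card := card_union_le _ _
      have h2 : wt (Exp_ind (A ∪ B)) ≤ wt (G.cob (Exp_ind (A ∪ B))) := by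
        apply hG
        rw [Exp_wt]
        omega
      rw [Exp_wt, Exp_wtc] at h2
      have h3 : (cutE G (A ∪ B)).card ≤ (T.X i).card :=
        card_le_card ((Exp_cut_union G A B).trans (union_subset hA hB))
      have h4 := Exp_X_card hΔ T i
      omega
  rw [card_univ] at key
  omega

theorem exp_conn (G : MG V E) (hG : G.Expands) (U : Finset V) (h1 : U.Nonempty) (h2 : U ≠ univ) :
    cutc G U ≠ 0 := by
  have h3 : (Uᶜ).Nonempty := by
    rw [nonempty_iff_ne_empty]
    intro h
    apply h2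
    rwa [compl_eq_empty_iff] at h
  have h4 := card_add_card_compl U
  rcases Nat.le_total (2 * U.card) (Fintype.card V) with h5 | h5
  · have h6 := hG (Exp_ind U) (by rw [Exp_wt]; exact h5)
    rw [Exp_wt, Exp_wtc, Exp_cut] at h6
    have := h1.card_pos
    omega
  · have h6 := hG (Exp_ind Uᶜ) (by rw [Exp_wt]; omega)
    rw [Exp_wt, Exp_wtc, Exp_cut_compl, Exp_cut] at h6
    have := h3.card_pos
    omega

theorem Gm_conn (m : ℕ) (U : Finset (Vm m)) (h1 : U.Nonempty) (h2 : U ≠ univ) :
    cutc (Gm m) U ≠ 0 :=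
  exp_conn (Gm m) (Gm_expands m) U h1 h2

theorem Gm_tw (m : ℕ) : ¬ TT.HasTreeDec (Gm m).src (Gm m).dst (2 ^ m / 200) := by
  rcases Nat.lt_or_ge m 3 with hm | hm
  · intro h
    obtain ⟨T⟩ := tdec_of h
    obtain ⟨v⟩ : Nonempty (Vm m) := inferInstance
    obtain ⟨i, hi⟩ := T.cov v
    have h1 := T.card i
    have h2 : 0 < (T.bag i).card := card_pos.2 ⟨v, hi⟩
    have h3 : 2 ^ m / 200 = 0 := by
      apply Nat.div_eq_of_lt
      have : 2 ^ m ≤ 2 ^ 3 := Nat.pow_le_pow_right (by norm_num) hm.le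
      omega
    omega
  · have h1 : 2 ^ 3 ≤ 2 ^ m := Nat.pow_le_pow_right (by norm_num) hm
    refine exp_tw (Gm m) (Gm_expands m) (Δ := 44) (Gm_deg m) ?_ ?_
    · rw [card_Vm]
      omega
    · rw [card_Vm]
      have h2 := Nat.div_mul_le_self (2 ^ m) 200
      omega

end Pool.Agent.MP_9cec2c_lc.SLT
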