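import Pool.Agent.Lib.MP_9cec2c_lc.SLT.Path
import Pool.Agent.Lib.MP_9cec2c_lc.SLT.CutSum

/-!
TASK Flow: an integral flow between the two halves of the terminals (maximal flow and minimal cut).

`#(U ∩ A)` stands for the number of `q ∈ A` with `φ q ∈ U`. Cut condition, from `WLk` and `2 |A| = |Q|`:
`#(U ∩ A) ≤ cutc G U + #(U ∩ Aᶜ)`: with `α = #(U ∩ A) ≤ |Q|/2`, `β = #(U ∩ Aᶜ)`, the minimum in `WLk` is
`min (α + β) (|Q| - α - β) ≥ α - β`.

Claim, by induction on `n ≤ |A|`: there are `A' ⊆ A`, `B' ⊆ Aᶜ` with `n` elements each and `f : E → ℤ`,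
`-1 ≤ f e ≤ 1`, with `bdZ G f v = #{q ∈ A' | φ q = v} - #{q ∈ B' | φ q = v}` (as integers; write it as
`∑ q ∈ A', (if φ q = v then 1 else 0) - ∑ q ∈ B', ..`). `n = 0`: `f = 0`. Step: `|A'| = n < |A|`, so some
`a ∈ A \ A'`, and `|Aᶜ| = |A| > n`. Allowed darts: `al e true ↔ f e ≤ 0`, `al e false ↔ 0 ≤ f e`. Let
`U = {v | ReflTransGen (Dart G al) (φ a) v}`. If `φ b ∈ U` for some `b ∈ Aᶜ \ B'`: `exists_path` gives `g`; `f + g`
has values in `[-1, 1]`, and its boundary belongs to `insert a A'`, `insert b B'`. Otherwise all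
`q ∈ Aᶜ` with `φ q ∈ U` are in `B'`. Every edge of the cut of `U` carries 1 outwards (`src e ∈ U`,
`dst e ∉ U`: the dart `(e, true)` is not allowed, so `f e > 0`, `f e = 1`; similarly `-1`), so
(`sum_bdZ_full`) `cutc G U = ∑ v ∈ U, bdZ G f v = #(U ∩ A') - #(U ∩ B') ≤ (#(U ∩ A) - 1) - #(U ∩ Aᶜ)`
(`a ∈ A \ A'`, `φ a ∈ U`), against the cut condition.
Finally `n = |A|`: `A' = A`, `B' = Aᶜ`.
-/

set_option autoImplicit false

open Finset
open scoped Classical

namespace Pool.Agent.MP_9cec2c_lc.SLT

open SL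

variable {V E Q : Type} [Fintype V] [Fintype E] [Fintype Q]

omit [Fintype V] in
private theorem Flow_bdZ_add (G : MG V E) (f g : E → ℤ) (v : V) :
    bdZ G (fun e => f e + g e) v = bdZ G f v + bdZ G g v := by
  unfold bdZ
  rw [← Finset.sum_add_distrib]
  refine Finset.sum_congr rfl fun e _ => ?_
  ring

omit [Fintype V] [Fintype Q] in
private theorem Flow_sum_ind (φ : Q → V) (S : Finset Q) (U : Finset V) :
    ∑ v ∈ U, ∑ q ∈ S, (if φ q = v then (1 : ℤ) else 0) =
      ((S.filter fun q => φ q ∈ U).card : ℤ) := by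
  rw [Finset.sum_comm]
  have h : ∀ q ∈ S, ∑ v ∈ U, (if φ q = v then (1 : ℤ) else 0) = if φ q ∈ U then 1 else 0 := by
    intro q _
    rw [Finset.sum_ite_eq]
  rw [Finset.sum_congr rfl h, Finset.sum_boole]

private theorem Flow_step (G : MG V E) {φ : Q → V} (hW : WLk G φ)
    (A : Finset Q) (hA : 2 * A.card = Fintype.card Q) (n : ℕ) : n ≤ A.card →
    ∃ A' B' : Finset Q, A' ⊆ A ∧ B' ⊆ Aᶜ ∧ A'.card = n ∧ B'.card = n ∧ ∃ f : E → ℤ,
      (∀ e, -1 ≤ f e ∧ f e ≤ 1) ∧ ∀ v, bdZ G f v =
        ∑ q ∈ A', (if φ q = v then (1 : ℤ) else 0) - ∑ q ∈ B', (if φ q = v then (1 : ℤ) else 0) := by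
  induction n with
  | zero =>
    intro _
    refine ⟨∅, ∅, Finset.empty_subset _, Finset.empty_subset _, rfl, rfl, fun _ => 0,
      fun e => ⟨by norm_num, by norm_num⟩, fun v => ?_⟩
    simp [bdZ]
  | succ n ih =>
    intro hn
    obtain ⟨A', B', hA', hB', hcA, hcB, f, hf, hbd⟩ := ih (by omega)
    obtain ⟨a, haA, haA'⟩ : ∃ a ∈ A, a ∉ A' := by
      by_contra hc
      push Not at hc
      have h1 := Finset.card_le_card (show A ⊆ A' from hc)
      omega
    let al : E → Bool → Prop := fun e c => if c = true then f e ≤ 0 else 0 ≤ f e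
    let U : Finset V := univ.filter fun v => Relation.ReflTransGen (Dart G al) (φ a) v
    have hU : ∀ v, v ∈ U ↔ Relation.ReflTransGen (Dart G al) (φ a) v := by
      intro v
      simp [U]
    by_cases hb : ∃ b ∈ Aᶜ, b ∉ B' ∧ φ b ∈ U
    · obtain ⟨b, hbA, hbB, hbU⟩ := hb
      obtain ⟨g, hg, hgb⟩ := exists_path G al ((hU (φ b)).1 hbU)
      refine ⟨insert a A', insert b B', Finset.insert_subset haA hA', Finset.insert_subset hbA hB',
        by rw [Finset.card_insert_of_notMem haA', hcA], by rw [Finset.card_insert_of_notMem hbB, hcB],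
        fun e => f e + g e, fun e => ?_, fun v => ?_⟩
      · have h1 := hf e
        change -1 ≤ f e + g e ∧ f e + g e ≤ 1
        rcases hg e with h | ⟨h, h2⟩ | ⟨h, h2⟩
        · rw [h]
          constructor <;> omega
        · have h3 : f e ≤ 0 := by simpa [al] using h2
          rw [h]
          constructor <;> omega
        · have h3 : 0 ≤ f e := by simpa [al] using h2
          rw [h]
          constructor <;> omega
      · rw [Flow_bdZ_add, hbd, hgb, Finset.sum_insert haA', Finset.sum_insert hbB]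
        ring
    · exfalso
      push Not at hb
      have haU : φ a ∈ U := (hU _).2 Relation.ReflTransGen.refl
      have h1 : ∀ e, G.src e ∈ U → G.dst e ∉ U → f e = 1 := by
        intro e hs hd
        have h2 : ¬ (f e ≤ 0) := by
          intro h3
          apply hd
          rw [hU] at hs ⊢
          refine hs.tail ⟨e, Or.inl ⟨rfl, rfl, ?_⟩⟩
          simpa [al] using h3
        have h3 := hf e
        omega
      have h2 : ∀ e, G.src e ∉ U → G.dst e ∈ U → f e = -1 := by
        intro e hs hd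
        have h2 : ¬ (0 ≤ f e) := by
          intro h3
          apply hs
          rw [hU] at hd ⊢
          refine hd.tail ⟨e, Or.inr ⟨rfl, rfl, ?_⟩⟩
          simpa [al] using h3
        have h3 := hf e
        omega
      have h3 := sum_bdZ_full G f U h1 h2
      rw [Finset.sum_congr rfl (fun v _ => hbd v), Finset.sum_sub_distrib, Flow_sum_ind,
        Flow_sum_ind] at h3
      -- counting
      have hα : (A'.filter fun q => φ q ∈ U).card + 1 ≤ (A.filter fun q => φ q ∈ U).card := by
        rw [← Finset.card_insert_of_notMem (a := a) (s := A'.filter fun q => φ q ∈ U)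
          (fun h => haA' (Finset.mem_filter.1 h).1)]
        refine Finset.card_le_card fun q hq => ?_
        rcases Finset.mem_insert.1 hq with h | h
        · rw [h]
          exact Finset.mem_filter.2 ⟨haA, haU⟩
        · exact Finset.mem_filter.2 ⟨hA' (Finset.mem_filter.1 h).1, (Finset.mem_filter.1 h).2⟩
      have hβ : (Aᶜ.filter fun q => φ q ∈ U).card ≤ (B'.filter fun q => φ q ∈ U).card := by
        refine Finset.card_le_card fun q hq => ?_
        obtain ⟨hq1, hq2⟩ := Finset.mem_filter.1 hq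
        refine Finset.mem_filter.2 ⟨?_, hq2⟩
        by_contra hq3
        exact hb q hq1 hq3 hq2
      have hβ' : (B'.filter fun q => φ q ∈ U).card ≤ (Aᶜ.filter fun q => φ q ∈ U).card :=
        Finset.card_le_card (Finset.filter_subset_filter _ hB')
      have hsum : (univ.filter fun q => φ q ∈ U).card =
          (A.filter fun q => φ q ∈ U).card + (Aᶜ.filter fun q => φ q ∈ U).card := by
        rw [← Finset.card_union_of_disjoint (Finset.disjoint_filter_filter disjoint_compl_right),
          ← Finset.filter_union, Finset.union_compl]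
      have htot : (univ.filter fun q => φ q ∈ U).card + (univ.filter fun q => φ q ∉ U).card =
          Fintype.card Q := by
        rw [Finset.card_filter_add_card_filter_not, Finset.card_univ]
      have hαA : (A.filter fun q => φ q ∈ U).card ≤ A.card := Finset.card_filter_le _ _
      have hmin := hW U
      rcases min_le_iff.1 hmin with h4 | h4 <;> omega

theorem exists_flow (G : MG V E) {φ : Q → V} (hφ : Function.Injective φ) (hW : WLk G φ)
    (A : Finset Q) (hA : 2 * A.card = Fintype.card Q) : ∃ f : E → ℤ,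
    (∀ e, -1 ≤ f e ∧ f e ≤ 1) ∧
    ∀ v, bdZ G f v = ∑ q, (if φ q = v then (if q ∈ A then 1 else -1) else 0) := by
  obtain ⟨A', B', hA', hB', hcA, hcB, f, hf, hbd⟩ := Flow_step G hW A hA A.card le_rfl
  have e1 : A' = A := Finset.eq_of_subset_of_card_le hA' hcA.ge
  have e2 : B' = Aᶜ := Finset.eq_of_subset_of_card_le hB' (by
    rw [Finset.card_compl, hcB]
    omega)
  refine ⟨f, hf, fun v => ?_⟩
  rw [hbd, e1, e2, ← Finset.sum_add_sum_compl A, sub_eq_add_neg, ← Finset.sum_neg_distrib]
  congr 1
  · refine Finset.sum_congr rfl fun q hq => ?_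
    rw [if_pos hq]
  · refine Finset.sum_congr rfl fun q hq => ?_
    rw [if_neg (Finset.mem_compl.1 hq)]
    split_ifs <;> simp

end Pool.Agent.MP_9cec2c_lc.SLT
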