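import Pool.Agent.Lib.MP_9cec2c_lc.SLT.Def

/-!
TASK Median: splitting at the median.

`exists_half`: `|Q| = 2 n`, `z : Q → ℝ`: there is `A` with `2 |A| = |Q|` and `m` with `m ≤ z q` for `q ∈ A` and
`z q ≤ m` for `q ∉ A`. (For example by induction on the number of elements removed; or: among all sets `A`
with `n` elements take one with maximal `∑ q ∈ A, z q` (`Finset.exists_max_image` on
`powersetCard n univ`); then `z q ≥ z q'` for `q ∈ A`, `q' ∉ A` (exchange), and `m` = the minimum of `z` on `A`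
if `A ≠ ∅`, any number if `Q` is empty.)

`half_ineq`: for an involution `μ` with `μ q ∈ A ↔ q ∉ A` and `∑ z = 0`: for `q ∈ A`
`(z q - z (μ q))² ≥ (z q - m)² + (m - z (μ q))²` (both terms are `≥ 0`), similarly for `q ∉ A`. Sum over all `q`:
`≥ ∑_q ((z q - m)² + (z (μ q) - m)²) = 2 ∑ (z q - m)² = 2 (∑ z q² + |Q| m²) ≥ 2 ∑ z q²`.
-/

set_option autoImplicit false

open Finset
open scoped Classical

namespace Pool.Agent.MP_9cec2c_lc.SLT

open SL

variable {V E Q : Type} [Fintype V] [Fintype E] [Fintype Q]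

theorem exists_half (z : Q → ℝ) (hQ : Even (Fintype.card Q)) : ∃ (A : Finset Q) (m : ℝ),
    2 * A.card = Fintype.card Q ∧ (∀ q ∈ A, m ≤ z q) ∧ ∀ q, q ∉ A → z q ≤ m := by
  obtain ⟨r, hr⟩ := hQ
  have hne : ((Finset.univ : Finset Q).powersetCard r).Nonempty := by
    rw [Finset.powersetCard_nonempty, Finset.card_univ]
    omega
  obtain ⟨A, hA, hmax⟩ := Finset.exists_max_image _ (fun A : Finset Q => ∑ q ∈ A, z q) hne
  have hcard : A.card = r := (Finset.mem_powersetCard.mp hA).2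
  have hex : ∀ q ∈ A, ∀ q', q' ∉ A → z q' ≤ z q := by
    intro q hq q' hq'
    by_contra hlt
    push Not at hlt
    have hq'e : q' ∉ A.erase q := fun hmem => hq' (Finset.mem_of_mem_erase hmem)
    have hc : (insert q' (A.erase q)).card = r := by
      rw [Finset.card_insert_of_notMem hq'e, Finset.card_erase_of_mem hq, hcard]
      have : 0 < A.card := Finset.card_pos.mpr ⟨q, hq⟩
      omega
    have hle := hmax (insert q' (A.erase q))
      (Finset.mem_powersetCard.mpr ⟨Finset.subset_univ _, hc⟩)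
    rw [Finset.sum_insert hq'e] at hle
    have hs := Finset.add_sum_erase A z hq
    linarith
  rcases A.eq_empty_or_nonempty with hA0 | hA0
  · refine ⟨A, 0, by omega, ?_, ?_⟩
    · intro q hq
      rw [hA0] at hq
      exact absurd hq (Finset.notMem_empty q)
    · intro q _
      have h0 : Fintype.card Q = 0 := by
        rw [hA0, Finset.card_empty] at hcard
        omega
      exact ((Fintype.card_eq_zero_iff.mp h0).false q).elim
  · obtain ⟨q0, hq0, hmin⟩ := Finset.exists_min_image A z hA0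
    exact ⟨A, z q0, by omega, hmin, fun q hq => hex q0 hq0 q hq⟩

theorem half_ineq (z : Q → ℝ) (hz : ∑ q, z q = 0) {A : Finset Q} {m : ℝ}
    (h1 : ∀ q ∈ A, m ≤ z q) (h2 : ∀ q, q ∉ A → z q ≤ m) {μ : Q → Q}
    (hμ : ∀ q, μ (μ q) = q) (hA : ∀ q, μ q ∈ A ↔ q ∉ A) :
    2 * ∑ q, z q ^ 2 ≤ ∑ q, (z q - z (μ q)) ^ 2 := by
  have hpt : ∀ q ∈ (Finset.univ : Finset Q),
      (z q - m) ^ 2 + (z (μ q) - m) ^ 2 ≤ (z q - z (μ q)) ^ 2 := by
    intro q _
    by_cases hq : q ∈ A
    · have hμq : μ q ∉ A := fun h => (hA q).mp h hq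
      nlinarith [mul_nonneg (sub_nonneg.mpr (h1 q hq)) (sub_nonneg.mpr (h2 _ hμq))]
    · have hμq : μ q ∈ A := (hA q).mpr hq
      nlinarith [mul_nonneg (sub_nonneg.mpr (h2 q hq)) (sub_nonneg.mpr (h1 _ hμq))]
  have hsum := Finset.sum_le_sum hpt
  rw [Finset.sum_add_distrib] at hsum
  have hinv : ∑ q, (z (μ q) - m) ^ 2 = ∑ q, (z q - m) ^ 2 :=
    Fintype.sum_bijective μ (Function.Involutive.bijective hμ) _ _ fun q => rfl
  rw [hinv] at hsum
  have hexp : ∑ q, (z q - m) ^ 2 = ∑ q, z q ^ 2 + (Fintype.card Q : ℝ) * m ^ 2 := by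
    have e1 : ∀ q ∈ (Finset.univ : Finset Q), (z q - m) ^ 2 = z q ^ 2 - 2 * m * z q + m ^ 2 :=
      fun q _ => by ring
    rw [Finset.sum_congr rfl e1, Finset.sum_add_distrib, Finset.sum_sub_distrib,
      ← Finset.mul_sum, hz, Finset.sum_const, Finset.card_univ, nsmul_eq_mul]
    ring
  have hm : 0 ≤ (Fintype.card Q : ℝ) * m ^ 2 := by positivity
  linarith

end Pool.Agent.MP_9cec2c_lc.SLT
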