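import Pool.Agent.Lib.MP_9cec2c_lc.SLT.SignB

/-!
TASK Sign: good signs.

* `ip_sub`: `ip (x - y) σ = ip x σ - ip y σ`. `ip_sum_zero`: if `∑_q x q z = 0` for all `z` then `∑_q ip (x q) σ = 0`.
* `exists_signs`: let `x : Q → Q → ℝ` be vectors, `ψ = ∑_q |x q|²`, `k = |Q| ≥ 1`, `τ = 2 log (100 k²)`. Call `σ` bad if
  `(ip (x q - x q') σ)² > τ |x q - x q'|²` for some `q, q'`: at most `k² · 2/(100 k²) · 2^k = 2^k/50` bad `σ` (`ip_tail`,
  `exp (-τ/2) = 1/(100 k²)`).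
  `X σ = ∑_q (ip (x q) σ)²`: `∑_σ X = 2^k ψ`, `∑_σ X² ≤ 9 · 2^k ψ²` (`∑_σ (ip a)² (ip b)² ≤ √(∑ (ip a)⁴ ∑ (ip b)⁴)
  ≤ 9 · 2^k |a|² |b|²`; or `2 u v ≤ u²/|a|^4 ..`, or Minkowski). If `X σ < ψ/2` for all good `σ` then
  `2^k ψ ≤ 2^k ψ/2 + ∑_bad X ≤ 2^k ψ/2 + √(9 · 2^k ψ² · 2^k/50)` with `√(9/50) < 1/2` (Cauchy-Schwarz
  `Finset.sum_mul_sq_le_sq_mul_sq`), contradiction for `ψ > 0`. For `ψ = 0` every good `σ` works, and good ones
  exist (`1/50 < 1`).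
-/

set_option autoImplicit false

open Finset
open scoped Classical

namespace Pool.Agent.MP_9cec2c_lc.SLT

open SL

variable {V E Q : Type} [Fintype V] [Fintype E] [Fintype Q]

theorem ip_sub (x y : Q → ℝ) (σ : Q → Bool) : ip (fun z => x z - y z) σ = ip x σ - ip y σ := by
  unfold ip
  rw [← Finset.sum_sub_distrib]
  exact Finset.sum_congr rfl fun z _ => by ring

theorem ip_sum_zero (x : Q → Q → ℝ) (hx : ∀ z, ∑ q, x q z = 0) (σ : Q → Bool) :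
    ∑ q, ip (x q) σ = 0 := by
  unfold ip
  rw [Finset.sum_comm]
  refine Finset.sum_eq_zero fun z _ => ?_
  rw [← Finset.sum_mul, hx z, zero_mul]

/-- the second moment of the sum of the squares -/
private theorem Sign_sq (x : Q → Q → ℝ) :
    ∑ σ : Q → Bool, (∑ q, ip (x q) σ ^ 2) ^ 2 ≤
      9 * 2 ^ Fintype.card Q * (∑ q, ∑ z, x q z ^ 2) ^ 2 := by
  have ha0 : ∀ q, 0 ≤ ∑ z, x q z ^ 2 := fun q => Finset.sum_nonneg fun z _ => sq_nonneg _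
  have hψ : 0 ≤ ∑ q, ∑ z, x q z ^ 2 := Finset.sum_nonneg fun q _ => ha0 q
  have hzero : ∀ q, ∑ z, x q z ^ 2 = 0 → ∀ σ, ip (x q) σ = 0 := by
    intro q hq σ
    have h1 := (Finset.sum_eq_zero_iff_of_nonneg fun z _ => sq_nonneg (x q z)).1 hq
    unfold ip
    refine Finset.sum_eq_zero fun z hz => ?_
    rw [pow_eq_zero_iff two_ne_zero |>.1 (h1 z hz), zero_mul]
  have h1 : ∀ σ : Q → Bool, (∑ q, ip (x q) σ ^ 2) ^ 2 ≤
      (∑ q, ∑ z, x q z ^ 2) * ∑ q, ip (x q) σ ^ 4 / ∑ z, x q z ^ 2 := by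
    intro σ
    refine Finset.sum_sq_le_sum_mul_sum_of_sq_le_mul _ (fun q _ => ha0 q)
      (fun q _ => div_nonneg (by positivity) (ha0 q)) fun q _ => le_of_eq ?_
    by_cases hq : ∑ z, x q z ^ 2 = 0
    · rw [hq, hzero q hq σ]
      norm_num
    · rw [mul_div_cancel₀ _ hq]
      ring
  refine (Finset.sum_le_sum fun σ _ => h1 σ).trans ?_
  have hcomm : ∑ σ : Q → Bool, ∑ q, ip (x q) σ ^ 4 / ∑ z, x q z ^ 2 =
      ∑ q, ∑ σ : Q → Bool, ip (x q) σ ^ 4 / ∑ z, x q z ^ 2 := Finset.sum_comm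
  rw [← Finset.mul_sum, hcomm]
  have h2 : ∀ q ∈ (univ : Finset Q), ∑ σ : Q → Bool, ip (x q) σ ^ 4 / ∑ z, x q z ^ 2 ≤
      9 * 2 ^ Fintype.card Q * ∑ z, x q z ^ 2 := by
    intro q _
    rw [← Finset.sum_div]
    by_cases hq : ∑ z, x q z ^ 2 = 0
    · rw [hq, div_zero, mul_zero]
    · have hq' : 0 < ∑ z, x q z ^ 2 := lt_of_le_of_ne (ha0 q) (Ne.symm hq)
      rw [div_le_iff₀ hq']
      calc ∑ σ : Q → Bool, ip (x q) σ ^ 4 ≤ 9 * 2 ^ Fintype.card Q * (∑ z, x q z ^ 2) ^ 2 := ip_four_sum (x q)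
        _ = _ := by ring
  calc (∑ q, ∑ z, x q z ^ 2) * ∑ q, ∑ σ : Q → Bool, ip (x q) σ ^ 4 / ∑ z, x q z ^ 2
      ≤ (∑ q, ∑ z, x q z ^ 2) * ∑ q, 9 * 2 ^ Fintype.card Q * ∑ z, x q z ^ 2 :=
        mul_le_mul_of_nonneg_left (Finset.sum_le_sum h2) hψ
    _ = 9 * 2 ^ Fintype.card Q * (∑ q, ∑ z, x q z ^ 2) ^ 2 := by
        rw [← Finset.mul_sum]
        ring

theorem exists_signs [Nonempty Q] (x : Q → Q → ℝ) {τ : ℝ}
    (hτ : τ = 2 * Real.log (100 * (Fintype.card Q : ℝ) ^ 2)) : ∃ σ : Q → Bool,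
    (∀ q q', ip (fun z => x q z - x q' z) σ ^ 2 ≤ τ * ∑ z, (x q z - x q' z) ^ 2) ∧
    (∑ q, ∑ z, x q z ^ 2) / 2 ≤ ∑ q, ip (x q) σ ^ 2 := by
  have hk1 : (1 : ℝ) ≤ Fintype.card Q := by exact_mod_cast Fintype.card_pos
  have hk100 : (1 : ℝ) < 100 * (Fintype.card Q : ℝ) ^ 2 := by nlinarith
  have hτ0 : 0 < τ := by
    rw [hτ]
    have := Real.log_pos hk100
    linarith
  have hexp : Real.exp (-τ / 2) = 1 / (100 * (Fintype.card Q : ℝ) ^ 2) := by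
    have h1 : -τ / 2 = -Real.log (100 * (Fintype.card Q : ℝ) ^ 2) := by rw [hτ]; ring
    rw [h1, Real.exp_neg, Real.exp_log (by linarith), one_div]
  set N : ℝ := 2 ^ Fintype.card Q with hN
  have hN0 : 0 < N := by rw [hN]; positivity
  set ψ : ℝ := ∑ q, ∑ z, x q z ^ 2 with hψd
  have hψ : 0 ≤ ψ := Finset.sum_nonneg fun q _ => Finset.sum_nonneg fun z _ => sq_nonneg _
  set bad : Finset (Q → Bool) := univ.filter fun σ : Q → Bool =>
    ¬ ∀ q q', ip (fun z => x q z - x q' z) σ ^ 2 ≤ τ * ∑ z, (x q z - x q' z) ^ 2 with hbad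
  have hbadc : (bad.card : ℝ) ≤ N / 50 := by
    have hsub : bad ⊆ (univ : Finset (Q × Q)).biUnion fun a => univ.filter fun σ : Q → Bool =>
        τ * ∑ z, (x a.1 z - x a.2 z) ^ 2 < ip (fun z => x a.1 z - x a.2 z) σ ^ 2 := by
      intro σ hσ
      rw [hbad, mem_filter] at hσ
      have h1 := hσ.2
      push Not at h1
      obtain ⟨q, q', h2⟩ := h1
      rw [mem_biUnion]
      exact ⟨(q, q'), mem_univ _, mem_filter.2 ⟨mem_univ _, h2⟩⟩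
    have h1 : (bad.card : ℝ) ≤ ∑ a : Q × Q, ((univ.filter fun σ : Q → Bool =>
        τ * ∑ z, (x a.1 z - x a.2 z) ^ 2 < ip (fun z => x a.1 z - x a.2 z) σ ^ 2).card : ℝ) := by
      have h2 := (Finset.card_le_card hsub).trans Finset.card_biUnion_le
      exact_mod_cast h2
    refine h1.trans ((Finset.sum_le_sum fun a _ => ip_tail (fun z => x a.1 z - x a.2 z) hτ0).trans ?_)
    rw [Finset.sum_const, Finset.card_univ, Fintype.card_prod, nsmul_eq_mul, hexp, ← hN]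
    push_cast
    have hk0 : (Fintype.card Q : ℝ) ≠ 0 := by linarith
    have h3 : (Fintype.card Q : ℝ) * (Fintype.card Q : ℝ) *
        (2 * (1 / (100 * (Fintype.card Q : ℝ) ^ 2)) * N) = N / 50 := by
      field_simp
      norm_num
    rw [h3]
  by_contra hcon
  push Not at hcon
  have hgood : ∀ σ : Q → Bool, σ ∉ bad → ∑ q, ip (x q) σ ^ 2 < ψ / 2 := by
    intro σ hσ
    refine hcon σ ?_
    by_contra h1
    exact hσ (by rw [hbad, mem_filter]; exact ⟨mem_univ _, h1⟩)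
  have hX0 : ∀ σ : Q → Bool, 0 ≤ ∑ q, ip (x q) σ ^ 2 := fun σ => Finset.sum_nonneg fun q _ => sq_nonneg _
  have hcardσ : ((univ : Finset (Q → Bool)).card : ℝ) = N := by
    rw [Finset.card_univ, Fintype.card_fun, Fintype.card_bool, hN]
    push_cast
    rfl
  have hsum : ∑ σ : Q → Bool, ∑ q, ip (x q) σ ^ 2 = N * ψ := by
    rw [Finset.sum_comm, hψd, Finset.mul_sum]
    exact Finset.sum_congr rfl fun q _ => ip_sq_sum (x q)
  have hsplit : ∑ σ : Q → Bool, ∑ q, ip (x q) σ ^ 2 =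
      ∑ σ ∈ bad, ∑ q, ip (x q) σ ^ 2 + ∑ σ ∈ univ \ bad, ∑ q, ip (x q) σ ^ 2 := by
    rw [add_comm, Finset.sum_sdiff (Finset.subset_univ bad)]
  have hgsum : ∑ σ ∈ univ \ bad, ∑ q, ip (x q) σ ^ 2 ≤ N * (ψ / 2) := by
    calc ∑ σ ∈ univ \ bad, ∑ q, ip (x q) σ ^ 2 ≤ ∑ _σ ∈ univ \ bad, ψ / 2 :=
          Finset.sum_le_sum fun σ hσ => (hgood σ (mem_sdiff.1 hσ).2).le
      _ = ((univ \ bad).card : ℝ) * (ψ / 2) := by rw [Finset.sum_const, nsmul_eq_mul]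
      _ ≤ N * (ψ / 2) := by
          refine mul_le_mul_of_nonneg_right ?_ (by linarith)
          rw [← hcardσ]
          exact_mod_cast Finset.card_le_card Finset.sdiff_subset
  have hbsum : (∑ σ ∈ bad, ∑ q, ip (x q) σ ^ 2) ^ 2 ≤ 9 / 50 * (N * ψ) ^ 2 := by
    calc (∑ σ ∈ bad, ∑ q, ip (x q) σ ^ 2) ^ 2 ≤ bad.card * ∑ σ ∈ bad, (∑ q, ip (x q) σ ^ 2) ^ 2 :=
          sq_sum_le_card_mul_sum_sq
      _ ≤ N / 50 * (9 * N * ψ ^ 2) := by
          refine mul_le_mul hbadc ?_ (Finset.sum_nonneg fun σ _ => sq_nonneg _) (by positivity)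
          refine le_trans ?_ (Sign_sq x)
          exact Finset.sum_le_sum_of_subset_of_nonneg (Finset.subset_univ _) fun σ _ _ => sq_nonneg _
      _ = 9 / 50 * (N * ψ) ^ 2 := by ring
  have hbnn : 0 ≤ ∑ σ ∈ bad, ∑ q, ip (x q) σ ^ 2 := Finset.sum_nonneg fun σ _ => hX0 σ
  have hb2 : N * ψ / 2 ≤ ∑ σ ∈ bad, ∑ q, ip (x q) σ ^ 2 := by linarith
  rcases hψ.eq_or_lt with h0 | h0
  · -- `ψ = 0`
    have h1 : (bad.card : ℝ) < (univ : Finset (Q → Bool)).card := by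
      rw [hcardσ]
      linarith
    have h2 : bad.card < (univ : Finset (Q → Bool)).card := by exact_mod_cast h1
    obtain ⟨σ, _, hσ⟩ := Finset.exists_mem_notMem_of_card_lt_card h2
    have h3 := hgood σ hσ
    have h4 := hX0 σ
    linarith
  · have h1 : 0 < N * ψ := mul_pos hN0 h0
    nlinarith

end Pool.Agent.MP_9cec2c_lc.SLT
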