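import Pool.Agent.Lib.MP_9cec2c_lc.SLT.MixA
import Pool.Agent.Lib.MP_9cec2c_lc.SLT.Sign
import Pool.Agent.Lib.MP_9cec2c_lc.SLT.Median

/-!
TASK Mix: the cut-matching game (Khandekar, Rao, Vazirani), existence version.

`k = |Q| = 2^m`, `1 ≤ m` (so `k` is even), `τ = 2 log (100 k²) > 0`.
`mix_step`: given `μ` up to `R`: let `x q z = WM μ R q z - 1/k`, `σ` from `exists_signs`, `z q = ip (x q) σ`;
`∑_q z q = 0` (column sums). `A`, `m` from `exists_half`, `ν` a member of the class for `A`. By `half_ineq`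
`∑ (z q - z (ν q))² ≥ 2 ∑ (z q)² ≥ psi μ R`, and `z q - z (ν q) = ip (x q - x (ν q)) σ`, so
`∑_q ∑_z (WM μ R q z - WM μ R (ν q) z)² ≥ psi μ R / τ`. Hence (`psi_succ`, for `Function.update μ R ν`, `WM_congr`)
`psi ≤ psi μ R (1 - 1/(4 τ))`.
`exists_mix`: by induction on `R` a sequence `μ` (all `μ i` in the class `MM`; the class is nonempty, so
the remaining values can be filled) with `psi μ R ≤ k (1 - 1/(4τ))^R ≤ k exp (-R/(4τ))`. For `R = 121 (m+1)²`: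
`τ = 2 (log 100 + 2 m log 2) ≤ 10 (m+1)` (`log 100 ≤ 4.7`, `log 2 ≤ 0.7`: `Real.log_two_lt_d9`,
`log 100 ≤ 7 log 2`), so `R/(4τ) ≥ 121 (m+1)/40 ≥ 3 (m+1) ≥ log (4 k³)` (`log 4 + 3 m log 2 = (2 + 3m) log 2 ≤ 3(m+1) · 0.7`),
and `psi μ R ≤ k/(4 k³) = 1/(4 k²)`. Each `(WM - 1/k)² ≤ psi ≤ (1/(2k))²`.
-/

set_option autoImplicit false

open Finset
open scoped Classical

namespace Pool.Agent.MP_9cec2c_lc.SLT

open SL

variable {V E Q : Type} [Fintype V] [Fintype E] [Fintype Q]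

theorem mix_step [Nonempty Q] (hQ : Even (Fintype.card Q)) {τ : ℝ}
    (hτ : τ = 2 * Real.log (100 * (Fintype.card Q : ℝ) ^ 2)) (hτ0 : 0 < τ)
    (MM : Set (Q → Q)) (hinv : ∀ μ ∈ MM, ∀ q, μ (μ q) = q)
    (hMM : ∀ A : Finset Q, 2 * A.card = Fintype.card Q → ∃ μ ∈ MM, ∀ q, μ q ∈ A ↔ q ∉ A)
    (μ : ℕ → Q → Q) (hμ : ∀ i, μ i ∈ MM) (R : ℕ) :
    ∃ ν ∈ MM, psi (Function.update μ R ν) (R + 1) ≤ psi μ R * (1 - 1 / (4 * τ)) := by
  have hk : (Fintype.card Q : ℝ) ≠ 0 := by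
    have := Fintype.card_pos (α := Q)
    exact_mod_cast this.ne'
  obtain ⟨σ, h1, h2⟩ := exists_signs
    (fun q z => WM μ R q z - 1 / (Fintype.card Q : ℝ)) hτ
  have hz0 : ∑ q, ip ((fun q z => WM μ R q z - 1 / (Fintype.card Q : ℝ)) q) σ = 0 := by
    apply ip_sum_zero
    intro z
    rw [Finset.sum_sub_distrib, WM_col μ (fun i q => hinv _ (hμ i) q) R z, Finset.sum_const,
      card_univ, nsmul_eq_mul]
    field_simp
    ring
  obtain ⟨A, m, hA1, hA2, hA3⟩ := exists_half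
    (fun q => ip ((fun q z => WM μ R q z - 1 / (Fintype.card Q : ℝ)) q) σ) hQ
  obtain ⟨ν, hν, hνA⟩ := hMM A hA1
  refine ⟨ν, hν, ?_⟩
  have h3 := half_ineq (fun q => ip ((fun q z => WM μ R q z - 1 / (Fintype.card Q : ℝ)) q) σ)
    hz0 hA2 hA3 (hinv ν hν) hνA
  have hcongr : WM (Function.update μ R ν) R = WM μ R := by
    apply WM_congr
    intro i hi
    exact Function.update_of_ne hi.ne _ _
  have hpsi : psi (Function.update μ R ν) R = psi μ R := by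
    unfold psi
    rw [hcongr]
  have hs := psi_succ (Function.update μ R ν) R (by
    intro q
    rw [Function.update_self]
    exact hinv ν hν q)
  rw [hpsi, hcongr, Function.update_self] at hs
  rw [hs]
  have h4 : ∑ q, (ip ((fun q z => WM μ R q z - 1 / (Fintype.card Q : ℝ)) q) σ -
      ip ((fun q z => WM μ R q z - 1 / (Fintype.card Q : ℝ)) (ν q)) σ) ^ 2 ≤
      τ * ∑ q, ∑ z, (WM μ R q z - WM μ R (ν q) z) ^ 2 := by
    rw [Finset.mul_sum]
    apply Finset.sum_le_sum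
    intro q _
    rw [← ip_sub]
    refine (h1 q (ν q)).trans (le_of_eq ?_)
    congr 1
    apply Finset.sum_congr rfl
    intro z _
    ring
  have h5 : psi μ R ≤ τ * ∑ q, ∑ z, (WM μ R q z - WM μ R (ν q) z) ^ 2 := by
    have h6 : psi μ R = ∑ q, ∑ z, (WM μ R q z - 1 / (Fintype.card Q : ℝ)) ^ 2 := rfl
    simp only at h2 h3 h4
    linarith
  have h7 : psi μ R / τ ≤ ∑ q, ∑ z, (WM μ R q z - WM μ R (ν q) z) ^ 2 := by
    rw [div_le_iff₀ hτ0]
    linarith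
  have h8 : psi μ R * (1 - 1 / (4 * τ)) = psi μ R - (psi μ R / τ) / 4 := by
    field_simp
  rw [h8]
  linarith

private theorem Mix_seq {m : ℕ} (hm : 1 ≤ m) (hQ : Fintype.card Q = 2 ^ m) {τ : ℝ}
    (hτ : τ = 2 * Real.log (100 * (Fintype.card Q : ℝ) ^ 2)) (hτ0 : 1 ≤ τ)
    (MM : Set (Q → Q)) (hinv : ∀ μ ∈ MM, ∀ q, μ (μ q) = q)
    (hMM : ∀ A : Finset Q, 2 * A.card = Fintype.card Q → ∃ μ ∈ MM, ∀ q, μ q ∈ A ↔ q ∉ A) (R : ℕ) :
    ∃ μ : ℕ → Q → Q, (∀ i, μ i ∈ MM) ∧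
      psi μ R ≤ (Fintype.card Q : ℝ) * (1 - 1 / (4 * τ)) ^ R := by
  have hev : Even (Fintype.card Q) := by
    rw [hQ]
    exact (Nat.even_pow.mpr ⟨even_two, by omega⟩)
  have hpos : 0 < Fintype.card Q := by
    rw [hQ]
    positivity
  have : Nonempty Q := Fintype.card_pos_iff.mp hpos
  induction R with
  | zero =>
    obtain ⟨A, _, hA1, _, _⟩ := exists_half (fun _ : Q => (0 : ℝ)) hev
    obtain ⟨ν, hν, _⟩ := hMM A hA1
    refine ⟨fun _ => ν, fun _ => hν, ?_⟩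
    rw [pow_zero, mul_one]
    exact psi_zero _
  | succ R ih =>
    obtain ⟨μ, hμ, hle⟩ := ih
    obtain ⟨ν, hν, h⟩ := mix_step hev hτ (by linarith) MM hinv hMM μ hμ R
    refine ⟨Function.update μ R ν, ?_, ?_⟩
    · intro i
      by_cases hi : i = R
      · subst hi
        rw [Function.update_self]
        exact hν
      · rw [Function.update_of_ne hi]
        exact hμ i
    · refine h.trans ?_
      have h1 : 0 ≤ 1 - 1 / (4 * τ) := by
        have : 1 / (4 * τ) ≤ 1 := by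
          rw [div_le_one (by linarith)]
          linarith
        linarith
      rw [pow_succ, ← mul_assoc]
      exact mul_le_mul_of_nonneg_right hle h1

theorem exists_mix {m : ℕ} (hm : 1 ≤ m) (hQ : Fintype.card Q = 2 ^ m)
    (MM : Set (Q → Q)) (hinv : ∀ μ ∈ MM, ∀ q, μ (μ q) = q)
    (hMM : ∀ A : Finset Q, 2 * A.card = Fintype.card Q → ∃ μ ∈ MM, ∀ q, μ q ∈ A ↔ q ∉ A) :
    ∃ μ : ℕ → Q → Q, (∀ i, μ i ∈ MM) ∧ ∀ q z,
      1 / (2 * 2 ^ m) ≤ WM μ (121 * (m + 1) ^ 2) q z ∧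
      WM μ (121 * (m + 1) ^ 2) q z ≤ 3 / (2 * 2 ^ m) := by
  have hkr : (Fintype.card Q : ℝ) = 2 ^ m := by
    rw [hQ]
    push_cast
    rfl
  obtain ⟨τ, hτ⟩ : ∃ τ : ℝ, τ = 2 * Real.log (100 * (Fintype.card Q : ℝ) ^ 2) := ⟨_, rfl⟩
  have hl2 : 0.6931471803 < Real.log 2 := Real.log_two_gt_d9
  have hl2' : Real.log 2 < 0.6931471808 := Real.log_two_lt_d9
  have hm1 : (1 : ℝ) ≤ m := by exact_mod_cast hm
  have hlog : Real.log (100 * (Fintype.card Q : ℝ) ^ 2) = Real.log 100 + 2 * m * Real.log 2 := by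
    rw [hkr, Real.log_mul (by norm_num) (by positivity), ← pow_mul, Real.log_pow]
    push_cast
    ring
  have hl100 : Real.log 100 ≤ 7 * Real.log 2 := by
    have h1 : Real.log 100 ≤ Real.log (2 ^ 7) := Real.log_le_log (by norm_num) (by norm_num)
    rw [Real.log_pow] at h1
    push_cast at h1
    exact h1
  have hl100' : 6 * Real.log 2 ≤ Real.log 100 := by
    have h1 : Real.log (2 ^ 6) ≤ Real.log 100 := Real.log_le_log (by norm_num) (by norm_num)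
    rw [Real.log_pow] at h1
    push_cast at h1
    exact h1
  have hτ1 : 1 ≤ τ := by
    rw [hτ, hlog]
    nlinarith
  have hτ2 : τ ≤ 10 * (m + 1) := by
    rw [hτ, hlog]
    nlinarith
  obtain ⟨μ, hμ, hle⟩ := Mix_seq hm hQ hτ hτ1 MM hinv hMM (121 * (m + 1) ^ 2)
  refine ⟨μ, hμ, ?_⟩
  have hexp : (1 - 1 / (4 * τ)) ^ (121 * (m + 1) ^ 2) ≤ Real.exp (-(3 * (m + 1))) := by
    have h0 : 0 ≤ 1 - 1 / (4 * τ) := by
      have : 1 / (4 * τ) ≤ 1 := by
        rw [div_le_one (by linarith)]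
        linarith
      linarith
    have h1 : 1 - 1 / (4 * τ) ≤ Real.exp (-(1 / (4 * τ))) := by
      have := Real.add_one_le_exp (-(1 / (4 * τ)))
      linarith
    refine (pow_le_pow_left₀ h0 h1 _).trans ?_
    rw [← Real.exp_nat_mul]
    apply Real.exp_le_exp.mpr
    push_cast
    have h2 : 3 * ((m : ℝ) + 1) ≤ 121 * ((m : ℝ) + 1) ^ 2 * (1 / (4 * τ)) := by
      rw [mul_one_div, le_div_iff₀ (by linarith)]
      have h3 : 3 * ((m : ℝ) + 1) * (4 * τ) ≤ 3 * ((m : ℝ) + 1) * (4 * (10 * (m + 1))) := by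
        apply mul_le_mul_of_nonneg_left _ (by positivity)
        linarith
      nlinarith
    linarith
  have hexp2 : (4 : ℝ) * (2 ^ m) ^ 3 * Real.exp (-(3 * (m + 1))) ≤ 1 := by
    have h1 : (2 : ℝ) ≤ Real.exp 1 := by
      have := Real.add_one_le_exp (1 : ℝ)
      linarith
    have h2 : (2 : ℝ) ^ (3 * (m + 1)) ≤ Real.exp (3 * (m + 1)) := by
      refine (pow_le_pow_left₀ (by norm_num) h1 _).trans (le_of_eq ?_)
      rw [← Real.exp_nat_mul]
      push_cast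
      ring_nf
    have h3 : (4 : ℝ) * (2 ^ m) ^ 3 ≤ 2 ^ (3 * (m + 1)) := by
      have h4 : (2 : ℝ) ^ (3 * (m + 1)) = 8 * (2 ^ m) ^ 3 := by
        rw [Nat.mul_add, pow_add, ← pow_mul, mul_comm 3 m]
        norm_num
        ring
      rw [h4]
      have : (0 : ℝ) < (2 ^ m) ^ 3 := by positivity
      linarith
    rw [Real.exp_neg, ← div_eq_mul_inv, div_le_one (Real.exp_pos _)]
    exact h3.trans h2
  have hpsi : psi μ (121 * (m + 1) ^ 2) ≤ (1 / (2 * 2 ^ m)) ^ 2 := by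
    refine hle.trans ?_
    rw [hkr]
    have h1 : (2 : ℝ) ^ m * (1 - 1 / (4 * τ)) ^ (121 * (m + 1) ^ 2) ≤
        2 ^ m * Real.exp (-(3 * (m + 1))) := mul_le_mul_of_nonneg_left hexp (by positivity)
    refine h1.trans ?_
    have hk : (0 : ℝ) < 2 ^ m := by positivity
    have h2 : (1 / (2 * (2 : ℝ) ^ m)) ^ 2 = 1 / (4 * (2 ^ m) ^ 2) := by
      field_simp
      ring
    rw [h2, le_div_iff₀ (by positivity)]
    calc (2 : ℝ) ^ m * Real.exp (-(3 * (m + 1))) * (4 * (2 ^ m) ^ 2)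
        = 4 * (2 ^ m) ^ 3 * Real.exp (-(3 * (m + 1))) := by ring
      _ ≤ 1 := hexp2
  intro q z
  have h1 : (WM μ (121 * (m + 1) ^ 2) q z - 1 / (Fintype.card Q : ℝ)) ^ 2 ≤
      (1 / (2 * 2 ^ m)) ^ 2 := by
    refine le_trans ?_ hpsi
    unfold psi
    refine le_trans ?_ (Finset.single_le_sum (f := fun q => ∑ z, (WM μ (121 * (m + 1) ^ 2) q z -
      1 / (Fintype.card Q : ℝ)) ^ 2) (fun q _ => Finset.sum_nonneg (fun z _ => sq_nonneg _))
      (mem_univ q))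
    exact Finset.single_le_sum (f := fun z => (WM μ (121 * (m + 1) ^ 2) q z -
      1 / (Fintype.card Q : ℝ)) ^ 2) (fun z _ => sq_nonneg _) (mem_univ z)
  have h2 := abs_le_of_sq_le_sq' h1 (by positivity)
  rw [hkr] at h2
  have h3 : (1 : ℝ) / 2 ^ m = 2 * (1 / (2 * 2 ^ m)) := by
    field_simp
  have h4 : (3 : ℝ) / (2 * 2 ^ m) = 3 * (1 / (2 * 2 ^ m)) := by ring
  rw [h4]
  constructor
  · linarith [h2.1]
  · linarith [h2.2]

end Pool.Agent.MP_9cec2c_lc.SLT
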