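import Mathlib

/-!
TASK Union: independent choices and a union bound.

For every `f : F` choose `x f ∈ Ω f`; `h p f x` are events. Let `T = ∏_f |Ω f| > 0` be the number of choice
functions (`Fintype.piFinset Ω`). For a fixed pattern `p`:
`∑_x 2^(#{f | h p f (x f)}) = ∑_x ∏_f (if h p f (x f) then 2 else 1) = ∏_f (|Ω f| + #{y ∈ Ω f | h p f y})`
(`Finset.prod_univ_sum`), `= T ∏_f (1 + #{..}/|Ω f|) ≤ T exp (∑_f #{..}/|Ω f|) ≤ T exp μ₀`
(`Real.add_one_le_exp`). If for every `x` some `p` has more than `κ` hits, then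
`T 2^(κ+1) ≤ ∑_x ∑_p 2^(#..) ≤ |𝓟| T exp μ₀`, against `hκ`.
-/

set_option autoImplicit false

open Finset
open scoped Classical

namespace Pool.Agent.MP_9cec2c_lc.SLT

theorem exists_choice {F X P : Type} [Fintype F] [Fintype P] (Ω : F → Finset X)
    (hΩ : ∀ f, (Ω f).Nonempty) (h : P → F → X → Prop) {μ₀ : ℝ}
    (hμ : ∀ p, ∑ f, (((Ω f).filter fun y => h p f y).card : ℝ) / (Ω f).card ≤ μ₀) {κ : ℕ}
    (hκ : (Fintype.card P : ℝ) * Real.exp μ₀ < 2 ^ (κ + 1)) :
    ∃ x : F → X, (∀ f, x f ∈ Ω f) ∧ ∀ p, (univ.filter fun f => h p f (x f)).card ≤ κ := by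
  by_contra hcon
  push Not at hcon
  have hpos : ∀ f, (0 : ℝ) < (Ω f).card := fun f => by exact_mod_cast (hΩ f).card_pos
  have hT : (0 : ℝ) < ∏ f, ((Ω f).card : ℝ) := Finset.prod_pos fun f _ => hpos f
  have e1 : ∀ (p : P) (x : F → X), (2 : ℝ) ^ (univ.filter fun f => h p f (x f)).card =
      ∏ f, (if h p f (x f) then (2 : ℝ) else 1) := by
    intro p x
    rw [Finset.prod_ite, Finset.prod_const, Finset.prod_const_one, mul_one]
  have e3 : ∀ (p : P) (f : F), ∑ y ∈ Ω f, (if h p f y then (2 : ℝ) else 1) ≤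
      (Ω f).card * Real.exp ((((Ω f).filter fun y => h p f y).card : ℝ) / (Ω f).card) := by
    intro p f
    have h1 : ∑ y ∈ Ω f, (if h p f y then (2 : ℝ) else 1) =
        (Ω f).card + (((Ω f).filter fun y => h p f y).card : ℝ) := by
      have h2 : ∀ y, (if h p f y then (2 : ℝ) else 1) = 1 + if h p f y then (1 : ℝ) else 0 := by
        intro y
        split_ifs <;> norm_num
      rw [Finset.sum_congr rfl fun y _ => h2 y, Finset.sum_add_distrib, Finset.sum_const,
        Finset.sum_boole, nsmul_eq_mul, mul_one]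
    rw [h1]
    have h2 : ((Ω f).card : ℝ) + (((Ω f).filter fun y => h p f y).card : ℝ) =
        (Ω f).card * ((((Ω f).filter fun y => h p f y).card : ℝ) / (Ω f).card + 1) := by
      have := (hpos f).ne'
      field_simp
      ring
    rw [h2]
    exact mul_le_mul_of_nonneg_left (Real.add_one_le_exp _) (hpos f).le
  have e4 : ∀ p : P, ∑ x ∈ Fintype.piFinset Ω, (2 : ℝ) ^ (univ.filter fun f => h p f (x f)).card ≤
      (∏ f, ((Ω f).card : ℝ)) * Real.exp μ₀ := by
    intro p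
    rw [Finset.sum_congr rfl fun x _ => e1 p x,
      ← Finset.prod_univ_sum Ω fun f y => (if h p f y then (2 : ℝ) else 1)]
    calc ∏ f, ∑ y ∈ Ω f, (if h p f y then (2 : ℝ) else 1)
        ≤ ∏ f, (((Ω f).card : ℝ) *
          Real.exp ((((Ω f).filter fun y => h p f y).card : ℝ) / (Ω f).card)) := by
          refine Finset.prod_le_prod (fun f _ => ?_) (fun f _ => e3 p f)
          refine Finset.sum_nonneg fun y _ => ?_
          split_ifs <;> norm_num
      _ = (∏ f, ((Ω f).card : ℝ)) *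
          Real.exp (∑ f, (((Ω f).filter fun y => h p f y).card : ℝ) / (Ω f).card) := by
          rw [Finset.prod_mul_distrib, Real.exp_sum]
      _ ≤ _ := by
          refine mul_le_mul_of_nonneg_left (Real.exp_le_exp.2 (hμ p)) hT.le
  have e5 : (∏ f, ((Ω f).card : ℝ)) * 2 ^ (κ + 1) ≤
      ∑ x ∈ Fintype.piFinset Ω, ∑ p : P, (2 : ℝ) ^ (univ.filter fun f => h p f (x f)).card := by
    have h1 : (∏ f, ((Ω f).card : ℝ)) = ((Fintype.piFinset Ω).card : ℝ) := by
      rw [Fintype.card_piFinset]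
      push_cast
      rfl
    rw [h1, ← nsmul_eq_mul, ← Finset.sum_const]
    refine Finset.sum_le_sum fun x hx => ?_
    obtain ⟨p, hp⟩ := hcon x fun f => Fintype.mem_piFinset.1 hx f
    calc (2 : ℝ) ^ (κ + 1) ≤ (2 : ℝ) ^ (univ.filter fun f => h p f (x f)).card :=
          pow_le_pow_right₀ (by norm_num) hp
      _ ≤ _ := Finset.single_le_sum (f := fun p : P =>
          (2 : ℝ) ^ (univ.filter fun f => h p f (x f)).card)
          (fun p _ => by positivity) (Finset.mem_univ p)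
  rw [Finset.sum_comm] at e5
  have e6 : ∑ p : P, ∑ x ∈ Fintype.piFinset Ω,
      (2 : ℝ) ^ (univ.filter fun f => h p f (x f)).card ≤
      (Fintype.card P : ℝ) * ((∏ f, ((Ω f).card : ℝ)) * Real.exp μ₀) := by
    rw [← nsmul_eq_mul, Fintype.card, ← Finset.sum_const]
    exact Finset.sum_le_sum fun p _ => e4 p
  have e7 := e5.trans e6
  have e8 : (∏ f, ((Ω f).card : ℝ)) * ((Fintype.card P : ℝ) * Real.exp μ₀) <
      (∏ f, ((Ω f).card : ℝ)) * 2 ^ (κ + 1) := mul_lt_mul_of_pos_left hκ hT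
  have e9 : (Fintype.card P : ℝ) * ((∏ f, ((Ω f).card : ℝ)) * Real.exp μ₀) =
      (∏ f, ((Ω f).card : ℝ)) * ((Fintype.card P : ℝ) * Real.exp μ₀) := by ring
  rw [e9] at e7
  exact absurd e7 (not_le.2 e8)

end Pool.Agent.MP_9cec2c_lc.SLT
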