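import Pool.Agent.Lib.MP_9cec2c_lc.SLT.Match
import Pool.Agent.Lib.MP_9cec2c_lc.SLT.Mix
import Pool.Agent.Lib.MP_9cec2c_lc.SLT.Cond
import Pool.Agent.Lib.MP_9cec2c_lc.SLT.Union

/-!
TASK Routes: embedding of a bounded degree graph with small congestion.

`k = |Q| = 2^m`, `1 ≤ m`, `R = 121 (m+1)²`, `κ = R (m + 2 + 5 d)`.
`exists_mix` with `MM = {M.μ | M : Mat G φ}` (`exists_mat`): a sequence of matchings `M : ℕ → Mat G φ` (choose), with
`μ i = (M i).μ`, `P i = (M i).P`. `W = WM μ R`, `1/(2k) ≤ W ≤ 3/(2k)`.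
Patterns: `p : Fin R → Option Q`, `A p i = {u, μ i u}` if `i < R` and `p i = some u`, and `∅` otherwise, so
`|A p i| ≤ 2`. Pattern of the edge `e`: `p i = some u` for some `u` with `P i u e ≠ 0` if there is one, otherwise
`none`; then `P i q e ≠ 0 → q ∈ A p i` (`disj`). There are `(k+1)^R` patterns.
`exists_choice` with `F`, `X = pairs of strings`, `Ω f = Om μ R (H.src f) (H.dst f)` (nonempty by `om_card`),
`h p f x = Hit μ (A p) R (H.src f) x.1 ∨ Hit μ (A p) R (H.dst f) x.2`, `μ₀ = 3 d R`: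
`∑_f #{..}/|Ω f| ≤ ∑_f 3 (#{c | Hit .. (H.src f) c} + #{c | Hit .. (H.dst f) c}) / 2^R` (`om_fst`, `om_snd`)
`= 3 ∑_q (#{f | src f = q} + #{f | dst f = q}) #{c | Hit .. q c} / 2^R ≤ 3 d ∑_q #{c | Hit .. q c}/2^R ≤ 3 d R`
(`H.DegLE d`, `hit_sum`).
`hκ`: `(2^m + 1)^R exp (3 d R) < 2^(κ+1)`: `2^m + 1 ≤ 2^(m+1)`, `exp (3 d R) ≤ 2^(5 d R)` (`exp 3 ≤ 2^5`).
Routes: `r f = ch μ P R (H.src f) x.1 + ch μ P R (H.dst f) x.2` for `(x.1, x.2) = x f`: boundary by `ch_bd`
(the two ends agree). If `r f e ≠ 0` then one of the two chains is `≠ 0` at `e`, so `f` hits the pattern of `e`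
(`ch_hit`); at most `κ` such `f`.
-/

set_option autoImplicit false

open Finset
open scoped Classical

namespace Pool.Agent.MP_9cec2c_lc.SLT

open SL

variable {V E Q F : Type} [Fintype V] [Fintype E] [Fintype Q] [Fintype F]

/-- The sets of a pattern. -/
private noncomputable def Routes_A (μ : ℕ → Q → Q) (R : ℕ) (p : Fin R → Option Q) (i : ℕ) : Finset Q :=
  if h : i < R then (p ⟨i, h⟩).elim ∅ (fun u => {u, μ i u}) else ∅

/-- The pair of walks hits the pattern. -/
private def Routes_h (μ : ℕ → Q → Q) (R : ℕ) (H : MG Q F) (p : Fin R → Option Q) (f : F)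
    (x : (Fin R → Bool) × (Fin R → Bool)) : Prop :=
  Hit μ (Routes_A μ R p) R (H.src f) x.1 ∨ Hit μ (Routes_A μ R p) R (H.dst f) x.2

private theorem Routes_A_card (μ : ℕ → Q → Q) (R : ℕ) (p : Fin R → Option Q) (i : ℕ) :
    (Routes_A μ R p i).card ≤ 2 := by
  unfold Routes_A
  split_ifs with h
  · cases p ⟨i, h⟩ with
    | none => simp
    | some u => exact card_le_two
  · simp

/-- The pattern of an edge. -/
private noncomputable def Routes_pe (P : ℕ → Q → Cube E) (R : ℕ) (e : E) : Fin R → Option Q :=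
  fun i => if h : ∃ u, P i u e ≠ 0 then some h.choose else none

private theorem Routes_pe_mem (μ : ℕ → Q → Q) (P : ℕ → Q → Cube E) (R : ℕ) (e : E)
    (hd : ∀ i q q', P i q e ≠ 0 → P i q' e ≠ 0 → q' = q ∨ q' = μ i q) (i : ℕ) (hi : i < R)
    (q : Q) (hq : P i q e ≠ 0) : q ∈ Routes_A μ R (Routes_pe P R e) i := by
  have h : ∃ u, P i u e ≠ 0 := ⟨q, hq⟩
  have h1 : Routes_pe P R e ⟨i, hi⟩ = some h.choose := by
    unfold Routes_pe
    rw [dif_pos h]
  unfold Routes_A
  rw [dif_pos hi, h1]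
  change q ∈ ({h.choose, μ i h.choose} : Finset Q)
  rcases hd i h.choose q h.choose_spec hq with h2 | h2
  · rw [mem_insert]; exact Or.inl h2
  · rw [mem_insert, mem_singleton]; exact Or.inr h2

private theorem Routes_deg (g : F → Q) (N : Q → ℝ) :
    ∑ f, N (g f) = ∑ q, ((univ.filter fun f => g f = q).card : ℝ) * N q := by
  rw [← sum_fiberwise univ g (fun f => N (g f))]
  refine sum_congr rfl fun q _ => ?_
  rw [← nsmul_eq_mul, ← sum_const]
  refine sum_congr rfl fun f hf => ?_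
  rw [(mem_filter.1 hf).2]

private theorem Routes_pt (a : V) : pt a + pt a = 0 := by
  funext v
  exact CharTwo.add_self_eq_zero _

private theorem Routes_num (m d R : ℕ) :
    ((2 : ℝ) ^ m + 1) ^ R * Real.exp (3 * d * R) < 2 ^ (R * (m + 2 + 5 * d) + 1) := by
  have h1 : (2 : ℝ) ^ m + 1 ≤ 2 ^ (m + 1) := by
    have := one_le_pow₀ (one_le_two (α := ℝ)) (n := m)
    rw [pow_succ]; linarith
  have h2 : ((2 : ℝ) ^ m + 1) ^ R ≤ 2 ^ ((m + 1) * R) := by
    rw [pow_mul]
    exact pow_le_pow_left₀ (by positivity) h1 R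
  have h3 : Real.exp 3 ≤ 2 ^ 5 := by
    have h4 : Real.exp 3 = Real.exp 1 ^ 3 := by rw [← Real.exp_nat_mul]; norm_num
    have h5 : Real.exp 1 ≤ 3 := by have := Real.exp_one_lt_d9; linarith
    rw [h4]
    calc Real.exp 1 ^ 3 ≤ 3 ^ 3 := pow_le_pow_left₀ (Real.exp_pos 1).le h5 3
      _ ≤ 2 ^ 5 := by norm_num
  have h6 : Real.exp (3 * d * R) ≤ 2 ^ (5 * (d * R)) := by
    have : (3 : ℝ) * d * R = ((d * R : ℕ) : ℝ) * 3 := by push_cast; ring
    rw [this, Real.exp_nat_mul, pow_mul 2 5]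
    exact pow_le_pow_left₀ (Real.exp_pos 3).le h3 _
  calc ((2 : ℝ) ^ m + 1) ^ R * Real.exp (3 * d * R)
      ≤ 2 ^ ((m + 1) * R) * 2 ^ (5 * (d * R)) :=
        mul_le_mul h2 h6 (Real.exp_pos _).le (by positivity)
    _ = 2 ^ ((m + 1) * R + 5 * (d * R)) := (pow_add _ _ _).symm
    _ < 2 ^ (R * (m + 2 + 5 * d) + 1) := by
        refine pow_lt_pow_right₀ one_lt_two ?_
        have : R * (m + 2 + 5 * d) = (m + 1) * R + 5 * (d * R) + R := by ring
        omega

theorem exists_emb (G : MG V E) {φ : Q → V} (hφ : Function.Injective φ) (hW : WLk G φ)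
    (H : MG Q F) {d : ℕ} (hH : H.DegLE d) {m : ℕ} (hm : 1 ≤ m) (hQ : Fintype.card Q = 2 ^ m) :
    ∃ ψ : Emb G H, ψ.c = φ ∧
      ∀ e, (univ.filter fun f => ψ.r f e ≠ 0).card ≤ 121 * (m + 1) ^ 2 * (m + 2 + 5 * d) := by
  have hne : Nonempty Q := Fintype.card_pos_iff.1 (by rw [hQ]; positivity)
  obtain ⟨μ, hμ, hWM⟩ := exists_mix hm hQ {μ | ∃ M : Mat G φ, M.μ = μ}
    (by rintro _ ⟨M, rfl⟩ q; exact M.inv q)
    (fun A hA => by
      obtain ⟨M, hM⟩ := exists_mat G hφ hW A hA
      exact ⟨M.μ, ⟨M, rfl⟩, hM⟩)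
  choose M hM using hμ
  obtain ⟨P, hP⟩ : ∃ P : ℕ → Q → Cube E, P = fun i => (M i).P := ⟨_, rfl⟩
  have hbd : ∀ i q, G.bd (P i q) = pt (φ q) + pt (φ (μ i q)) := by
    intro i q
    rw [hP, ← hM i]
    exact (M i).bd_P q
  have hdj : ∀ e i q q', P i q e ≠ 0 → P i q' e ≠ 0 → q' = q ∨ q' = μ i q := by
    intro e i q q' h1 h2
    rw [hP] at h1 h2
    rw [← hM i]
    exact (M i).disj e q q' h1 h2
  have hinv : ∀ i q, μ i (μ i q) = q := by
    intro i q
    rw [← hM i]
    exact (M i).inv q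
  obtain ⟨R, hR⟩ : ∃ R, R = 121 * (m + 1) ^ 2 := ⟨_, rfl⟩
  rw [← hR] at hWM ⊢
  have hk : (2 : ℝ) ^ m = (Fintype.card Q : ℝ) := by rw [hQ]; push_cast; rfl
  have h1 : ∀ q z, 1 / (2 * (Fintype.card Q : ℝ)) ≤ WM μ R q z := by
    intro q z
    rw [← hk]
    exact (hWM q z).1
  have h2 : ∀ q z, WM μ R q z ≤ 3 / (2 * (Fintype.card Q : ℝ)) := by
    intro q z
    rw [← hk]
    exact (hWM q z).2
  have hOm : ∀ f, 0 < ((Om μ R (H.src f) (H.dst f)).card : ℝ) := by
    intro f
    refine lt_of_lt_of_le ?_ (om_card μ R h1 (H.src f) (H.dst f))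
    rw [← hk]
    positivity
  obtain ⟨x, hx1, hx2⟩ := exists_choice (F := F) (X := (Fin R → Bool) × (Fin R → Bool))
    (P := Fin R → Option Q) (fun f => Om μ R (H.src f) (H.dst f))
    (fun f => card_pos.1 (by exact_mod_cast hOm f))
    (fun p f x => Routes_h μ R H p f x)
    (μ₀ := 3 * d * R) (by
      intro p
      obtain ⟨N, hN⟩ : ∃ N : Q → ℝ, N = fun q =>
        ((univ.filter fun c : Fin R → Bool => Hit μ (Routes_A μ R p) R q c).card : ℝ) := ⟨_, rfl⟩
      have hN0 : ∀ q, 0 ≤ N q := fun q => by rw [hN]; positivity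
      have h2R : (0 : ℝ) < 2 ^ R := by positivity
      have hsum : ∑ q, N q ≤ 2 ^ R * R := by
        have := hit_sum μ hinv (Routes_A μ R p) R (fun i _ => Routes_A_card μ R p i)
        simp only [hN]
        exact_mod_cast this
      have hf : ∀ f, (((Om μ R (H.src f) (H.dst f)).filter fun y =>
          Routes_h μ R H p f y).card : ℝ) /
          (Om μ R (H.src f) (H.dst f)).card ≤ 3 * (N (H.src f) + N (H.dst f)) / 2 ^ R := by
        intro f
        have a1 := om_fst μ R h1 h2 (H.src f) (H.dst f)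
          (fun c => Hit μ (Routes_A μ R p) R (H.src f) c)
        have a2 := om_snd μ R h1 h2 (H.src f) (H.dst f)
          (fun c => Hit μ (Routes_A μ R p) R (H.dst f) c)
        have a3 : (((Om μ R (H.src f) (H.dst f)).filter fun y =>
            Routes_h μ R H p f y).card : ℝ) ≤
            ((Om μ R (H.src f) (H.dst f)).filter fun y =>
              Hit μ (Routes_A μ R p) R (H.src f) y.1).card +
            ((Om μ R (H.src f) (H.dst f)).filter fun y =>
              Hit μ (Routes_A μ R p) R (H.dst f) y.2).card := by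
          have a5 : ((Om μ R (H.src f) (H.dst f)).filter fun y => Routes_h μ R H p f y) ⊆
              ((Om μ R (H.src f) (H.dst f)).filter fun y =>
                Hit μ (Routes_A μ R p) R (H.src f) y.1) ∪
              ((Om μ R (H.src f) (H.dst f)).filter fun y =>
                Hit μ (Routes_A μ R p) R (H.dst f) y.2) := by
            intro y hy
            rw [mem_filter] at hy
            rw [mem_union, mem_filter, mem_filter]
            rcases hy.2 with hy2 | hy2
            · exact Or.inl ⟨hy.1, hy2⟩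
            · exact Or.inr ⟨hy.1, hy2⟩
          exact_mod_cast (card_le_card a5).trans (card_union_le _ _)
        have hN1 : N (H.src f) = ((univ.filter fun c : Fin R → Bool =>
          Hit μ (Routes_A μ R p) R (H.src f) c).card : ℝ) := by rw [hN]
        have hN2 : N (H.dst f) = ((univ.filter fun c : Fin R → Bool =>
          Hit μ (Routes_A μ R p) R (H.dst f) c).card : ℝ) := by rw [hN]
        rw [← hN1] at a1
        rw [← hN2] at a2
        rw [div_le_div_iff₀ (hOm f) h2R]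
        have a4 := mul_le_mul_of_nonneg_right a3 h2R.le
        rw [add_mul] at a4
        refine a4.trans ((add_le_add a1 a2).trans (le_of_eq ?_))
        ring
      have hdeg : ∑ f, (N (H.src f) + N (H.dst f)) ≤ d * ∑ q, N q := by
        rw [sum_add_distrib, Routes_deg, Routes_deg, ← sum_add_distrib, mul_sum]
        refine sum_le_sum fun q _ => ?_
        rw [← add_mul]
        refine mul_le_mul_of_nonneg_right ?_ (hN0 q)
        exact_mod_cast hH q
      calc ∑ f, (((Om μ R (H.src f) (H.dst f)).filter fun y =>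
          Routes_h μ R H p f y).card : ℝ) /
          (Om μ R (H.src f) (H.dst f)).card
          ≤ ∑ f, 3 * (N (H.src f) + N (H.dst f)) / 2 ^ R := sum_le_sum fun f _ => hf f
        _ = 3 / 2 ^ R * ∑ f, (N (H.src f) + N (H.dst f)) := by
            rw [mul_sum]
            exact sum_congr rfl fun f _ => by ring
        _ ≤ 3 / 2 ^ R * (d * (2 ^ R * R)) :=
            mul_le_mul_of_nonneg_left
              (hdeg.trans (mul_le_mul_of_nonneg_left hsum (Nat.cast_nonneg d))) (by positivity)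
        _ = 3 * d * R := by field_simp)
    (κ := R * (m + 2 + 5 * d)) (by
      have hc : (Fintype.card (Fin R → Option Q) : ℝ) = ((2 : ℝ) ^ m + 1) ^ R := by
        rw [Fintype.card_fun, Fintype.card_fin, Fintype.card_option, hQ]
        push_cast
        rfl
      rw [hc]
      exact Routes_num m d R)
  have hr : ∀ f, G.bd (ch μ P R (H.src f) (x f).1 + ch μ P R (H.dst f) (x f).2) =
      pt (φ (H.src f)) + pt (φ (H.dst f)) := by
    intro f
    have he : en μ R (H.src f) (x f).1 = en μ R (H.dst f) (x f).2 := by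
      have := hx1 f
      unfold Om at this
      exact (mem_filter.1 this).2
    rw [bd_add, ch_bd G φ μ P hbd, ch_bd G φ μ P hbd, he]
    have hp := Routes_pt (φ (en μ R (H.dst f) (x f).2))
    calc _ = pt (φ (H.src f)) + pt (φ (H.dst f)) +
        (pt (φ (en μ R (H.dst f) (x f).2)) + pt (φ (en μ R (H.dst f) (x f).2))) := by abel
      _ = _ := by rw [hp, add_zero]
  refine ⟨⟨φ, fun f => ch μ P R (H.src f) (x f).1 + ch μ P R (H.dst f) (x f).2, hφ, hr⟩, rfl, ?_⟩
  intro e
  refine (card_le_card ?_).trans (hx2 (Routes_pe P R e))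
  intro f hf
  rw [mem_filter] at hf ⊢
  refine ⟨mem_univ _, ?_⟩
  have hmem := Routes_pe_mem μ P R e (hdj e)
  change Hit μ (Routes_A μ R (Routes_pe P R e)) R (H.src f) (x f).1 ∨
    Hit μ (Routes_A μ R (Routes_pe P R e)) R (H.dst f) (x f).2
  by_contra hcon
  rw [not_or] at hcon
  refine hf.2 ?_
  have b1 : ch μ P R (H.src f) (x f).1 e = 0 := by
    by_contra hb
    exact hcon.1 (ch_hit μ P e _ R _ _ hmem hb)
  have b2 : ch μ P R (H.dst f) (x f).2 e = 0 := by
    by_contra hb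
    exact hcon.2 (ch_hit μ P e _ R _ _ hmem hb)
  change ch μ P R (H.src f) (x f).1 e + ch μ P R (H.dst f) (x f).2 e = 0
  rw [b1, b2, add_zero]

end Pool.Agent.MP_9cec2c_lc.SLT
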