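import Pool.Agent.Lib.MP_9cec2c_lc.SL.Gr

/-!
TASK Par: balanced parity formulas.

`exists_par`: by induction on `h`: for every finite set `T` with at most `2^h` elements there is a formula `A`
of size at most `4^h` whose value is the parity of the number of `f ∈ T` with `y f = true`. `h = 0`: `ff` or
`var f`. Step: split `T` into two disjoint sets with at most `2^h` elements each (`Finset.exists_subset_card_eq`
or so) and take `(A ∧ ¬B) ∨ (¬A ∧ B)`, of size `2 (|A| + |B|) ≤ 4^(h+1)`.
`exists_par'`: if `|T| ≤ κ`, `1 ≤ κ`: take the least `h` with `κ ≤ 2^h`; `2^h ≤ 2 κ`, so `4^h ≤ 4 κ²`; and the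
negation if `a = 1` (the size does not change).
-/

set_option autoImplicit false

open Finset
open scoped Classical

namespace Pool.Agent.MP_9cec2c_lc.SLT

open SL

variable {F : Type}

/-- A Boolean as an element of `Z/2`. -/
def bz (a : Bool) : ZMod 2 := if a = true then 1 else 0

private theorem Par_xor (a b : Bool) : bz ((a && !b) || (!a && b)) = bz a + bz b := by
  cases a <;> cases b <;> decide

private theorem Par_not (a : Bool) : bz (!a) = 1 + bz a := by
  cases a <;> decide

theorem exists_par (h : ℕ) (T : Finset F) (hT : T.card ≤ 2 ^ h) : ∃ A : Form F, A.size ≤ 4 ^ h ∧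
    ∀ y : F → Bool, bz (A.eval y) = ∑ f ∈ T, bz (y f) := by
  induction h generalizing T with
  | zero =>
    rw [pow_zero] at hT
    rcases T.eq_empty_or_nonempty with hE | hE
    · refine ⟨Form.ff, by simp [Form.size], fun y => ?_⟩
      rw [hE, sum_empty]; rfl
    · obtain ⟨f, hf⟩ := card_eq_one.mp (le_antisymm hT (card_pos.mpr hE))
      refine ⟨Form.var f, by simp [Form.size], fun y => ?_⟩
      rw [hf, sum_singleton]; rfl
  | succ h ih =>
    by_cases hc : T.card ≤ 2 ^ h
    · obtain ⟨A, hA, hB⟩ := ih T hc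
      exact ⟨A, hA.trans (Nat.pow_le_pow_right (by norm_num) (Nat.le_succ h)), hB⟩
    · obtain ⟨U, hU, hUc⟩ := exists_subset_card_eq (le_of_not_ge hc)
      obtain ⟨A, hA, hA2⟩ := ih U hUc.le
      obtain ⟨B, hB, hB2⟩ := ih (T \ U) (by
        rw [card_sdiff_of_subset hU, hUc]
        rw [pow_succ] at hT
        omega)
      refine ⟨Form.or (Form.and A (Form.neg B)) (Form.and (Form.neg A) B), ?_, fun y => ?_⟩
      · simp only [Form.size]
        rw [pow_succ]
        omega
      · simp only [Form.eval]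
        rw [Par_xor, hA2 y, hB2 y, add_comm]
        exact sum_sdiff hU

theorem exists_par' {κ : ℕ} (hκ : 1 ≤ κ) (T : Finset F) (hT : T.card ≤ κ) (a : ZMod 2) :
    ∃ A : Form F, A.size ≤ 4 * κ ^ 2 ∧
      ∀ y : F → Bool, bz (A.eval y) = a + ∑ f ∈ T, bz (y f) := by
  have h1 : κ ≤ 2 ^ Nat.clog 2 κ := Nat.le_pow_clog (by norm_num) κ
  have h2 : 2 ^ Nat.clog 2 κ ≤ 2 * κ := by
    rcases Nat.lt_or_ge 1 κ with h | h
    · have h3 := Nat.pow_pred_clog_lt_self (b := 2) (by norm_num) h
      have h4 : 0 < Nat.clog 2 κ := Nat.clog_pos (by norm_num) h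
      have h5 : 2 ^ Nat.clog 2 κ = 2 ^ (Nat.clog 2 κ).pred * 2 := by
        have h6 : (Nat.clog 2 κ).pred + 1 = Nat.clog 2 κ := Nat.succ_pred_eq_of_pos h4
        rw [← pow_succ, h6]
      omega
    · have : κ = 1 := le_antisymm h hκ
      subst this
      norm_num
  obtain ⟨A, hA, hA2⟩ := exists_par (Nat.clog 2 κ) T (hT.trans h1)
  have hs : A.size ≤ 4 * κ ^ 2 := by
    have h3 : (4 : ℕ) ^ Nat.clog 2 κ = (2 ^ Nat.clog 2 κ) ^ 2 := by
      rw [← pow_mul, mul_comm, pow_mul]; norm_num
    have h4 : (2 ^ Nat.clog 2 κ) ^ 2 ≤ (2 * κ) ^ 2 := Nat.pow_le_pow_left h2 2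
    nlinarith
  have ha : a = 0 ∨ a = 1 := by
    revert a; decide
  rcases ha with rfl | rfl
  · exact ⟨A, hs, fun y => by rw [hA2 y, zero_add]⟩
  · exact ⟨Form.neg A, hs, fun y => by rw [← hA2 y]; exact Par_not _⟩

end Pool.Agent.MP_9cec2c_lc.SLT
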