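import Pool.Agent.Lib.MP_9cec2c_lc.SL.HypNull
import Pool.Agent.Lib.MP_9cec2c_lc.SLT.Def

/-!
Campaign SLT (helper84): hypotheses of one vertex. `HypV b G γ` = the formulas of size at most `b` which
are implied by the constraint of one vertex.
-/

set_option autoImplicit false

open Finset
open scoped Classical

namespace Pool.Agent.MP_9cec2c_lc.SLT

open SL

variable {V E : Type} [Fintype V] [Fintype E]

/-- A point of the cube from a truth assignment. -/
def cz (y : E → Bool) : Cube E := fun e => if y e = true then 1 else 0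

/-- The formulas of size at most `b` which are implied by the constraint of one vertex. -/
def HypV (b : ℕ) (G : MG V E) (γ : Cube V) : Set (Form E) :=
  {φ | φ.size ≤ b ∧ ∃ v, ∀ y : E → Bool, G.bd (cz y) v = γ v → φ.eval y = true}

omit [Fintype E] in
theorem cz_decide (x : Cube E) : cz (fun e => decide (x e ≠ 0)) = x := by
  funext e
  have key : ∀ a : ZMod 2, (if decide (a ≠ 0) = true then (1 : ZMod 2) else 0) = a := by decide
  have := key (x e)
  unfold cz
  convert this

theorem dot_cob_pt (G : MG V E) (v : V) (x : Cube E) : dot (G.cob (pt v)) x = G.bd x v := by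
  rw [G.dot_bd, dot_pt]

private theorem VHyp_zmod : ∀ a : ZMod 2, a = 0 ∨ a = 1 := by decide

private theorem VHyp_sg : ∀ {a b : ZMod 2}, a ≠ b → sg a = -sg b := by
  intro a b h
  unfold sg
  rcases VHyp_zmod a with rfl | rfl <;> rcases VHyp_zmod b with rfl | rfl <;> simp at h ⊢

theorem hypv_null (G : MG V E) (hG : G.Expands) {Δ : ℕ} (hΔ : G.DegLE Δ) (γ : Cube V) {b : ℕ}
    (hn : 2 < Fintype.card V) (hD : 8 * (3 * Δ + 2 * b) < Fintype.card V) {φ : Form E}
    (hφ : φ ∈ HypV b G γ) : G.nrm γ (1 - fn φ) = 0 := by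
  obtain ⟨hsize, v, himp⟩ := hφ
  let z : Cube E → ℝ := chi (G.cob (pt v)) - sg (γ v) • (1 : Cube E → ℝ)
  have hzmem : z ∈ Fd E Δ :=
    Submodule.sub_mem _ (chi_mem (G.wt_cob_pt hΔ v)) (Submodule.smul_mem _ _ (one_mem_Fd _))
  have hV : 0 < Fintype.card V := by omega
  have hzz : z * z = (2 : ℝ) • (1 : Cube E → ℝ) - (2 * sg (γ v)) • chi (G.cob (pt v)) := by
    have h1 := chi_mul_self (G.cob (pt v))
    have h2 := sg_mul_self (γ v)
    funext x
    have h3 := congrFun h1 x
    simp only [z, Pi.mul_apply, Pi.sub_apply, Pi.smul_apply, Pi.one_apply, smul_eq_mul,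
      mul_one] at h3 ⊢
    linear_combination h3 + h2
  have hz0 : G.nrm γ z = 0 := by
    unfold MG.nrm
    rw [hzz, map_sub, map_smul, map_smul, G.Ex_one hG γ hV, G.Ex_chi,
      G.e_cob hG γ (pt v) (by rw [wt_pt]; omega), dot_comm, dot_pt, smul_eq_mul, smul_eq_mul,
      mul_assoc, sg_mul_self, mul_one, sub_self, Real.sqrt_zero]
  have hfac : 1 - fn φ = z * ((-(sg (γ v) / 2)) • (1 - fn φ)) := by
    funext x
    simp only [Pi.mul_apply, Pi.smul_apply, smul_eq_mul]
    by_cases hx : G.bd x v = γ v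
    · have h2 : φ.eval (fun e => decide (x e ≠ 0)) = true := by
        refine himp _ ?_
        rw [cz_decide]
        exact hx
      have h3 : (1 - fn φ) x = 0 := by
        rw [Pi.sub_apply, Pi.one_apply]
        unfold fn
        rw [h2]
        unfold ind
        simp
      rw [h3, mul_zero, mul_zero]
    · have h1 : chi (G.cob (pt v)) x = -sg (γ v) := by
        unfold chi
        rw [dot_cob_pt]
        exact VHyp_sg hx
      have h2 : z x = -sg (γ v) - sg (γ v) * 1 := by
        change chi (G.cob (pt v)) x - sg (γ v) * 1 = _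
        rw [h1]
      have h3 := sg_mul_self (γ v)
      rw [h2]
      linear_combination (-(1 - fn φ) x) * h3
  have hfin := (G.world hG γ (3 * Δ + 2 * b) hD).N_mul_null (a := Δ) (b := b) (z := z)
    (f := (-(sg (γ v) / 2)) • (1 - fn φ)) hzmem
    (Submodule.smul_mem _ _ (Submodule.sub_mem _ (one_mem_Fd _) (Fd_mono hsize (MG.fn_mem φ))))
    (by change Δ + 2 * b ≤ 3 * Δ + 2 * b; omega) hz0
  rw [← hfac] at hfin
  exact hfin

end Pool.Agent.MP_9cec2c_lc.SLT
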