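import Pool.Agent.Lib.MP_9cec2c_lc.SL.Gm
import Pool.Agent.Lib.MP_9cec2c_lc.SLT.Conn
import Pool.Agent.Lib.MP_9cec2c_lc.SLT.Par
import Pool.Agent.Lib.MP_9cec2c_lc.SLT.Bind
import Pool.Agent.Lib.MP_9cec2c_lc.SLT.VHyp

/-!
TASK Sub: the substitution. `H` embedded in `G` with congestion `κ`.

`q₀ : Q`, `γ' = pt q₀`. `exists_bd` for the charges `γ + pt (ψ.c q₀)` (sum `1 + 1 = 0`): `x₀` with
`G.bd x₀ = γ + pt (ψ.c q₀)`. For every edge `e` of `G`: `X e` from `exists_par'` for `T = {f | ψ.r f e ≠ 0}`, `a = x₀ e`: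
`bz ((X e).eval y) = x₀ e + ∑_f∈T bz (y f)`.
Let `y : F → Bool`, `x e = (X e).eval y`. Then `cz x = x₀ + ∑_f bz (y f) • ψ.r f` (at `e`: `ψ.r f e` is 0 or 1), so
`G.bd (cz x) = γ + pt (ψ.c q₀) + ∑_f bz (y f) • (pt (c (src f)) + pt (c (dst f)))` (`bd_add`, `ψ.bd_r`).
* at `v = ψ.c q` this is `γ v + γ' q + H.bd (cz y) q` (`ψ.inj`), so it is `γ v` if `H.bd (cz y) q = γ' q`;
* at `v` not of the form `ψ.c q` it is `γ v`.
A clause `C ∈ G.vclauses γ v` holds at `x` if `G.bd (cz x) v = γ v`: `C` belongs to `T ⊆ inc v` with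
`|T| ≠ γ v`; `G.bd (cz x) v = ∑_{e ∈ inc v} cz x e`, so the set of the true edges at `v` is not `T`.
So for `φ ∈ Hyp b (G.tseitin γ)`, implied by a clause of the vertex `v`: `bind X φ` has size `≤ b · 4 κ²`
(`bind_size`), and (`bind_eval`) it is implied by the constraint of `q` if `v = ψ.c q`, and is always true (so
implied by the constraint of `q₀`) otherwise.
-/

set_option autoImplicit false

open Finset
open scoped Classical

namespace Pool.Agent.MP_9cec2c_lc.SLT

open SL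

variable {V E Q F : Type} [Fintype V] [Fintype E] [Fintype Q] [Fintype F]

omit [Fintype V] in
private theorem Sub_bd_inc (G : MG V E) (z : Cube E) (v : V) : G.bd z v = ∑ e ∈ G.inc v, z e := by
  unfold MG.bd MG.inc
  rw [sum_filter]
  refine sum_congr rfl fun e _ => ?_
  by_cases h1 : G.src e = v <;> by_cases h2 : G.dst e = v
  · rw [if_pos h1, if_pos h2, if_neg (by simp [h1, h2])]
    exact CharTwo.add_self_eq_zero _
  · rw [if_pos h1, if_neg h2, if_pos (by simp [h1, h2]), add_zero]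
  · rw [if_neg h1, if_pos h2, if_pos (by simp [h1, h2]), zero_add]
  · rw [if_neg h1, if_neg h2, if_neg (by simp [h1, h2]), add_zero]

/-- The clauses of a vertex hold if its constraint holds. -/
theorem clause_of_bd (G : MG V E) (γ : Cube V) (v : V) (x : E → Bool) (h : G.bd (cz x) v = γ v) :
    ∀ C ∈ G.vclauses γ v, ∃ l ∈ C, x l.1 = l.2 := by
  intro C hC
  unfold MG.vclauses at hC
  rw [List.mem_map] at hC
  obtain ⟨T, hT, rfl⟩ := hC
  rw [mem_toList, mem_filter, mem_powerset] at hT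
  obtain ⟨hTs, hTc⟩ := hT
  by_contra hcon
  push Not at hcon
  apply hTc
  rw [← h, Sub_bd_inc]
  have h1 : ∀ e ∈ G.inc v, cz x e = if e ∈ T then 1 else 0 := by
    intro e he
    have h2 := hcon (e, decide (e ∉ T)) (List.mem_map.2 ⟨e, mem_toList.2 he, rfl⟩)
    simp only at h2
    unfold cz
    by_cases h3 : e ∈ T
    · have h4 : decide (e ∉ T) = false := by simp [h3]
      rw [h4] at h2
      have h5 : x e = true := by
        cases h6 : x e
        · exact absurd h6 h2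
        · rfl
      rw [if_pos h5, if_pos h3]
    · have h4 : decide (e ∉ T) = true := by simp [h3]
      rw [h4] at h2
      rw [if_neg h2, if_neg h3]
  rw [sum_congr rfl h1, ← sum_filter, filter_mem_eq_inter, inter_eq_right.2 hTs, sum_const,
    nsmul_eq_mul, mul_one]

private theorem Sub_bd_sum (G : MG V E) (a : F → ZMod 2) (r : F → Cube E) (w : V) :
    G.bd (fun e => ∑ f, a f * r f e) w = ∑ f, a f * G.bd (r f) w := by
  rw [Sub_bd_inc, sum_comm]
  refine sum_congr rfl fun f _ => ?_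
  rw [Sub_bd_inc, mul_sum]

private theorem Sub_z2 : ∀ a : ZMod 2, a ≠ 0 → a = 1 := by decide

private theorem Sub_pt_self (v : V) : ∑ w, pt v w = 1 := by
  unfold pt
  simp

theorem exists_subst [Nonempty Q] (G : MG V E) (hG : ConnG G) (γ : Cube V) (hγ : ∑ v, γ v = 1)
    (H : MG Q F) (ψ : Emb G H) {κ : ℕ} (hκ : 1 ≤ κ)
    (hψ : ∀ e, (univ.filter fun f => ψ.r f e ≠ 0).card ≤ κ) :
    ∃ (γ' : Cube Q) (X : E → Form F), (∀ e, (X e).size ≤ 4 * κ ^ 2) ∧
      ∀ b, ∀ φ ∈ Hyp b (G.tseitin γ), bind X φ ∈ HypV (b * (4 * κ ^ 2)) H γ' := by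
  obtain ⟨q₀⟩ := (inferInstance : Nonempty Q)
  obtain ⟨x₀, hx₀⟩ := exists_bd G hG (γ + pt (ψ.c q₀)) (by
    simp only [Pi.add_apply, sum_add_distrib]
    rw [hγ, Sub_pt_self]
    decide)
  choose X hX1 hX2 using fun e => exists_par' hκ (univ.filter fun f => ψ.r f e ≠ 0) (hψ e) (x₀ e)
  have hcz : ∀ y : F → Bool, cz (fun e => (X e).eval y) =
      x₀ + fun e => ∑ f, bz (y f) * ψ.r f e := by
    intro y
    funext e
    have h1 : cz (fun e => (X e).eval y) e = bz ((X e).eval y) := rfl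
    rw [h1, hX2, Pi.add_apply, sum_filter]
    congr 1
    refine sum_congr rfl fun f _ => ?_
    by_cases h2 : ψ.r f e = 0
    · rw [if_neg (fun h => h h2), h2, mul_zero]
    · rw [if_pos h2, Sub_z2 _ h2, mul_one]
  have hbd : ∀ (y : F → Bool) (w : V), G.bd (cz (fun e => (X e).eval y)) w =
      γ w + pt (ψ.c q₀) w +
        ∑ f, bz (y f) * (pt (ψ.c (H.src f)) w + pt (ψ.c (H.dst f)) w) := by
    intro y w
    rw [hcz, bd_add, Pi.add_apply, hx₀, Pi.add_apply, Sub_bd_sum]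
    congr 1
    refine sum_congr rfl fun f _ => ?_
    rw [ψ.bd_r, Pi.add_apply]
  have hpt : ∀ q q' : Q, pt (ψ.c q) (ψ.c q') = pt q q' := by
    intro q q'
    unfold pt
    by_cases h : q' = q
    · rw [if_pos h, if_pos (by rw [h])]
    · rw [if_neg h, if_neg (fun h' => h (ψ.inj h'))]
  have hq : ∀ (y : F → Bool) (q : Q), G.bd (cz (fun e => (X e).eval y)) (ψ.c q) =
      γ (ψ.c q) + pt q₀ q + H.bd (cz y) q := by
    intro y q
    rw [hbd, hpt]
    congr 1
    unfold MG.bd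
    refine sum_congr rfl fun f _ => ?_
    rw [hpt, hpt, mul_add]
    have h1 : bz (y f) = cz y f := rfl
    rw [h1]
    unfold pt
    congr 1
    · by_cases h : H.src f = q
      · rw [if_pos h, if_pos h.symm, mul_one]
      · rw [if_neg h, if_neg (fun h' => h h'.symm), mul_zero]
    · by_cases h : H.dst f = q
      · rw [if_pos h, if_pos h.symm, mul_one]
      · rw [if_neg h, if_neg (fun h' => h h'.symm), mul_zero]
  have hout : ∀ (y : F → Bool) (v : V), (∀ q, ψ.c q ≠ v) →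
      G.bd (cz (fun e => (X e).eval y)) v = γ v := by
    intro y v hv
    rw [hbd]
    have h1 : ∀ q, pt (ψ.c q) v = 0 := by
      intro q
      unfold pt
      exact if_neg (fun h => hv q h.symm)
    simp only [h1, add_zero, mul_zero, sum_const_zero]
  refine ⟨pt q₀, X, hX1, ?_⟩
  intro b φ hφ
  obtain ⟨hsz, C, hC, himp⟩ := hφ
  unfold MG.tseitin at hC
  rw [List.mem_flatMap] at hC
  obtain ⟨v, -, hCv⟩ := hC
  have hK : 1 ≤ 4 * κ ^ 2 := by
    have : 1 ≤ κ ^ 2 := Nat.one_le_pow _ _ hκ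
    omega
  refine ⟨(bind_size hK hX1 φ).trans (Nat.mul_le_mul_right _ hsz), ?_⟩
  by_cases hv : ∃ q, ψ.c q = v
  · obtain ⟨q, rfl⟩ := hv
    refine ⟨q, fun y hy => ?_⟩
    rw [bind_eval]
    refine himp _ (clause_of_bd G γ (ψ.c q) (fun e => (X e).eval y) ?_ C hCv)
    rw [hq, hy, add_assoc, CharTwo.add_self_eq_zero, add_zero]
  · push Not at hv
    refine ⟨q₀, fun y _ => ?_⟩
    rw [bind_eval]
    exact himp _ (clause_of_bd G γ v (fun e => (X e).eval y) (hout y v hv) C hCv)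

end Pool.Agent.MP_9cec2c_lc.SLT
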