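import Pool.Agent.Lib.MP_9cec2c_lc.SLT.VNum
import Pool.Agent.Lib.MP_9cec2c_lc.SLT.VCore

/-!
Campaign SLT: the lower bound for the graphs `G_m`, where the hypotheses are the formulas of size at most
`b ≤ B (m + 1)^6` which are implied by the constraint of one vertex.
-/

set_option autoImplicit false

open Finset
open scoped Classical

namespace Pool.Agent.MP_9cec2c_lc.SLT

open SL

private theorem VLow_hyp_mono {X Y : Type} [Fintype X] [Fintype Y] {b b' : ℕ} (hb : b ≤ b')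
    (G : MG X Y) (γ : Cube X) : HypV b G γ ⊆ HypV b' G γ := fun _ h => ⟨le_trans h.1 hb, h.2⟩

theorem isConj_mono {X : Type} {T T' : Set (Form X)} (h : T ⊆ T') {A : Form X}
    (hA : IsConj T A) : IsConj T' A := by
  induction hA with
  | base A hA => exact IsConj.base A (h hA)
  | and A B _ _ ihA ihB => exact IsConj.and A B ihA ihB

theorem isDerivation_mono {X : Type} {S : Set Rule} {T T' : Set (Form X)} (h : T ⊆ T')
    {l : ℕ} {L : Fin l → Form X} (hL : IsDerivation S T L) : IsDerivation S T' L := by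
  intro i
  rcases hL i with h1 | h1
  · exact Or.inl (h h1)
  · exact Or.inr h1

theorem v_lower (ε : ℝ) (hε : 0 < ε) (S : Set Rule) (hS : S.Finite) (hs : ∀ r ∈ S, r.Sound)
    (B : ℕ) : ∃ m₀ : ℕ, ∀ m : ℕ, m₀ ≤ m → ∀ γ : Cube (Vm m), ∀ b : ℕ, b ≤ B * (m + 1) ^ 6 →
    ∀ (s l : ℕ) (L : Fin l → Form (Em m)), 2 ^ m ≤ s → (∀ i, (L i).size ≤ s) →
      (IsDerivation S (HypV b (Gm m) γ) L ∧ (∃ i, L i = Form.ff) ∨
        IsDerivation S ∅ L ∧ ∃ i φ, IsConj (HypV b (Gm m) γ) φ ∧ L i = Form.neg φ) →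
      ((2 : ℝ) ^ m) ^ (2 - ε) ≤ s * (1 + Real.log l) := by
  obtain ⟨C, hcore⟩ := v_core S hS hs
  obtain ⟨m₀, hm₀⟩ := v_num ε hε C (B + 1)
  refine ⟨m₀, fun m hm γ b hb s l L hs2 hsz hcases => ?_⟩
  by_contra hlt
  push Not at hlt
  have hl : 1 ≤ l := by
    rcases hcases with ⟨_, i, _⟩ | ⟨_, i, _⟩
    · exact Nat.one_le_of_lt i.2
    · exact Nat.one_le_of_lt i.2
  have hb' : b + 1 ≤ (B + 1) * (m + 1) ^ 6 := by
    have h1 : 1 ≤ (m + 1) ^ 6 := Nat.one_le_pow _ _ (by omega)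
    rw [add_mul, one_mul]
    omega
  obtain ⟨par⟩ := hm₀ m hm (b + 1) s l hb' hs2 hl hlt
  have hs1 : 1 ≤ s := le_trans Nat.one_le_two_pow hs2
  obtain ⟨h1, h2⟩ := hcore (b + 1) m _ _ (by omega) hs1 par γ l L le_rfl hsz
  have hsub := VLow_hyp_mono (show b ≤ b + 1 by omega) (Gm m) γ
  rcases hcases with ⟨hd, i, hi⟩ | ⟨hd, i, φ, hφ, hi⟩
  · exact h1 (isDerivation_mono hsub hd) i hi
  · exact h2 hd i φ (isConj_mono hsub hφ) hi

end Pool.Agent.MP_9cec2c_lc.SLT
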