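import Pool.Agent.Lib.MP_9cec2c_lc.SLT.Term
import Pool.Agent.Lib.MP_9cec2c_lc.SLT.Routes
import Pool.Agent.Lib.MP_9cec2c_lc.SLT.Sub
import Pool.Agent.Lib.MP_9cec2c_lc.SLT.VLow

/-!
TASK Low: the lower bound for all graphs.

`low_num` (numbers): for `ε > 0`, `K : ℕ` there is `w₀` such that for all `w ≥ w₀` and `m` with `w < 3 · 2^m`,
`2^m ≤ w`: `K (m+1)^6 w^(2-ε) ≤ (2^m)^(2 - ε/2)`. Proof: `2^m > w/3`, `m ≤ log₂ w`; if `ε ≤ 4`: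
`(2^m)^(2-ε/2) ≥ (w/3)^(2-ε/2) ≥ w^(2-ε/2)/9`, and `9 K (log₂ w + 1)^6 ≤ w^(ε/2)` for large `w`. (For `ε > 4`:
`w^(2-ε) ≤ w^(2 - ε/2)/..`; or first replace `ε` by `min ε 1`: in `low` one may assume `ε ≤ 1`, since
`w^(2-ε) ≤ w^(2-min ε 1)`; so the hypothesis `ε ≤ 1` is given.)
`low`: `m` with `2^(m+1) ≤ 2w/3 < ..`: let `m = Nat.log 2 (2w/3)`, so `2^m ≤ 2w/3 < 2^(m+1)`, `2^m + 2^m/2 ≤ w`,
`w < 3 · 2^m`, `m ≥ 1`. `exists_term`, `exists_emb` with `H = Gm m`, `d = 44` (`Gm_deg`, `card_Vm`):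
`κ = 121 (m+1)² (m+2+220) ≤ 26862 (m+1)³`. `exists_subst`. The lines `bind X (L i)` have size `≤ s · 4 κ²`
(`bind_size`) and form a derivation from `HypV (b · 4κ²) (Gm m) γ'` (`bind_derivation`) or a proof of a negation
of a conjunction (`bind_isConj`; the hypotheses are `∅` in this case). `v_lower` with `ε/2` and
`B = b · 4 · 26862²`: `(2^m)^(2-ε/2) ≤ 4 κ² s (1 + log l) ≤ 4 · 26862² (m+1)^6 s (1 + log l)`; `low_num`.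
-/

set_option autoImplicit false

open Finset
open scoped Classical

namespace Pool.Agent.MP_9cec2c_lc.SLT

open SL

private theorem Low_log {w m : ℕ} (hw : 3 ≤ w) (h2 : 2 ^ m ≤ w) :
    ((m : ℝ) + 1) ≤ 3 * Real.log w := by
  have hw' : (3 : ℝ) ≤ w := by exact_mod_cast hw
  have h1 : (1 : ℝ) ≤ Real.log w := by
    have h3 : Real.exp 1 ≤ w := by
      have := Real.exp_one_lt_d9
      linarith
    have h4 := Real.log_le_log (Real.exp_pos 1) h3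
    rwa [Real.log_exp] at h4
  have h5 : (m : ℝ) * Real.log 2 ≤ Real.log w := by
    rw [← Real.log_pow]
    apply Real.log_le_log (by positivity)
    exact_mod_cast h2
  have h6 : 0.6931471803 < Real.log 2 := Real.log_two_gt_d9
  have h7 : (0 : ℝ) ≤ m := Nat.cast_nonneg m
  nlinarith

theorem low_num (ε : ℝ) (hε : 0 < ε) (hε1 : ε ≤ 1) (K : ℕ) : ∃ w₀ : ℕ, ∀ w m : ℕ, w₀ ≤ w →
    w < 3 * 2 ^ m → 2 ^ m ≤ w → K * (m + 1 : ℝ) ^ 6 * (w : ℝ) ^ (2 - ε) ≤ ((2 : ℝ) ^ m) ^ (2 - ε / 2) := by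
  have hr : 0 < ε / 12 := by linarith
  have hc : (0 : ℝ) < 1 / (6561 * K + 1) := by positivity
  have hev := (isLittleO_log_rpow_atTop hr).bound hc
  obtain ⟨x₀, hx₀⟩ := Filter.eventually_atTop.1 hev
  obtain ⟨n₀, hn₀⟩ := exists_nat_ge x₀
  refine ⟨max n₀ 3, fun w m hw hw3 hm => ?_⟩
  have hw₀ : n₀ ≤ w := le_trans (le_max_left _ _) hw
  have hw₃ : 3 ≤ w := le_trans (le_max_right _ _) hw
  have hwr : (3 : ℝ) ≤ w := by exact_mod_cast hw₃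
  have hwpos : (0 : ℝ) < w := by linarith
  have hlog := Low_log hw₃ hm
  have hb := hx₀ (w : ℝ) (hn₀.trans (by exact_mod_cast hw₀))
  have hl0 : 0 ≤ Real.log w := Real.log_nonneg (by linarith)
  have hp0 : 0 ≤ (w : ℝ) ^ (ε / 12) := Real.rpow_nonneg hwpos.le _
  rw [Real.norm_of_nonneg hl0, Real.norm_of_nonneg hp0] at hb
  have h1 : ((m : ℝ) + 1) ≤ 3 * (1 / (6561 * K + 1) * (w : ℝ) ^ (ε / 12)) := by linarith
  have h2 : ((m : ℝ) + 1) ^ 6 ≤ (3 * (1 / (6561 * K + 1) * (w : ℝ) ^ (ε / 12))) ^ 6 :=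
    pow_le_pow_left₀ (by positivity) h1 6
  have h3 : ((w : ℝ) ^ (ε / 12)) ^ 6 = (w : ℝ) ^ (ε / 2) := by
    rw [← Real.rpow_natCast, ← Real.rpow_mul hwpos.le]
    congr 1
    push_cast
    ring
  have h4 : (3 * (1 / (6561 * K + 1) * (w : ℝ) ^ (ε / 12))) ^ 6 =
      729 * (1 / (6561 * (K : ℝ) + 1)) ^ 6 * (w : ℝ) ^ (ε / 2) := by
    rw [mul_pow, mul_pow, h3]
    ring
  rw [h4] at h2
  have h5 : (1 / (6561 * (K : ℝ) + 1)) ^ 6 ≤ 1 / (6561 * (K : ℝ) + 1) := by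
    apply pow_le_of_le_one hc.le _ (by norm_num)
    rw [div_le_one (by positivity)]
    have : (0 : ℝ) ≤ K := Nat.cast_nonneg K
    linarith
  have hKw : (K : ℝ) * ((m : ℝ) + 1) ^ 6 ≤ (w : ℝ) ^ (ε / 2) / 9 := by
    have hK : (0 : ℝ) ≤ K := Nat.cast_nonneg K
    have hq : 0 ≤ (w : ℝ) ^ (ε / 2) := Real.rpow_nonneg hwpos.le _
    calc (K : ℝ) * ((m : ℝ) + 1) ^ 6
        ≤ K * (729 * (1 / (6561 * (K : ℝ) + 1)) ^ 6 * (w : ℝ) ^ (ε / 2)) :=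
          mul_le_mul_of_nonneg_left h2 hK
      _ ≤ K * (729 * (1 / (6561 * (K : ℝ) + 1)) * (w : ℝ) ^ (ε / 2)) := by
          apply mul_le_mul_of_nonneg_left _ hK
          apply mul_le_mul_of_nonneg_right _ hq
          apply mul_le_mul_of_nonneg_left h5 (by norm_num)
      _ = (6561 * K / (6561 * K + 1)) * ((w : ℝ) ^ (ε / 2) / 9) := by
          field_simp
          ring
      _ ≤ 1 * ((w : ℝ) ^ (ε / 2) / 9) := by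
          apply mul_le_mul_of_nonneg_right _ (by positivity)
          rw [div_le_one (by positivity)]
          linarith
      _ = (w : ℝ) ^ (ε / 2) / 9 := one_mul _
  have h6 : (w : ℝ) ^ (ε / 2) * (w : ℝ) ^ (2 - ε) = (w : ℝ) ^ (2 - ε / 2) := by
    rw [← Real.rpow_add hwpos]
    congr 1
    ring
  have h7 : (w : ℝ) / 3 ≤ (2 : ℝ) ^ m := by
    have : (w : ℝ) < 3 * 2 ^ m := by exact_mod_cast hw3
    linarith
  have h8 : ((w : ℝ) / 3) ^ (2 - ε / 2) ≤ ((2 : ℝ) ^ m) ^ (2 - ε / 2) :=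
    Real.rpow_le_rpow (by positivity) h7 (by linarith)
  have h9 : (3 : ℝ) ^ (2 - ε / 2) ≤ 9 := by
    have := Real.rpow_le_rpow_of_exponent_le (x := 3) (by norm_num)
      (show 2 - ε / 2 ≤ (2 : ℝ) by linarith)
    refine this.trans (le_of_eq ?_)
    rw [show (2 : ℝ) = ((2 : ℕ) : ℝ) by norm_num, Real.rpow_natCast]
    norm_num
  have h10 : ((w : ℝ) / 3) ^ (2 - ε / 2) = (w : ℝ) ^ (2 - ε / 2) / 3 ^ (2 - ε / 2) :=
    Real.div_rpow hwpos.le (by norm_num) _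
  have h11 : (w : ℝ) ^ (2 - ε / 2) / 9 ≤ (w : ℝ) ^ (2 - ε / 2) / 3 ^ (2 - ε / 2) :=
    div_le_div_of_nonneg_left (Real.rpow_nonneg hwpos.le _) (Real.rpow_pos_of_pos (by norm_num) _) h9
  calc (K : ℝ) * ((m : ℝ) + 1) ^ 6 * (w : ℝ) ^ (2 - ε)
      ≤ (w : ℝ) ^ (ε / 2) / 9 * (w : ℝ) ^ (2 - ε) :=
        mul_le_mul_of_nonneg_right hKw (Real.rpow_nonneg hwpos.le _)
    _ = (w : ℝ) ^ (2 - ε / 2) / 9 := by rw [← h6]; ring
    _ ≤ ((w : ℝ) / 3) ^ (2 - ε / 2) := by rw [h10]; exact h11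
    _ ≤ _ := h8

private theorem Low_kappa (m : ℕ) :
    4 * (121 * (m + 1) ^ 2 * (m + 2 + 5 * 44)) ^ 2 ≤ 4 * 26862 ^ 2 * (m + 1) ^ 6 := by
  have h : 121 * (m + 1) ^ 2 * (m + 2 + 5 * 44) ≤ 26862 * (m + 1) ^ 3 := by
    have h1 : m + 2 + 5 * 44 ≤ 222 * (m + 1) := by omega
    calc 121 * (m + 1) ^ 2 * (m + 2 + 5 * 44) ≤ 121 * (m + 1) ^ 2 * (222 * (m + 1)) :=
          Nat.mul_le_mul_left _ h1
      _ = 26862 * (m + 1) ^ 3 := by ring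
  calc 4 * (121 * (m + 1) ^ 2 * (m + 2 + 5 * 44)) ^ 2 ≤ 4 * (26862 * (m + 1) ^ 3) ^ 2 :=
        Nat.mul_le_mul_left _ (Nat.pow_le_pow_left h 2)
    _ = 4 * 26862 ^ 2 * (m + 1) ^ 6 := by ring

private theorem Low_m {w m₀ : ℕ} (hw : 3 * 2 ^ m₀ + 3 ≤ w) : ∃ m : ℕ, 1 ≤ m ∧ m₀ ≤ m ∧
    2 ^ m + 2 ^ m / 2 ≤ w ∧ w < 3 * 2 ^ m ∧ 2 ^ m ≤ w := by
  have hne : 2 * w / 3 ≠ 0 := by omega
  have h1 : 2 ^ Nat.log 2 (2 * w / 3) ≤ 2 * w / 3 := Nat.pow_log_le_self 2 hne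
  have h2 : 2 * w / 3 < 2 ^ (Nat.log 2 (2 * w / 3) + 1) := Nat.lt_pow_succ_log_self (by norm_num) _
  obtain ⟨m, hm⟩ : ∃ m, m = Nat.log 2 (2 * w / 3) := ⟨_, rfl⟩
  rw [← hm] at h1 h2
  rw [pow_succ] at h2
  have h3 : w < 3 * 2 ^ m := by omega
  refine ⟨m, ?_, ?_, ?_, h3, by omega⟩
  · rcases Nat.eq_zero_or_pos m with h0 | h0
    · rw [h0, pow_zero] at h3
      omega
    · exact h0
  · by_contra hlt
    push Not at hlt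
    have h4 : 2 ^ m ≤ 2 ^ m₀ := Nat.pow_le_pow_right (by norm_num) hlt.le
    omega
  · omega

theorem low (ε : ℝ) (hε : 0 < ε) (S : Set Rule) (hS : S.Finite) (hs : ∀ r ∈ S, r.Sound)
    (b : ℕ) : ∃ w₀ : ℕ, ∀ w : ℕ, w₀ ≤ w → ∀ (V E : Type) [Fintype V] [Fintype E] (G : MG V E),
    ConnG G → ¬ TT.HasTreeDec G.src G.dst w → ∀ γ : V → ZMod 2, ∑ v, γ v = 1 →
    ∀ (s l : ℕ) (L : Fin l → Form E), w ≤ s → (∀ i, (L i).size ≤ s) →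
      (IsDerivation S (Hyp b (G.tseitin γ)) L ∧ (∃ i, L i = Form.ff) ∨
        IsDerivation S ∅ L ∧ ∃ i φ, IsConj (Hyp b (G.tseitin γ)) φ ∧ L i = Form.neg φ) →
      (w : ℝ) ^ (2 - ε) ≤ s * (1 + Real.log l) := by
  obtain ⟨δ, hδ, hδ1, hδε⟩ : ∃ δ : ℝ, 0 < δ ∧ δ ≤ 1 ∧ δ ≤ ε :=
    ⟨min ε 1, lt_min hε one_pos, min_le_right _ _, min_le_left _ _⟩
  obtain ⟨m₀, hm₀⟩ := v_lower (δ / 2) (by linarith) S hS hs (b * (4 * 26862 ^ 2))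
  obtain ⟨w₁, hw₁⟩ := low_num δ hδ hδ1 (4 * 26862 ^ 2)
  refine ⟨max w₁ (3 * 2 ^ m₀ + 3), fun w hw V E _ _ G hG hT γ hγ s l L hsw hsz hcases => ?_⟩
  obtain ⟨m, hm1, hmm, hmw, hwm, hmw'⟩ := Low_m (le_trans (le_max_right _ _) hw)
  obtain ⟨φ, hφ, hW⟩ := exists_term G hmw hT
  obtain ⟨ψ, -, hψ⟩ := exists_emb G hφ hW (Gm m) (Gm_deg m) hm1 (card_Vm m)
  obtain ⟨κ, hκ⟩ : ∃ κ, κ = 121 * (m + 1) ^ 2 * (m + 2 + 5 * 44) := ⟨_, rfl⟩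
  rw [← hκ] at hψ
  have hκ1 : 1 ≤ κ := by
    rw [hκ]
    exact Nat.succ_le_of_lt (by positivity)
  have hκ2 : 4 * κ ^ 2 ≤ 4 * 26862 ^ 2 * (m + 1) ^ 6 := by
    rw [hκ]
    exact Low_kappa m
  obtain ⟨γ', X, hX, hX2⟩ := exists_subst G hG γ hγ (Gm m) ψ hκ1 hψ
  have hK1 : 1 ≤ 4 * κ ^ 2 := Nat.succ_le_of_lt (by positivity)
  have hfin := hm₀ m hmm γ' (b * (4 * κ ^ 2)) (by
    calc b * (4 * κ ^ 2) ≤ b * (4 * 26862 ^ 2 * (m + 1) ^ 6) := Nat.mul_le_mul_left _ hκ2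
      _ = b * (4 * 26862 ^ 2) * (m + 1) ^ 6 := by ring) (s * (4 * κ ^ 2)) l
    (fun i => bind X (L i))
    (by
      calc 2 ^ m ≤ s := hmw'.trans hsw
        _ = s * 1 := (mul_one s).symm
        _ ≤ s * (4 * κ ^ 2) := Nat.mul_le_mul_left _ hK1)
    (fun i => (bind_size hK1 hX (L i)).trans (Nat.mul_le_mul_right _ (hsz i)))
    (by
      rcases hcases with ⟨hd, i, hi⟩ | ⟨hd, i, χ, hχ, hi⟩
      · refine Or.inl ⟨bind_derivation X (hX2 b) hd, i, ?_⟩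
        rw [hi]
        rfl
      · refine Or.inr ⟨bind_derivation X (fun A hA => hA.elim) hd, i, bind X χ,
          bind_isConj X (hX2 b) hχ, ?_⟩
        rw [hi]
        rfl)
  have hlow := hw₁ w m (le_trans (le_max_left _ _) hw) hwm hmw'
  have hl0 : (0 : ℝ) ≤ Real.log l := Real.log_natCast_nonneg l
  have hM : (0 : ℝ) < 4 * 26862 ^ 2 * ((m : ℝ) + 1) ^ 6 := by positivity
  have hκr : (4 * (κ : ℝ) ^ 2) ≤ 4 * 26862 ^ 2 * ((m : ℝ) + 1) ^ 6 := by exact_mod_cast hκ2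
  push_cast at hlow hfin
  have hfin2 : 4 * 26862 ^ 2 * ((m : ℝ) + 1) ^ 6 * (w : ℝ) ^ (2 - δ) ≤
      4 * 26862 ^ 2 * ((m : ℝ) + 1) ^ 6 * (s * (1 + Real.log l)) := by
    calc 4 * 26862 ^ 2 * ((m : ℝ) + 1) ^ 6 * (w : ℝ) ^ (2 - δ)
        = 2886268176 * ((m : ℝ) + 1) ^ 6 * (w : ℝ) ^ (2 - δ) := by norm_num
      _ ≤ ((2 : ℝ) ^ m) ^ (2 - δ / 2) := hlow
      _ ≤ s * (4 * (κ : ℝ) ^ 2) * (1 + Real.log l) := hfin
      _ = 4 * (κ : ℝ) ^ 2 * (s * (1 + Real.log l)) := by ring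
      _ ≤ 4 * 26862 ^ 2 * ((m : ℝ) + 1) ^ 6 * (s * (1 + Real.log l)) :=
          mul_le_mul_of_nonneg_right hκr (by positivity)
  have hfin3 := le_of_mul_le_mul_left hfin2 hM
  have hw1 : (1 : ℝ) ≤ w := by
    have h13 : 1 ≤ w := le_trans Nat.one_le_two_pow hmw'
    exact_mod_cast h13
  exact (Real.rpow_le_rpow_of_exponent_le hw1 (by linarith)).trans hfin3

end Pool.Agent.MP_9cec2c_lc.SLT
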