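import Pool.Agent.Lib.MP_9cec2c_lc.SLT.VHyp
import Pool.Agent.Lib.MP_9cec2c_lc.SL.GmProps

/-!
Campaign SLT (helper84): a refutation has long lines. If all lines have size at most `s` and `C (s + b + 1) < 2^m`
then for all lines `A` of a derivation from `HypV b (Gm m) γ` the element `1 - fn A` is null.
-/

set_option autoImplicit false

open Finset
open scoped Classical

namespace Pool.Agent.MP_9cec2c_lc.SLT

open SL

theorem VLine_eval {X : Type} (σ : ℕ → Form X) (y : X → Bool) : ∀ A : Form ℕ,
    (A.subst σ).eval y = A.eval fun j => (σ j).eval y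
  | .var _ => rfl
  | .tt => rfl
  | .ff => rfl
  | .neg A => by simp only [Form.subst, Form.eval, VLine_eval σ y A]
  | .and A B => by simp only [Form.subst, Form.eval, VLine_eval σ y A, VLine_eval σ y B]
  | .or A B => by simp only [Form.subst, Form.eval, VLine_eval σ y A, VLine_eval σ y B]
  | .imp A B => by simp only [Form.subst, Form.eval, VLine_eval σ y A, VLine_eval σ y B]

section world

variable {R : Type} [CommRing R] [Algebra ℝ R] (W : World R)

/-- A product of elements which are equal to 1 up to null elements. -/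
theorem VLine_prod {s : ℕ} : ∀ (fs : List R), (∀ f ∈ fs, f ∈ W.F s ∧ W.N (1 - f) = 0) →
    (fs.length + 2) * s ≤ W.D → fs.prod ∈ W.F (fs.length * s) ∧ W.N (1 - fs.prod) = 0
  | [], _, _ => by
    rw [List.prod_nil, sub_self, W.N_zero]
    exact ⟨W.one_mem' _, rfl⟩
  | f :: fs, h, hD => by
    rw [List.length_cons] at hD ⊢
    have e1 : (fs.length + 1 + 2) * s = (fs.length + 2) * s + s := by ring
    have e2 : (fs.length + 1) * s = s + fs.length * s := by ring
    have e3 : (fs.length + 2) * s = fs.length * s + 2 * s := by ring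
    obtain ⟨h1, h2⟩ := VLine_prod fs (fun g hg => h g (List.mem_cons_of_mem _ hg)) (by omega)
    obtain ⟨h3, h4⟩ := h f List.mem_cons_self
    rw [List.prod_cons]
    refine ⟨?_, ?_⟩
    · rw [e2]
      exact W.mul_mem _ _ _ _ h3 h1
    · have h5 : 1 - f * fs.prod = (1 - f) + (1 - fs.prod) * f := by ring
      have h6 : 1 - fs.prod ∈ W.F (fs.length * s) := Submodule.sub_mem _ (W.one_mem' _) h1
      have h7 : W.N ((1 - fs.prod) * f) = 0 := W.N_mul_null h6 h3 (by omega) h2
      have h8 : (1 - fs.prod) * f ∈ W.F W.D := W.F_mono _ _ (by omega) (W.mul_mem _ _ _ _ h6 h3)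
      have h9 : 1 - f ∈ W.F W.D :=
        W.F_mono _ _ (show s ≤ W.D by omega) (Submodule.sub_mem _ (W.one_mem' _) h3)
      have h10 := W.N_add h9 h8
      rw [h7, h4, add_zero] at h10
      rw [h5]
      exact le_antisymm h10 (W.N_nonneg _)

end world

theorem VLine_step {E : Type} [Fintype E] (W : World (Cube E → ℝ)) (hF : ∀ d, W.F d = Fd E d)
    {s : ℕ} (R : Rule) (hR : R.Sound) (hD : (R.prems.length + 2) * s ≤ W.D) (σ : ℕ → Form E)
    (hc : (R.concl.subst σ).size ≤ s)
    (hp : ∀ P ∈ R.prems, (P.subst σ).size ≤ s ∧ W.N (1 - fn (P.subst σ)) = 0) :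
    W.N (1 - fn (R.concl.subst σ)) = 0 := by
  have mem : ∀ A : Form E, A.size ≤ s → fn A ∈ W.F s := by
    intro A hA
    rw [hF]
    exact Fd_mono hA (MG.fn_mem A)
  obtain ⟨h1, h2⟩ := VLine_prod W (s := s) (R.prems.map fun P => fn (P.subst σ)) (by
    intro f hf
    obtain ⟨P, hP, rfl⟩ := List.mem_map.1 hf
    exact ⟨mem _ (hp P hP).1, (hp P hP).2⟩) (by rw [List.length_map]; exact hD)
  rw [List.length_map] at h1
  set g : Cube E → ℝ := (R.prems.map fun P => fn (P.subst σ)).prod with hg
  have h3 : 1 - fn (R.concl.subst σ) = (1 - g) * (1 - fn (R.concl.subst σ)) := by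
    funext x
    simp only [Pi.mul_apply, Pi.sub_apply, Pi.one_apply]
    by_cases h4 : ∀ P ∈ R.prems, (P.subst σ).eval (fun e => decide (x e ≠ 0)) = true
    · have h5 : (R.concl.subst σ).eval (fun e => decide (x e ≠ 0)) = true := by
        rw [VLine_eval]
        refine hR _ fun P hP => ?_
        rw [← VLine_eval]
        exact h4 P hP
      have h6 : fn (R.concl.subst σ) x = 1 := by
        unfold fn
        rw [h5]
        unfold ind
        simp
      rw [h6, sub_self, mul_zero]
    · push Not at h4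
      obtain ⟨P, hP, h5⟩ := h4
      have h6 : g x = 0 := by
        have h7 : fn (P.subst σ) x = 0 := by
          unfold fn
          have h8 : (P.subst σ).eval (fun e => decide (x e ≠ 0)) = false := by simpa using h5
          rw [h8]
          unfold ind
          simp
        rw [hg]
        have h9 : ∀ (l : List (Cube E → ℝ)) (f : Cube E → ℝ), f ∈ l → f x = 0 → l.prod x = 0 := by
          intro l
          induction l with
          | nil => intro f hf; simp at hf
          | cons a l ih =>
            intro f hf hx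
            rw [List.prod_cons, Pi.mul_apply]
            rcases List.mem_cons.1 hf with rfl | hf
            · rw [hx, zero_mul]
            · rw [ih f hf hx, mul_zero]
        exact h9 _ _ (List.mem_map.2 ⟨P, hP, rfl⟩) h7
      rw [h6]
      ring
  have e3 : (R.prems.length + 2) * s = R.prems.length * s + 2 * s := by ring
  rw [h3]
  exact W.N_mul_null (Submodule.sub_mem _ (W.one_mem' _) h1)
    (Submodule.sub_mem _ (W.one_mem' _) (mem _ hc)) (by omega) h2

theorem VLine_conj {E : Type} [Fintype E] (W : World (Cube E → ℝ)) (hF : ∀ d, W.F d = Fd E d)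
    {T : Set (Form E)} (hT : ∀ φ ∈ T, W.N (1 - fn φ) = 0) {A : Form E} (hA : IsConj T A) :
    3 * A.size ≤ W.D → W.N (1 - fn A) = 0 := by
  induction hA with
  | base A h => exact fun _ => hT A h
  | and A B _ _ ihA ihB =>
    intro hD
    rw [Form.size] at hD
    have hAm : fn A ∈ W.F A.size := by rw [hF]; exact MG.fn_mem A
    have hBm : fn B ∈ W.F B.size := by rw [hF]; exact MG.fn_mem B
    have e : 1 - fn (A.and B) = (1 - fn A) + (1 - fn B) * fn A := by
      funext x
      simp only [Pi.mul_apply, Pi.sub_apply, Pi.one_apply, Pi.add_apply]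
      unfold fn
      rw [Form.eval]
      unfold ind
      cases A.eval fun e => decide (x e ≠ 0) <;> cases B.eval fun e => decide (x e ≠ 0) <;> simp
    have h1 : 1 - fn B ∈ W.F B.size := Submodule.sub_mem _ (W.one_mem' _) hBm
    have h2 : W.N ((1 - fn B) * fn A) = 0 := W.N_mul_null h1 hAm (by omega) (ihB (by omega))
    have h3 : (1 - fn B) * fn A ∈ W.F W.D :=
      W.F_mono _ _ (show B.size + A.size ≤ W.D by omega) (W.mul_mem _ _ _ _ h1 hAm)
    have h4 : 1 - fn A ∈ W.F W.D :=
      W.F_mono _ _ (show A.size ≤ W.D by omega) (Submodule.sub_mem _ (W.one_mem' _) hAm)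
    have h5 := W.N_add h4 h3
    rw [h2, ihA (by omega), add_zero] at h5
    rw [e]
    exact le_antisymm h5 (W.N_nonneg _)

theorem v_line (S : Set Rule) (hS : S.Finite) (hs : ∀ r ∈ S, r.Sound) : ∃ C : ℕ,
    ∀ (m b s : ℕ) (γ : Cube (Vm m)), C * (s + b + 1) < 2 ^ m →
    ∀ (l : ℕ) (L : Fin l → Form (Em m)), (∀ i, (L i).size ≤ s) →
      ¬ (IsDerivation S (HypV b (Gm m) γ) L ∧ (∃ i, L i = Form.ff) ∨
        IsDerivation S ∅ L ∧ ∃ i φ, IsConj (HypV b (Gm m) γ) φ ∧ L i = Form.neg φ) := by
  obtain ⟨r, hr⟩ : ∃ r : ℕ, ∀ R ∈ S, R.prems.length ≤ r := by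
    obtain ⟨M, hM⟩ := (hS.image fun R => R.prems.length).bddAbove
    exact ⟨M, fun R hR => hM ⟨R, hR, rfl⟩⟩
  refine ⟨8 * (r + 200), fun m b s γ hC l L hsz => ?_⟩
  obtain ⟨D, hDd⟩ : ∃ D : ℕ, D = (r + 3) * s + 3 * 44 + 2 * b := ⟨_, rfl⟩
  have hD : 8 * D < Fintype.card (Vm m) := by
    rw [card_Vm, hDd]
    refine lt_of_le_of_lt ?_ hC
    nlinarith
  obtain ⟨W, hW⟩ : ∃ W : World (Cube (Em m) → ℝ), W = (Gm m).world (Gm_expands m) γ D hD := ⟨_, rfl⟩
  have hWD : W.D = D := by rw [hW]; rfl
  have hF : ∀ d, W.F d = Fd (Em m) d := by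
    intro d
    rw [hW]
    rfl
  have hN : ∀ f, (Gm m).nrm γ f = W.N f := by
    intro f
    rw [hW]
    rfl
  have hyp : ∀ φ ∈ HypV b (Gm m) γ, W.N (1 - fn φ) = 0 := by
    intro φ hφ
    rw [← hN]
    exact hypv_null (Gm m) (Gm_expands m) (Gm_deg m) γ (by omega) (by omega) hφ
  have e3 : (r + 3) * s = r * s + 3 * s := by ring
  have main : ∀ T : Set (Form (Em m)), (∀ φ ∈ T, W.N (1 - fn φ) = 0) → IsDerivation S T L →
      ∀ i, W.N (1 - fn (L i)) = 0 := by
    intro T hT hL i
    induction hn : (i : ℕ) using Nat.strong_induction_on generalizing i with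
    | _ n ih =>
      rcases hL i with h1 | ⟨R, hR, σ, h1, h2⟩
      · exact hT _ h1
      · rw [← h1]
        refine VLine_step W hF (s := s) R (hs R hR) ?_ σ (by rw [h1]; exact hsz i) ?_
        · have h3 : R.prems.length * s ≤ r * s := Nat.mul_le_mul_right _ (hr R hR)
          have h4 : (R.prems.length + 2) * s = R.prems.length * s + 2 * s := by ring
          rw [hWD, hDd]
          omega
        · intro P hP
          obtain ⟨j, hj, hj'⟩ := h2 P hP
          rw [← hj']
          exact ⟨hsz j, ih j (by rw [← hn]; exact hj) j rfl⟩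
  rintro (⟨hL, i, hi⟩ | ⟨hL, i, φ, hφ, hi⟩)
  · have h1 := main _ hyp hL i
    rw [hi] at h1
    have h2 : fn (Form.ff : Form (Em m)) = 0 := by
      funext x
      unfold fn ind Form.eval
      simp
    rw [h2, sub_zero, W.N_one] at h1
    exact one_ne_zero h1
  · have h1 := main ∅ (fun φ hφ => absurd hφ (Set.notMem_empty φ)) hL i
    have hφs : φ.size ≤ s := by
      have := hsz i
      rw [hi] at this
      exact this
    have h2 : W.N (1 - fn φ) = 0 := VLine_conj W hF hyp hφ (by
      rw [hWD, hDd]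
      omega)
    have h3 : fn (Form.neg φ) = 1 - fn φ := by
      funext x
      simp only [Pi.sub_apply, Pi.one_apply]
      unfold fn
      rw [Form.eval]
      unfold ind
      cases φ.eval fun e => decide (x e ≠ 0) <;> simp
    rw [hi, h3, sub_sub_cancel] at h1
    have hm : fn φ ∈ W.F W.D := by
      refine W.F_mono s _ (by rw [hWD, hDd]; omega) ?_
      rw [hF]
      exact Fd_mono hφs (MG.fn_mem φ)
    have h4 := W.N_add (Submodule.sub_mem _ (W.one_mem' _) hm) hm
    rw [sub_add_cancel, W.N_one, h1, h2] at h4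
    linarith

end Pool.Agent.MP_9cec2c_lc.SLT
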