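import Pool.Agent.Lib.MP_9cec2c_lc.SLT.Low
import Pool.Agent.Lib.MP_9cec2c_lc.SLT.VLine

/-!
Campaign SLT (helper84): a refutation has a line of size at least `w ^ (1 - ε)`, and the tradeoff for all sizes
of the lines.
-/

set_option autoImplicit false

open Finset
open scoped Classical

namespace Pool.Agent.MP_9cec2c_lc.SLT

open SL

private theorem LowLine_m {w m₀ : ℕ} (hw : 3 * 2 ^ m₀ + 3 ≤ w) : ∃ m : ℕ, 1 ≤ m ∧ m₀ ≤ m ∧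
    2 ^ m + 2 ^ m / 2 ≤ w ∧ w < 3 * 2 ^ m ∧ 2 ^ m ≤ w := by
  have hne : 2 * w / 3 ≠ 0 := by omega
  have h1 : 2 ^ Nat.log 2 (2 * w / 3) ≤ 2 * w / 3 := Nat.pow_log_le_self 2 hne
  have h2 : 2 * w / 3 < 2 ^ (Nat.log 2 (2 * w / 3) + 1) := Nat.lt_pow_succ_log_self (by norm_num) _
  obtain ⟨m, hm⟩ : ∃ m, m = Nat.log 2 (2 * w / 3) := ⟨_, rfl⟩
  rw [← hm] at h1 h2
  rw [pow_succ] at h2
  have h3 : w < 3 * 2 ^ m := by omega
  refine ⟨m, ?_, ?_, ?_, h3, by omega⟩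
  · rcases Nat.eq_zero_or_pos m with h0 | h0
    · rw [h0, pow_zero] at h3
      omega
    · exact h0
  · by_contra hlt
    push Not at hlt
    have h4 : 2 ^ m ≤ 2 ^ m₀ := Nat.pow_le_pow_right (by norm_num) hlt.le
    omega
  · omega

private theorem LowLine_kappa (m : ℕ) :
    4 * (121 * (m + 1) ^ 2 * (m + 2 + 5 * 44)) ^ 2 ≤ 4 * 26862 ^ 2 * (m + 1) ^ 6 := by
  have h : 121 * (m + 1) ^ 2 * (m + 2 + 5 * 44) ≤ 26862 * (m + 1) ^ 3 := by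
    have h1 : m + 2 + 5 * 44 ≤ 222 * (m + 1) := by omega
    calc 121 * (m + 1) ^ 2 * (m + 2 + 5 * 44) ≤ 121 * (m + 1) ^ 2 * (222 * (m + 1)) :=
          Nat.mul_le_mul_left _ h1
      _ = 26862 * (m + 1) ^ 3 := by ring
  calc 4 * (121 * (m + 1) ^ 2 * (m + 2 + 5 * 44)) ^ 2 ≤ 4 * (26862 * (m + 1) ^ 3) ^ 2 :=
        Nat.mul_le_mul_left _ (Nat.pow_le_pow_left h 2)
    _ = 4 * 26862 ^ 2 * (m + 1) ^ 6 := by ring

theorem low_line (ε : ℝ) (hε : 0 < ε) (S : Set Rule) (hS : S.Finite) (hs : ∀ r ∈ S, r.Sound)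
    (b : ℕ) : ∃ w₀ : ℕ, ∀ w : ℕ, w₀ ≤ w → ∀ (V E : Type) [Fintype V] [Fintype E] (G : MG V E),
    ConnG G → ¬ TT.HasTreeDec G.src G.dst w → ∀ γ : V → ZMod 2, ∑ v, γ v = 1 →
    ∀ (s l : ℕ) (L : Fin l → Form E), (∀ i, (L i).size ≤ s) →
      (IsDerivation S (Hyp b (G.tseitin γ)) L ∧ (∃ i, L i = Form.ff) ∨
        IsDerivation S ∅ L ∧ ∃ i φ, IsConj (Hyp b (G.tseitin γ)) φ ∧ L i = Form.neg φ) →
      (w : ℝ) ^ (1 - ε) ≤ s := by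
  obtain ⟨δ, hδ, hδ1, hδε⟩ : ∃ δ : ℝ, 0 < δ ∧ δ ≤ 1 ∧ δ ≤ ε :=
    ⟨min ε 1, lt_min hε one_pos, min_le_right _ _, min_le_left _ _⟩
  obtain ⟨C, hC⟩ := v_line S hS hs
  obtain ⟨w₁, hw₁⟩ := low_num δ hδ hδ1 (2 * ((C + 1) * (4 * 26862 ^ 2) * (b + 2)))
  refine ⟨max w₁ (3 * 2 ^ 0 + 3), fun w hw V E _ _ G hG hT γ hγ s l L hsz hcases => ?_⟩
  obtain ⟨m, hm1, -, hmw, hwm, hmw'⟩ := LowLine_m (le_trans (le_max_right _ _) hw)
  obtain ⟨φ, hφ, hW⟩ := exists_term G hmw hT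
  obtain ⟨ψ, -, hψ⟩ := exists_emb G hφ hW (Gm m) (Gm_deg m) hm1 (card_Vm m)
  obtain ⟨κ, hκ⟩ : ∃ κ, κ = 121 * (m + 1) ^ 2 * (m + 2 + 5 * 44) := ⟨_, rfl⟩
  rw [← hκ] at hψ
  have hκ1 : 1 ≤ κ := by
    rw [hκ]
    exact Nat.succ_le_of_lt (by positivity)
  have hκ2 : 4 * κ ^ 2 ≤ 4 * 26862 ^ 2 * (m + 1) ^ 6 := by
    rw [hκ]
    exact LowLine_kappa m
  obtain ⟨γ', X, hX, hX2⟩ := exists_subst G hG γ hγ (Gm m) ψ hκ1 hψ
  have hK1 : 1 ≤ 4 * κ ^ 2 := Nat.succ_le_of_lt (by positivity)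
  by_contra hlt
  push Not at hlt
  have hw1 : (1 : ℝ) ≤ w := by
    have h13 : 1 ≤ w := le_trans Nat.one_le_two_pow hmw'
    exact_mod_cast h13
  have hw0 : (0 : ℝ) < w := by linarith
  -- `s` is small
  have hq1 : (1 : ℝ) ≤ (w : ℝ) ^ (1 - δ / 2) := Real.one_le_rpow hw1 (by linarith)
  have hsq : (s : ℝ) ≤ (w : ℝ) ^ (1 - δ / 2) :=
    hlt.le.trans (Real.rpow_le_rpow_of_exponent_le hw1 (by linarith))
  have hlow := hw₁ w m (le_trans (le_max_left _ _) hw) hwm hmw'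
  have e1 : (w : ℝ) ^ (2 - δ) = (w : ℝ) ^ (1 - δ / 2) * (w : ℝ) ^ (1 - δ / 2) := by
    rw [← Real.rpow_add hw0]
    congr 1
    ring
  have e2 : ((2 : ℝ) ^ m) ^ (2 - δ / 2) = (2 : ℝ) ^ m * ((2 : ℝ) ^ m) ^ (1 - δ / 2) := by
    have h2 : (0 : ℝ) < (2 : ℝ) ^ m := by positivity
    conv_rhs => rw [← Real.rpow_one ((2 : ℝ) ^ m), Real.rpow_one, ← Real.rpow_one ((2 : ℝ) ^ m)]
    rw [Real.rpow_one]
    nth_rewrite 2 [← Real.rpow_one ((2 : ℝ) ^ m)]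
    rw [← Real.rpow_add h2]
    congr 1
    ring
  have e3 : ((2 : ℝ) ^ m) ^ (1 - δ / 2) ≤ (w : ℝ) ^ (1 - δ / 2) :=
    Real.rpow_le_rpow (by positivity) (by exact_mod_cast hmw') (by linarith)
  have e4 : ((2 * ((C + 1) * (4 * 26862 ^ 2) * (b + 2)) : ℕ) : ℝ) * ((m : ℝ) + 1) ^ 6 *
      (w : ℝ) ^ (1 - δ / 2) ≤ (2 : ℝ) ^ m := by
    rw [e1, e2] at hlow
    have h1 := hlow.trans (mul_le_mul_of_nonneg_left e3 (by positivity : (0 : ℝ) ≤ (2 : ℝ) ^ m))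
    rw [← mul_assoc] at h1
    exact le_of_mul_le_mul_right h1 (by linarith)
  have hfin := hC m (b * (4 * κ ^ 2)) (s * (4 * κ ^ 2)) γ' (by
    have h1 : ((C * (s * (4 * κ ^ 2) + b * (4 * κ ^ 2) + 1) : ℕ) : ℝ) < ((2 ^ m : ℕ) : ℝ) := by
      have hκr : (4 * (κ : ℝ) ^ 2) ≤ 4 * 26862 ^ 2 * ((m : ℝ) + 1) ^ 6 := by exact_mod_cast hκ2
      have hκ0 : (1 : ℝ) ≤ 4 * (κ : ℝ) ^ 2 := by exact_mod_cast hK1
      have hb0 : (0 : ℝ) ≤ b := Nat.cast_nonneg b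
      have hC0 : (0 : ℝ) ≤ C := Nat.cast_nonneg C
      have h2 : (s : ℝ) + b + 1 ≤ (b + 2) * (w : ℝ) ^ (1 - δ / 2) := by nlinarith
      have h3 : (s : ℝ) * (4 * κ ^ 2) + b * (4 * κ ^ 2) + 1 ≤
          4 * 26862 ^ 2 * ((m : ℝ) + 1) ^ 6 * ((b + 2) * (w : ℝ) ^ (1 - δ / 2)) := by
        calc (s : ℝ) * (4 * κ ^ 2) + b * (4 * κ ^ 2) + 1 ≤ 4 * κ ^ 2 * (s + b + 1) := by nlinarith
          _ ≤ _ := mul_le_mul hκr h2 (by positivity) (by positivity)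
      have h4 : (0 : ℝ) < 4 * 26862 ^ 2 * ((m : ℝ) + 1) ^ 6 * ((b + 2) * (w : ℝ) ^ (1 - δ / 2)) := by
        positivity
      push_cast at e4 ⊢
      calc (C : ℝ) * ((s : ℝ) * (4 * κ ^ 2) + b * (4 * κ ^ 2) + 1)
          ≤ C * (4 * 26862 ^ 2 * ((m : ℝ) + 1) ^ 6 * ((b + 2) * (w : ℝ) ^ (1 - δ / 2))) :=
            mul_le_mul_of_nonneg_left h3 hC0
        _ < 2 * (C + 1) * (4 * 26862 ^ 2 * ((m : ℝ) + 1) ^ 6 *
              ((b + 2) * (w : ℝ) ^ (1 - δ / 2))) := by nlinarith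
        _ = 2 * ((C + 1) * (4 * 26862 ^ 2) * (b + 2)) * ((m : ℝ) + 1) ^ 6 *
              (w : ℝ) ^ (1 - δ / 2) := by ring
        _ ≤ 2 ^ m := by
          refine le_trans (le_of_eq ?_) e4
          norm_num
    exact_mod_cast h1) l (fun i => bind X (L i))
    (fun i => (bind_size hK1 hX (L i)).trans (Nat.mul_le_mul_right _ (hsz i)))
  apply hfin
  rcases hcases with ⟨hd, i, hi⟩ | ⟨hd, i, χ, hχ, hi⟩
  · refine Or.inl ⟨bind_derivation X (hX2 b) hd, i, ?_⟩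
    rw [hi]
    rfl
  · refine Or.inr ⟨bind_derivation X (fun A hA => hA.elim) hd, i, bind X χ,
      bind_isConj X (hX2 b) hχ, ?_⟩
    rw [hi]
    rfl

/-- The tradeoff for all sizes of the lines. -/
theorem low_all (ε : ℝ) (hε : 0 < ε) (S : Set Rule) (hS : S.Finite) (hs : ∀ r ∈ S, r.Sound)
    (b : ℕ) : ∃ w₀ : ℕ, ∀ w : ℕ, w₀ ≤ w → ∀ (V E : Type) [Fintype V] [Fintype E] (G : MG V E),
    ConnG G → ¬ TT.HasTreeDec G.src G.dst w → ∀ γ : V → ZMod 2, ∑ v, γ v = 1 →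
    ∀ (s l : ℕ) (L : Fin l → Form E), (∀ i, (L i).size ≤ s) →
      (IsDerivation S (Hyp b (G.tseitin γ)) L ∧ (∃ i, L i = Form.ff) ∨
        IsDerivation S ∅ L ∧ ∃ i φ, IsConj (Hyp b (G.tseitin γ)) φ ∧ L i = Form.neg φ) →
      (w : ℝ) ^ (2 - ε) ≤ s * (1 + Real.log l) ∧ (w : ℝ) ^ (1 - ε) ≤ s := by
  obtain ⟨w₁, h₁⟩ := low (ε / 2) (by linarith) S hS hs b
  obtain ⟨w₂, h₂⟩ := low_line (ε / 2) (by linarith) S hS hs b
  refine ⟨w₁ + w₂ + 1, fun w hw V E _ _ G hG hT γ hγ s l L hsz hcases => ?_⟩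
  have hw1 : (1 : ℝ) ≤ w := by
    have : 1 ≤ w := by omega
    exact_mod_cast this
  have hw0 : (0 : ℝ) < w := by linarith
  have hs1 := h₂ w (by omega) V E G hG hT γ hγ s l L hsz hcases
  have hlog : 0 ≤ Real.log l := Real.log_natCast_nonneg l
  refine ⟨?_, (Real.rpow_le_rpow_of_exponent_le hw1 (by linarith)).trans hs1⟩
  rcases le_total w s with h | h
  · exact (Real.rpow_le_rpow_of_exponent_le hw1 (by linarith)).trans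
      (h₁ w (by omega) V E G hG hT γ hγ s l L h hsz hcases)
  · have h3 := h₁ w (by omega) V E G hG hT γ hγ w l L le_rfl (fun i => (hsz i).trans h) hcases
    have h4 : (w : ℝ) ^ (2 - ε / 2) = w * (w : ℝ) ^ (1 - ε / 2) := by
      nth_rewrite 2 [← Real.rpow_one (w : ℝ)]
      rw [← Real.rpow_add hw0]
      congr 1
      ring
    rw [h4] at h3
    have h5 : (w : ℝ) ^ (1 - ε / 2) ≤ 1 + Real.log l := le_of_mul_le_mul_left h3 hw0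
    calc (w : ℝ) ^ (2 - ε) = (w : ℝ) ^ (1 - ε / 2) * (w : ℝ) ^ (1 - ε / 2) := by
          rw [← Real.rpow_add hw0]
          congr 1
          ring
      _ ≤ s * (1 + Real.log l) := mul_le_mul hs1 h5 (by positivity) (Nat.cast_nonneg s)

end Pool.Agent.MP_9cec2c_lc.SLT
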