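import Pool.Agent.Lib.MP_9cec2c_lc.SLT.Low
import Pool.Agent.Lib.MP_9cec2c_lc.SL.SizeLB

/-!
Campaign SLT: the total size of a refutation.
-/

set_option autoImplicit false

open Finset
open scoped Classical

namespace Pool.Agent.MP_9cec2c_lc.SLT

open SL

/-- Powers with a positive real exponent exceed any bound. -/
private theorem LowSize_large {δ : ℝ} (hδ : 0 < δ) (B : ℝ) :
    ∃ w₀ : ℕ, ∀ w : ℕ, w₀ ≤ w → B ≤ (w : ℝ) ^ δ := by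
  have h := (tendsto_rpow_atTop hδ).comp tendsto_natCast_atTop_atTop
  obtain ⟨w₀, hw₀⟩ := Filter.eventually_atTop.1 (h.eventually_ge_atTop B)
  exact ⟨w₀, hw₀⟩

theorem low_size (ε : ℝ) (hε : 0 < ε) (S : Set Rule) (hS : S.Finite) (hs : ∀ r ∈ S, r.Sound)
    (b : ℕ) : ∃ w₀ : ℕ, ∀ w : ℕ, w₀ ≤ w → ∀ (V E : Type) [Fintype V] [Fintype E] (G : MG V E),
    ConnG G → ¬ TT.HasTreeDec G.src G.dst w → ∀ γ : V → ZMod 2, ∑ v, γ v = 1 →
    ∀ (l : ℕ) (L : Fin l → Form E),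
      (IsDerivation S (Hyp b (G.tseitin γ)) L ∧ (∃ i, L i = Form.ff) ∨
        IsDerivation S ∅ L ∧ ∃ i φ, IsConj (Hyp b (G.tseitin γ)) φ ∧ L i = Form.neg φ) →
      (w : ℝ) ^ (2 - ε) ≤ ∑ i, ((L i).size : ℝ) := by
  obtain ⟨e, he0, heε, he1⟩ : ∃ e : ℝ, 0 < e ∧ e ≤ ε ∧ e ≤ 1 :=
    ⟨min ε 1, lt_min hε one_pos, min_le_left _ _, min_le_right _ _⟩
  obtain ⟨w₁, hw₁⟩ := low (e / 2) (by positivity) S hS hs b
  have hd : 0 < e / 2 := by positivity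
  obtain ⟨w₂, hw₂⟩ := LowSize_large (half_pos hd) (1 + 4 / (e / 2))
  refine ⟨w₁ + w₂ + 1, fun w hw V E _ _ G hG hT γ hγ l L hL => ?_⟩
  have hN1 : (1 : ℝ) ≤ (w : ℝ) := by
    have : 1 ≤ w := by omega
    exact_mod_cast this
  have hN0 : (0 : ℝ) < (w : ℝ) := by linarith
  refine (Real.rpow_le_rpow_of_exponent_le hN1 (show 2 - ε ≤ 2 - e by linarith)).trans ?_
  by_contra hlt
  push Not at hlt
  have hl : 1 ≤ l := by
    rcases hL with ⟨_, i, _⟩ | ⟨_, i, _⟩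
    · exact Nat.one_le_of_lt i.2
    · exact Nat.one_le_of_lt i.2
  have hsize : ∀ i, ((L i).size : ℝ) ≤ (w : ℝ) ^ (2 - e) := fun i =>
    (Finset.single_le_sum (f := fun i => ((L i).size : ℝ)) (fun j _ => Nat.cast_nonneg _)
      (Finset.mem_univ i)).trans hlt.le
  have hcount : (l : ℝ) ≤ ∑ i, ((L i).size : ℝ) := by
    calc (l : ℝ) = ∑ _i : Fin l, (1 : ℝ) := by simp
      _ ≤ _ := Finset.sum_le_sum fun i _ => by exact_mod_cast form_size_pos (L i)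
  have hpos : (0 : ℝ) ≤ (w : ℝ) ^ (2 - e) := by positivity
  have hNs : (w : ℝ) ≤ (w : ℝ) ^ (2 - e) := by
    calc (w : ℝ) = (w : ℝ) ^ (1 : ℝ) := (Real.rpow_one _).symm
      _ ≤ _ := Real.rpow_le_rpow_of_exponent_le hN1 (by linarith)
  have h1 := hw₁ w (by omega) V E G hG hT γ hγ ⌊(w : ℝ) ^ (2 - e)⌋₊ l L
    (Nat.le_floor hNs) (fun i => Nat.le_floor (hsize i)) hL
  have hlog : 0 ≤ Real.log l := Real.log_nonneg (by exact_mod_cast hl)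
  have h2 : (w : ℝ) ^ (2 - e / 2) ≤ (w : ℝ) ^ (2 - e) * (1 + Real.log l) :=
    h1.trans (mul_le_mul_of_nonneg_right (Nat.floor_le hpos) (by linarith))
  have h3 : (w : ℝ) ^ (2 - e / 2) = (w : ℝ) ^ (2 - e) * (w : ℝ) ^ (e / 2) := by
    rw [← Real.rpow_add hN0]; ring_nf
  have hpos' : (0 : ℝ) < (w : ℝ) ^ (2 - e) := by positivity
  have h4 : (w : ℝ) ^ (e / 2) ≤ 1 + Real.log l := by
    rw [h3] at h2
    exact le_of_mul_le_mul_left h2 hpos'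
  have h5 := hw₂ w (by omega)
  have h6 : Real.log (w : ℝ) ≤ (w : ℝ) ^ (e / 2 / 2) / (e / 2 / 2) :=
    Real.log_le_rpow_div hN0.le (half_pos hd)
  have h7 : (w : ℝ) ^ (e / 2) = (w : ℝ) ^ (e / 2 / 2) * (w : ℝ) ^ (e / 2 / 2) := by
    rw [← Real.rpow_add hN0]; ring_nf
  have h8 : (0 : ℝ) < (w : ℝ) ^ (e / 2 / 2) := by positivity
  have h8' : (1 : ℝ) ≤ (w : ℝ) ^ (e / 2 / 2) := Real.one_le_rpow hN1 (by positivity)
  have h9 : 1 + 2 * Real.log (w : ℝ) ≤ (w : ℝ) ^ (e / 2) := by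
    rw [h7]
    calc 1 + 2 * Real.log (w : ℝ)
        ≤ (w : ℝ) ^ (e / 2 / 2) + 2 * ((w : ℝ) ^ (e / 2 / 2) / (e / 2 / 2)) := by linarith
      _ = (1 + 4 / (e / 2)) * (w : ℝ) ^ (e / 2 / 2) := by field_simp; ring
      _ ≤ _ := mul_le_mul_of_nonneg_right h5 h8.le
  have h10 : 2 * Real.log (w : ℝ) ≤ Real.log l := by linarith
  have hl0 : (0 : ℝ) < (l : ℝ) := by exact_mod_cast hl
  have h11 : (w : ℝ) ^ (2 : ℝ) ≤ (l : ℝ) := by
    rw [Real.rpow_def_of_pos hN0, mul_comm, ← Real.le_log_iff_exp_le hl0]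
    exact h10
  have h12 : (w : ℝ) ^ (2 - e) ≤ (w : ℝ) ^ (2 : ℝ) :=
    Real.rpow_le_rpow_of_exponent_le hN1 (by linarith)
  linarith

end Pool.Agent.MP_9cec2c_lc.SLT
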