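import Pool.Agent.Lib.MP_9cec2c_lc.SLT.Flow
import Pool.Agent.Lib.MP_9cec2c_lc.SLT.Decomp

set_option autoImplicit false

open Finset
open scoped Classical

namespace Pool.Agent.MP_9cec2c_lc.SLT

open SL

variable {V E Q : Type} [Fintype V] [Fintype E] [Fintype Q]

/-- Matchings across all bisections of the terminals. -/
theorem exists_mat (G : MG V E) {φ : Q → V} (hφ : Function.Injective φ) (hW : WLk G φ)
    (A : Finset Q) (hA : 2 * A.card = Fintype.card Q) : ∃ M : Mat G φ, ∀ q, M.μ q ∈ A ↔ q ∉ A := by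
  obtain ⟨f, h1, h2⟩ := exists_flow G hφ hW A hA
  exact exists_decomp G hφ A hA f h1 h2

end Pool.Agent.MP_9cec2c_lc.SLT
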