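import Pool.Agent.Lib.MP_9cec2c_lc.SLT.Def

/-!
TASK MixA: elementary properties of the matrices of lazy walks.

Rows: induction on `R`. Columns: the involution `μ R` is a bijection (`Function.Involutive.toPerm`,
`Equiv.sum_comp`). `psi_succ`: with `x_q = WM μ R q · - 1/k`: the new row is `(x_q + x_(μ q)) / 2` (the
constant does not change), `|(x + y)/2|² = (|x|² + |y|²)/2 - |x - y|²/4`, and `∑_q |x_(μ q)|² = ∑_q |x_q|²`.
`psi_zero`: `psi μ 0 = k ((1 - 1/k)² + (k-1)/k²) = k - 1 ≤ k`.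
-/

set_option autoImplicit false

open Finset
open scoped Classical

namespace Pool.Agent.MP_9cec2c_lc.SLT

open SL

variable {V E Q : Type} [Fintype V] [Fintype E] [Fintype Q]

theorem WM_nonneg (μ : ℕ → Q → Q) : ∀ R q z, 0 ≤ WM μ R q z := by
  intro R
  induction R with
  | zero =>
    intro q z
    simp only [WM]
    split_ifs <;> norm_num
  | succ R ih =>
    intro q z
    simp only [WM]
    have h1 := ih q z
    have h2 := ih (μ R q) z
    linarith

theorem WM_row (μ : ℕ → Q → Q) : ∀ R q, ∑ z, WM μ R q z = 1 := by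
  intro R
  induction R with
  | zero =>
    intro q
    simp only [WM]
    rw [Finset.sum_ite_eq]
    simp
  | succ R ih =>
    intro q
    simp only [WM]
    rw [← Finset.sum_div, Finset.sum_add_distrib, ih, ih]
    norm_num

private theorem MixA_reindex (m : Q → Q) (hm : ∀ q, m (m q) = q) (f : Q → ℝ) :
    ∑ q, f (m q) = ∑ q, f q := by
  have hinv : Function.Involutive m := hm
  exact Equiv.sum_comp hinv.toPerm f

theorem WM_col (μ : ℕ → Q → Q) (hμ : ∀ i q, μ i (μ i q) = q) : ∀ R z, ∑ q, WM μ R q z = 1 := by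
  intro R
  induction R with
  | zero =>
    intro z
    simp only [WM]
    rw [Finset.sum_ite_eq']
    simp
  | succ R ih =>
    intro z
    simp only [WM]
    rw [← Finset.sum_div, Finset.sum_add_distrib,
      MixA_reindex (μ R) (hμ R) (fun q => WM μ R q z), ih]
    norm_num

theorem WM_congr {μ ν : ℕ → Q → Q} : ∀ R, (∀ i < R, μ i = ν i) → WM μ R = WM ν R := by
  intro R
  induction R with
  | zero =>
    intro _
    funext q z
    simp only [WM]
  | succ R ih =>
    intro h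
    funext q z
    simp only [WM]
    rw [ih (fun i hi => h i (by omega)), h R (by omega)]

theorem psi_zero (μ : ℕ → Q → Q) : psi μ 0 ≤ Fintype.card Q := by
  unfold psi
  have hrow : ∀ q : Q, ∑ z, (WM μ 0 q z - 1 / (Fintype.card Q : ℝ)) ^ 2 ≤ 1 := by
    intro q
    have hk : 0 < (Fintype.card Q : ℝ) := by
      have : 0 < Fintype.card Q := Fintype.card_pos_iff.mpr ⟨q⟩
      exact_mod_cast this
    have h1 : ∀ z : Q, (WM μ 0 q z - 1 / (Fintype.card Q : ℝ)) ^ 2 =
        (if q = z then (1 - 2 / (Fintype.card Q : ℝ)) else 0) + 1 / (Fintype.card Q : ℝ) ^ 2 := by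
      intro z
      simp only [WM]
      split_ifs
      · field_simp
        ring
      · field_simp
        ring
    rw [Finset.sum_congr rfl fun z _ => h1 z, Finset.sum_add_distrib, Finset.sum_ite_eq]
    simp only [Finset.mem_univ, if_true, Finset.sum_const, Finset.card_univ, nsmul_eq_mul]
    have h2 : (Fintype.card Q : ℝ) * (1 / (Fintype.card Q : ℝ) ^ 2) = 1 / (Fintype.card Q : ℝ) := by
      field_simp
    rw [h2]
    have h3 : (0 : ℝ) ≤ 1 / (Fintype.card Q : ℝ) := by positivity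
    have h4 : (2 : ℝ) / (Fintype.card Q : ℝ) = 2 * (1 / (Fintype.card Q : ℝ)) := by ring
    rw [h4]
    linarith
  calc ∑ q : Q, ∑ z, (WM μ 0 q z - 1 / (Fintype.card Q : ℝ)) ^ 2 ≤ ∑ _q : Q, (1 : ℝ) :=
        Finset.sum_le_sum fun q _ => hrow q
    _ = (Fintype.card Q : ℝ) := by simp

theorem psi_succ (μ : ℕ → Q → Q) (R : ℕ) (hμ : ∀ q, μ R (μ R q) = q) :
    psi μ (R + 1) = psi μ R -
      (∑ q, ∑ z, (WM μ R q z - WM μ R (μ R q) z) ^ 2) / 4 := by
  unfold psi
  have h1 : ∀ q z : Q, (WM μ (R + 1) q z - 1 / (Fintype.card Q : ℝ)) ^ 2 =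
      (WM μ R q z - 1 / (Fintype.card Q : ℝ)) ^ 2 / 2 +
      (WM μ R (μ R q) z - 1 / (Fintype.card Q : ℝ)) ^ 2 / 2 -
      (WM μ R q z - WM μ R (μ R q) z) ^ 2 / 4 := by
    intro q z
    simp only [WM]
    ring
  rw [Finset.sum_congr rfl fun q _ => Finset.sum_congr rfl fun z _ => h1 q z]
  have h2 : ∀ q : Q, ∑ z, ((WM μ R q z - 1 / (Fintype.card Q : ℝ)) ^ 2 / 2 +
      (WM μ R (μ R q) z - 1 / (Fintype.card Q : ℝ)) ^ 2 / 2 -
      (WM μ R q z - WM μ R (μ R q) z) ^ 2 / 4) =
      (∑ z, (WM μ R q z - 1 / (Fintype.card Q : ℝ)) ^ 2) / 2 +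
      (∑ z, (WM μ R (μ R q) z - 1 / (Fintype.card Q : ℝ)) ^ 2) / 2 -
      (∑ z, (WM μ R q z - WM μ R (μ R q) z) ^ 2) / 4 := by
    intro q
    rw [Finset.sum_sub_distrib, Finset.sum_add_distrib, Finset.sum_div, Finset.sum_div,
      Finset.sum_div]
  rw [Finset.sum_congr rfl fun q _ => h2 q, Finset.sum_sub_distrib, Finset.sum_add_distrib,
    ← Finset.sum_div, ← Finset.sum_div, ← Finset.sum_div,
    MixA_reindex (μ R) hμ (fun q => ∑ z, (WM μ R q z - 1 / (Fintype.card Q : ℝ)) ^ 2)]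
  ring

end Pool.Agent.MP_9cec2c_lc.SLT
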