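import Pool.Agent.Lib.MP_9cec2c_lc.SLT.Def

/-!
TASK Path: if `b` is reachable from `a` by allowed darts, there is a chain from `a` to `b` with values
`0, 1, -1` which uses only allowed darts.

Let `Wk n v` mean: there is a sequence of `n` darts from `a` to `v` (inductive predicate or recursion on
`n`: `Wk 0 v ↔ v = a`, `Wk (n+1) v ↔ ∃ u, Wk n u ∧ Dart G al u v`). `ReflTransGen` gives `∃ n, Wk n b`.
Claim, by induction on `n`: if `Wk n v` and not `Wk i v` for `i < n`, there is `g` with the properties of the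
theorem (for `b = v`) and moreover `g e ≠ 0` implies that both ends of `e` satisfy `∃ i ≤ n, Wk i _`.
`n = 0`: `v = a`, `g = 0`. Step `n + 1`: `Wk n u`, `Dart G al u v` by the edge `e₀`; then not `Wk i u` for
`i < n` (otherwise `Wk (i+1) v`). Take `g₀` for `u`; `g₀ e₀ = 0`, because `v` is an end of `e₀` and not
`Wk i v` for `i ≤ n`. Let `g = g₀` except `g e₀ = 1` (if the dart is `(e₀, true)`) or `-1` (`(e₀, false)`):
`bdZ` changes by `± ((if src e₀ = w ..) - (if dst e₀ = w ..)) = [u = w] - [v = w]`.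
Then take the least `n` with `Wk n b` (`Nat.find`).
-/

set_option autoImplicit false

open Finset
open scoped Classical

namespace Pool.Agent.MP_9cec2c_lc.SLT

open SL

variable {V E Q : Type} [Fintype V] [Fintype E] [Fintype Q]

private def Path_Wk (G : MG V E) (al : E → Bool → Prop) (a : V) : ℕ → V → Prop
  | 0, v => v = a
  | n + 1, v => ∃ u, Path_Wk G al a n u ∧ Dart G al u v

private theorem Path_reach (G : MG V E) (al : E → Bool → Prop) {a b : V}
    (h : Relation.ReflTransGen (Dart G al) a b) : ∃ n, Path_Wk G al a n b := by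
  induction h with
  | refl => exact ⟨0, rfl⟩
  | tail _ hd ih =>
    obtain ⟨n, hn⟩ := ih
    exact ⟨n + 1, _, hn, hd⟩

private theorem Path_bd (G : MG V E) (g : E → ℤ) (e₀ : E) (c : ℤ) (h0 : g e₀ = 0) (w : V) :
    bdZ G (Function.update g e₀ c) w =
      bdZ G g w + c * ((if G.src e₀ = w then 1 else 0) - (if G.dst e₀ = w then 1 else 0)) := by
  have h1 : ∀ e, Function.update g e₀ c e = g e + (if e = e₀ then c else 0) := by
    intro e
    by_cases he : e = e₀
    · subst he
      rw [Function.update_self, if_pos rfl, h0, zero_add]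
    · rw [Function.update_of_ne he, if_neg he, add_zero]
  unfold bdZ
  rw [Finset.sum_congr rfl (fun e _ => by rw [h1 e, add_mul]), Finset.sum_add_distrib]
  congr 1
  rw [Finset.sum_eq_single e₀]
  · rw [if_pos rfl]
  · intro e _ he
    rw [if_neg he, zero_mul]
  · intro h
    exact absurd (Finset.mem_univ e₀) h

private theorem Path_step (G : MG V E) (al : E → Bool → Prop) (a : V) : ∀ (n : ℕ) (v : V),
    Path_Wk G al a n v → (∀ i, i < n → ¬ Path_Wk G al a i v) → ∃ g : E → ℤ,
    (∀ e, g e = 0 ∨ (g e = 1 ∧ al e true) ∨ (g e = -1 ∧ al e false)) ∧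
    (∀ w, bdZ G g w = (if a = w then 1 else 0) - (if v = w then 1 else 0)) ∧
    ∀ e, g e ≠ 0 → (∃ i, i ≤ n ∧ Path_Wk G al a i (G.src e)) ∧
      ∃ i, i ≤ n ∧ Path_Wk G al a i (G.dst e) := by
  intro n
  induction n with
  | zero =>
    intro v hv _
    have hva : v = a := hv
    subst hva
    refine ⟨fun _ => 0, fun e => Or.inl rfl, ?_, ?_⟩
    · intro w
      unfold bdZ
      simp
    · intro e he
      exact absurd rfl he
  | succ n ih =>
    intro v hv hmin
    have hv' := hv
    obtain ⟨u, hu, e₀, hd⟩ := hv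
    have humin : ∀ i, i < n → ¬ Path_Wk G al a i u := by
      intro i hi hw
      exact hmin (i + 1) (by omega) ⟨u, hw, e₀, hd⟩
    obtain ⟨g, hg, hgb, hgs⟩ := ih u hu humin
    have h0 : g e₀ = 0 := by
      by_contra hne
      obtain ⟨⟨i, hi, hwi⟩, ⟨j, hj, hwj⟩⟩ := hgs e₀ hne
      rcases hd with ⟨-, h2, -⟩ | ⟨-, h2, -⟩
      · rw [h2] at hwj
        exact hmin j (by omega) hwj
      · rw [h2] at hwi
        exact hmin i (by omega) hwi
    have hsup : ∀ c : ℤ, ∀ e, Function.update g e₀ c e ≠ 0 →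
        (∃ i, i ≤ n + 1 ∧ Path_Wk G al a i (G.src e)) ∧
          ∃ i, i ≤ n + 1 ∧ Path_Wk G al a i (G.dst e) := by
      intro c e he
      by_cases hee : e = e₀
      · subst hee
        rcases hd with ⟨h1, h2, -⟩ | ⟨h1, h2, -⟩
        · rw [h1, h2]
          exact ⟨⟨n, by omega, hu⟩, ⟨n + 1, le_rfl, hv'⟩⟩
        · rw [h1, h2]
          exact ⟨⟨n + 1, le_rfl, hv'⟩, ⟨n, by omega, hu⟩⟩
      · rw [Function.update_of_ne hee] at he
        obtain ⟨⟨i, hi, hwi⟩, ⟨j, hj, hwj⟩⟩ := hgs e he
        exact ⟨⟨i, by omega, hwi⟩, ⟨j, by omega, hwj⟩⟩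
    rcases hd with ⟨h1, h2, h3⟩ | ⟨h1, h2, h3⟩
    · refine ⟨Function.update g e₀ 1, ?_, ?_, hsup 1⟩
      · intro e
        by_cases hee : e = e₀
        · subst hee
          rw [Function.update_self]
          exact Or.inr (Or.inl ⟨rfl, h3⟩)
        · rw [Function.update_of_ne hee]
          exact hg e
      · intro w
        rw [Path_bd G g e₀ 1 h0 w, hgb w, h1, h2]
        ring
    · refine ⟨Function.update g e₀ (-1), ?_, ?_, hsup (-1)⟩
      · intro e
        by_cases hee : e = e₀
        · subst hee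
          rw [Function.update_self]
          exact Or.inr (Or.inr ⟨rfl, h3⟩)
        · rw [Function.update_of_ne hee]
          exact hg e
      · intro w
        rw [Path_bd G g e₀ (-1) h0 w, hgb w, h1, h2]
        ring

theorem exists_path (G : MG V E) (al : E → Bool → Prop) {a b : V}
    (h : Relation.ReflTransGen (Dart G al) a b) : ∃ g : E → ℤ,
    (∀ e, g e = 0 ∨ (g e = 1 ∧ al e true) ∨ (g e = -1 ∧ al e false)) ∧
    ∀ v, bdZ G g v = (if a = v then 1 else 0) - (if b = v then 1 else 0) := by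
  have h1 := Path_reach G al h
  obtain ⟨g, hg, hgb, -⟩ := Path_step G al a (Nat.find h1) b (Nat.find_spec h1)
    (fun i hi => Nat.find_min h1 hi)
  exact ⟨g, hg, hgb⟩

end Pool.Agent.MP_9cec2c_lc.SLT
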