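import Pool.Agent.Lib.MP_9cec2c_lc.SLT.Def

/-!
TASK SignA: random signs. `sgn σ z = 1` or `-1`, `ip x σ = ∑ z, x z * sgn σ z`; sums over all
`σ : Q → Bool` (there are `2^|Q|`).

* `ip_sq_sum`: `∑_σ (ip x σ)² = 2^|Q| ∑ x z²` (`∑_σ sgn σ z * sgn σ w = 0` for `z ≠ w`: flip the sign at `z`).
* `ip_four_sum`: `∑_σ (ip x σ)⁴ ≤ 9 · 2^|Q| (∑ x z²)²` (even with 3). By induction over the set of coordinates: for a
  finset `s` and `ip_s x σ = ∑ z ∈ s, ..`, adding a coordinate `z ∉ s`: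
  `∑_σ (t + x_z ε)⁴ = ∑_σ (t⁴ + 6 t² x_z² + x_z⁴)` (the odd powers of `ε = sgn σ z` cancel, since `t` does not depend
  on `σ z`) `≤ 3 · 2^|Q| (S² + 2 S x_z² + x_z⁴)`, `S = ∑ z ∈ s, x z²`. (Bonami of SL gives 9.)
-/

set_option autoImplicit false

open Finset
open scoped Classical

namespace Pool.Agent.MP_9cec2c_lc.SLT

open SL

noncomputable section

variable {V E Q : Type} [Fintype V] [Fintype E] [Fintype Q]

/-- A sign. -/
def sgn (σ : Q → Bool) (z : Q) : ℝ := if σ z = true then 1 else -1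

/-- The inner product of a vector and a vector of signs. -/
def ip (x : Q → ℝ) (σ : Q → Bool) : ℝ := ∑ z, x z * sgn σ z

omit [Fintype Q] in
private theorem SignA_sq (σ : Q → Bool) (z : Q) : sgn σ z ^ 2 = 1 := by
  unfold sgn
  split_ifs <;> norm_num

private def SignA_flip (z : Q) (σ : Q → Bool) : Q → Bool := Function.update σ z (!σ z)

omit [Fintype Q] in
private theorem SignA_flip_invol (z : Q) : Function.Involutive (SignA_flip z) := by
  intro σ
  unfold SignA_flip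
  funext w
  by_cases h : w = z
  · subst h; simp
  · simp [Function.update_of_ne h]

omit [Fintype Q] in
private theorem SignA_sgn_flip (z : Q) (σ : Q → Bool) : sgn (SignA_flip z σ) z = - sgn σ z := by
  unfold sgn SignA_flip
  cases h : σ z <;> simp [h]

omit [Fintype Q] in
private theorem SignA_sgn_flip_ne {z w : Q} (h : w ≠ z) (σ : Q → Bool) :
    sgn (SignA_flip z σ) w = sgn σ w := by
  unfold sgn SignA_flip
  rw [Function.update_of_ne h]

private theorem SignA_odd (z : Q) (f : (Q → Bool) → ℝ) (hf : ∀ σ, f (SignA_flip z σ) = f σ) :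
    ∑ σ, f σ * sgn σ z = 0 := by
  have h : ∑ σ, f σ * sgn σ z = ∑ σ, f (SignA_flip z σ) * sgn (SignA_flip z σ) z :=
    (Equiv.sum_comp (SignA_flip_invol z).toPerm (fun σ => f σ * sgn σ z)).symm
  have h2 : ∑ σ, f (SignA_flip z σ) * sgn (SignA_flip z σ) z = - ∑ σ, f σ * sgn σ z := by
    rw [← Finset.sum_neg_distrib]
    refine Finset.sum_congr rfl fun σ _ => ?_
    rw [hf, SignA_sgn_flip]
    ring
  linarith

omit [Fintype Q] in
private theorem SignA_part (x : Q → ℝ) (s : Finset Q) {z : Q} (hz : z ∉ s) (σ : Q → Bool) :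
    ∑ w ∈ s, x w * sgn (SignA_flip z σ) w = ∑ w ∈ s, x w * sgn σ w := by
  refine Finset.sum_congr rfl fun w hw => ?_
  have h : w ≠ z := by
    rintro rfl
    exact hz hw
  rw [SignA_sgn_flip_ne h]

private theorem SignA_card : ((Finset.univ : Finset (Q → Bool)).card : ℝ) = 2 ^ Fintype.card Q := by
  rw [Finset.card_univ, Fintype.card_fun, Fintype.card_bool]
  push_cast
  rfl

private theorem SignA_two (x : Q → ℝ) (s : Finset Q) :
    ∑ σ, (∑ z ∈ s, x z * sgn σ z) ^ 2 = 2 ^ Fintype.card Q * ∑ z ∈ s, x z ^ 2 := by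
  induction s using Finset.induction_on with
  | empty => simp
  | insert z s hz ih =>
    have h1 : ∀ σ : Q → Bool, (∑ w ∈ insert z s, x w * sgn σ w) ^ 2 =
        (∑ w ∈ s, x w * sgn σ w) ^ 2 + (2 * x z * ∑ w ∈ s, x w * sgn σ w) * sgn σ z + x z ^ 2 := by
      intro σ
      rw [Finset.sum_insert hz]
      have := SignA_sq σ z
      linear_combination (x z ^ 2) * this
    rw [Finset.sum_congr rfl fun σ _ => h1 σ, Finset.sum_add_distrib, Finset.sum_add_distrib, ih,
      SignA_odd z _ (fun σ => by rw [SignA_part x s hz]), Finset.sum_const, nsmul_eq_mul, SignA_card,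
      Finset.sum_insert hz]
    ring

private theorem SignA_four (x : Q → ℝ) (s : Finset Q) :
    ∑ σ, (∑ z ∈ s, x z * sgn σ z) ^ 4 ≤ 3 * 2 ^ Fintype.card Q * (∑ z ∈ s, x z ^ 2) ^ 2 := by
  induction s using Finset.induction_on with
  | empty => simp
  | insert z s hz ih =>
    have h1 : ∀ σ : Q → Bool, (∑ w ∈ insert z s, x w * sgn σ w) ^ 4 =
        (∑ w ∈ s, x w * sgn σ w) ^ 4 +
        (4 * x z * (∑ w ∈ s, x w * sgn σ w) ^ 3 + 4 * x z ^ 3 * ∑ w ∈ s, x w * sgn σ w) * sgn σ z +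
        6 * x z ^ 2 * (∑ w ∈ s, x w * sgn σ w) ^ 2 + x z ^ 4 := by
      intro σ
      rw [Finset.sum_insert hz]
      have h2 := SignA_sq σ z
      have h3 : sgn σ z ^ 3 = sgn σ z := by
        calc sgn σ z ^ 3 = sgn σ z ^ 2 * sgn σ z := by ring
          _ = sgn σ z := by rw [h2, one_mul]
      have h4 : sgn σ z ^ 4 = 1 := by
        calc sgn σ z ^ 4 = (sgn σ z ^ 2) ^ 2 := by ring
          _ = 1 := by rw [h2]; norm_num
      linear_combination (x z ^ 4) * h4 + 4 * (x z ^ 3) * (∑ w ∈ s, x w * sgn σ w) * h3 +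
        6 * (x z ^ 2) * (∑ w ∈ s, x w * sgn σ w) ^ 2 * h2
    rw [Finset.sum_congr rfl fun σ _ => h1 σ, Finset.sum_add_distrib, Finset.sum_add_distrib,
      Finset.sum_add_distrib,
      SignA_odd z _ (fun σ => by rw [SignA_part x s hz]), Finset.sum_const, nsmul_eq_mul, SignA_card,
      Finset.sum_insert hz, ← Finset.mul_sum, SignA_two]
    have h5 : 0 ≤ (2 : ℝ) ^ Fintype.card Q := by positivity
    have h6 : 0 ≤ (2 : ℝ) ^ Fintype.card Q * x z ^ 4 := by positivity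
    nlinarith [ih, h6]

theorem ip_sq_sum (x : Q → ℝ) : ∑ σ, ip x σ ^ 2 = 2 ^ Fintype.card Q * ∑ z, x z ^ 2 := by
  exact SignA_two x Finset.univ

theorem ip_four_sum (x : Q → ℝ) :
    ∑ σ, ip x σ ^ 4 ≤ 9 * 2 ^ Fintype.card Q * (∑ z, x z ^ 2) ^ 2 := by
  have h := SignA_four x Finset.univ
  have h2 : 0 ≤ (2 : ℝ) ^ Fintype.card Q * (∑ z, x z ^ 2) ^ 2 := by positivity
  have h3 : ∑ σ, ip x σ ^ 4 ≤ 3 * 2 ^ Fintype.card Q * (∑ z, x z ^ 2) ^ 2 := h
  nlinarith [h2, h3]

end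

end Pool.Agent.MP_9cec2c_lc.SLT
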