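import Pool.Agent.Lib.MP_9cec2c_lc.SLT.SignA

/-!
TASK SignB: tail bound for random signs.

* `ip_exp_sum`: `∑_σ exp (l * ip x σ) = ∏_z (exp (l x_z) + exp (-l x_z)) = 2^|Q| ∏ cosh (l x_z)
  ≤ 2^|Q| exp (l² ∑ x z² / 2)` (`Finset.prod_univ_sum` / `Fintype.piFinset`, `Real.cosh_le_exp_half_sq`).
* `ip_tail`: `#{σ | τ ∑ x z² < (ip x σ)²} ≤ 2 · exp (-τ/2) · 2^|Q|`: Markov for `exp (l ip)` and
  `exp (-l ip)`, `l = √τ / |x|` with `|x| = √(∑ x z²) > 0` (if `|x| = 0` then `x = 0`, `ip x σ = 0` and the set is empty);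
  `|ip| > √τ |x|` implies `exp (l |ip|) ≥ exp τ`, and `exp (l ip)` has the sum `≤ 2^|Q| exp (τ/2)`.
-/

set_option autoImplicit false

open Finset
open scoped Classical

namespace Pool.Agent.MP_9cec2c_lc.SLT

open SL

variable {V E Q : Type} [Fintype V] [Fintype E] [Fintype Q]

theorem ip_exp_sum (x : Q → ℝ) (l : ℝ) : ∑ σ, Real.exp (l * ip x σ) ≤
    2 ^ Fintype.card Q * Real.exp (l ^ 2 * (∑ z, x z ^ 2) / 2) := by
  have h1 : ∀ σ : Q → Bool, Real.exp (l * ip x σ) =
      ∏ z, (fun (z : Q) (b : Bool) => Real.exp (l * x z * (if b = true then 1 else -1))) z (σ z) := by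
    intro σ
    rw [← Real.exp_sum]
    congr 1
    unfold ip
    rw [Finset.mul_sum]
    refine Finset.sum_congr rfl fun z _ => ?_
    unfold sgn
    ring
  have h2 : ∑ σ : Q → Bool,
      ∏ z, (fun (z : Q) (b : Bool) => Real.exp (l * x z * (if b = true then 1 else -1))) z (σ z) =
      ∏ z, ∑ b : Bool, Real.exp (l * x z * (if b = true then 1 else -1)) := by
    rw [Finset.prod_univ_sum, Fintype.piFinset_univ]
  rw [Finset.sum_congr rfl fun σ _ => h1 σ, h2]
  have h3 : ∀ z, ∑ b : Bool, Real.exp (l * x z * (if b = true then 1 else -1)) ≤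
      2 * Real.exp ((l * x z) ^ 2 / 2) := by
    intro z
    have h4 : ∑ b : Bool, Real.exp (l * x z * (if b = true then 1 else -1)) =
        2 * Real.cosh (l * x z) := by
      rw [Fintype.sum_bool, Real.cosh_eq]
      simp
      ring
    rw [h4]
    have := Real.cosh_le_exp_half_sq (l * x z)
    linarith
  calc ∏ z, ∑ b : Bool, Real.exp (l * x z * (if b = true then 1 else -1))
      ≤ ∏ z, (2 * Real.exp ((l * x z) ^ 2 / 2)) :=
        Finset.prod_le_prod (fun z _ => Finset.sum_nonneg fun b _ => (Real.exp_pos _).le)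
          (fun z _ => h3 z)
    _ = 2 ^ Fintype.card Q * Real.exp (l ^ 2 * (∑ z, x z ^ 2) / 2) := by
        rw [Finset.prod_mul_distrib, Finset.prod_const, Finset.card_univ, ← Real.exp_sum]
        congr 2
        rw [Finset.mul_sum, Finset.sum_div]
        exact Finset.sum_congr rfl fun z _ => by ring

theorem ip_tail (x : Q → ℝ) {τ : ℝ} (hτ : 0 < τ) :
    ((univ.filter fun σ : Q → Bool => τ * ∑ z, x z ^ 2 < ip x σ ^ 2).card : ℝ) ≤
      2 * Real.exp (-τ / 2) * 2 ^ Fintype.card Q := by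
  set S : ℝ := ∑ z, x z ^ 2 with hS
  have hS0 : 0 ≤ S := Finset.sum_nonneg fun z _ => sq_nonneg _
  have hR : 0 ≤ 2 * Real.exp (-τ / 2) * 2 ^ Fintype.card Q := by positivity
  rcases hS0.eq_or_lt with h0 | h0
  · have hx : ∀ z, x z = 0 := by
      intro z
      have h1 := (Finset.sum_eq_zero_iff_of_nonneg (fun z _ => sq_nonneg (x z))).1
        (hS.symm.trans h0.symm) z (Finset.mem_univ z)
      exact pow_eq_zero_iff (two_ne_zero) |>.1 h1
    have hip : ∀ σ : Q → Bool, ip x σ = 0 := by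
      intro σ
      unfold ip
      exact Finset.sum_eq_zero fun z _ => by rw [hx z, zero_mul]
    have hemp : (univ.filter fun σ : Q → Bool => τ * S < ip x σ ^ 2) = ∅ := by
      refine Finset.filter_eq_empty_iff.2 fun σ _ => ?_
      rw [hip σ, ← h0]
      norm_num
    rw [hemp]
    simpa using hR
  · set l : ℝ := Real.sqrt τ / Real.sqrt S with hl
    have hsS : 0 < Real.sqrt S := Real.sqrt_pos.2 h0
    have hsτ : 0 < Real.sqrt τ := Real.sqrt_pos.2 hτ
    have hl0 : 0 < l := div_pos hsτ hsS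
    have hl2 : l ^ 2 * S = τ := by
      rw [hl, div_pow, Real.sq_sqrt hτ.le, Real.sq_sqrt hS0]
      field_simp
    have key : ∀ σ ∈ (univ.filter fun σ : Q → Bool => τ * S < ip x σ ^ 2),
        Real.exp τ ≤ Real.exp (l * ip x σ) + Real.exp ((-l) * ip x σ) := by
      intro σ hσ
      have h1 : τ * S < ip x σ ^ 2 := (Finset.mem_filter.1 hσ).2
      have h2 : τ ≤ l * |ip x σ| := by
        have h3 : τ ^ 2 ≤ (l * |ip x σ|) ^ 2 := by
          rw [mul_pow, sq_abs]
          have h4 : l ^ 2 * (τ * S) ≤ l ^ 2 * ip x σ ^ 2 :=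
            mul_le_mul_of_nonneg_left h1.le (sq_nonneg l)
          have h5 : l ^ 2 * (τ * S) = τ ^ 2 := by
            calc l ^ 2 * (τ * S) = (l ^ 2 * S) * τ := by ring
              _ = τ ^ 2 := by rw [hl2]; ring
          linarith
        exact (pow_le_pow_iff_left₀ hτ.le (mul_nonneg hl0.le (abs_nonneg _)) two_ne_zero).1 h3
      rcases abs_cases (ip x σ) with ⟨ha, _⟩ | ⟨ha, _⟩
      · rw [ha] at h2
        have := Real.exp_le_exp.2 h2
        have h6 := (Real.exp_pos ((-l) * ip x σ)).le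
        linarith
      · rw [ha] at h2
        have h7 : τ ≤ (-l) * ip x σ := by linarith
        have := Real.exp_le_exp.2 h7
        have h6 := (Real.exp_pos (l * ip x σ)).le
        linarith
    have hsum : ((univ.filter fun σ : Q → Bool => τ * S < ip x σ ^ 2).card : ℝ) * Real.exp τ ≤
        2 * (2 ^ Fintype.card Q * Real.exp (τ / 2)) := by
      calc ((univ.filter fun σ : Q → Bool => τ * S < ip x σ ^ 2).card : ℝ) * Real.exp τ
          = ∑ σ ∈ (univ.filter fun σ : Q → Bool => τ * S < ip x σ ^ 2), Real.exp τ := by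
            rw [Finset.sum_const, nsmul_eq_mul]
        _ ≤ ∑ σ ∈ (univ.filter fun σ : Q → Bool => τ * S < ip x σ ^ 2),
            (Real.exp (l * ip x σ) + Real.exp ((-l) * ip x σ)) := Finset.sum_le_sum key
        _ ≤ ∑ σ, (Real.exp (l * ip x σ) + Real.exp ((-l) * ip x σ)) :=
            Finset.sum_le_sum_of_subset_of_nonneg (Finset.filter_subset _ _)
              (fun σ _ _ => add_nonneg (Real.exp_pos _).le (Real.exp_pos _).le)
        _ = ∑ σ, Real.exp (l * ip x σ) + ∑ σ, Real.exp ((-l) * ip x σ) :=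
            Finset.sum_add_distrib
        _ ≤ 2 ^ Fintype.card Q * Real.exp (l ^ 2 * S / 2) +
            2 ^ Fintype.card Q * Real.exp ((-l) ^ 2 * S / 2) :=
            add_le_add (ip_exp_sum x l) (ip_exp_sum x (-l))
        _ = 2 * (2 ^ Fintype.card Q * Real.exp (τ / 2)) := by
            rw [neg_sq, hl2]; ring
    have hE : Real.exp (-τ / 2) * Real.exp τ = Real.exp (τ / 2) := by
      rw [← Real.exp_add]
      congr 1
      ring
    have hfin : ((univ.filter fun σ : Q → Bool => τ * S < ip x σ ^ 2).card : ℝ) * Real.exp τ ≤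
        (2 * Real.exp (-τ / 2) * 2 ^ Fintype.card Q) * Real.exp τ := by
      calc _ ≤ 2 * (2 ^ Fintype.card Q * Real.exp (τ / 2)) := hsum
        _ = (2 * Real.exp (-τ / 2) * 2 ^ Fintype.card Q) * Real.exp τ := by
            rw [← hE]; ring
    exact le_of_mul_le_mul_right hfin (Real.exp_pos τ)

end Pool.Agent.MP_9cec2c_lc.SLT
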