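import Pool.Agent.Lib.MP_9cec2c_lc.Mg.G021
import Pool.Agent.Lib.MP_9cec2c_lc.SLT.Match
import Pool.Agent.Lib.MP_9cec2c_lc.SL.GmProps

/-!
Campaign SLT: a well linked set of `2 ^ m` terminals in a graph without a tree decomposition.
-/

set_option autoImplicit false

open Finset
open scoped Classical

namespace Pool.Agent.MP_9cec2c_lc.SLT

open SL

variable {V E : Type} [Fintype V] [Fintype E]

theorem exists_term (G : MG V E) {w m : ℕ} (hm : 2 ^ m + 2 ^ m / 2 ≤ w)
    (h : ¬ TT.HasTreeDec G.src G.dst w) :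
    ∃ φ : Vm m → V, Function.Injective φ ∧ WLk G φ := by
  obtain ⟨T, hT, hWL⟩ := TT.exists_wellLinked hm h
  have e : Vm m ≃ T := Fintype.equivOfCardEq (by rw [card_Vm, Fintype.card_coe, hT])
  refine ⟨fun q => (e q : V), Subtype.val_injective.comp e.injective, ?_⟩
  intro U
  have h1 : (univ.filter fun q => ((e q : V)) ∈ U).card = (T ∩ U).card := by
    refine card_bij (fun q _ => (e q : V)) ?_ ?_ ?_
    · intro q hq
      rw [mem_filter] at hq
      exact mem_inter.2 ⟨(e q).2, hq.2⟩
    · intro q _ q' _ hqq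
      exact e.injective (Subtype.ext hqq)
    · intro v hv
      rw [mem_inter] at hv
      refine ⟨e.symm ⟨v, hv.1⟩, ?_, ?_⟩
      · rw [mem_filter, Equiv.apply_symm_apply]
        exact ⟨mem_univ _, hv.2⟩
      · rw [Equiv.apply_symm_apply]
  have h2 : (univ.filter fun q => ((e q : V)) ∉ U).card = (T \ U).card := by
    refine card_bij (fun q _ => (e q : V)) ?_ ?_ ?_
    · intro q hq
      rw [mem_filter] at hq
      exact mem_sdiff.2 ⟨(e q).2, hq.2⟩
    · intro q _ q' _ hqq
      exact e.injective (Subtype.ext hqq)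
    · intro v hv
      rw [mem_sdiff] at hv
      refine ⟨e.symm ⟨v, hv.1⟩, ?_, ?_⟩
      · rw [mem_filter, Equiv.apply_symm_apply]
        exact ⟨mem_univ _, hv.2⟩
      · rw [Equiv.apply_symm_apply]
  have h3 : (TT.cut G.src G.dst U).card = cutc G U := by
    unfold TT.cut cutc
    congr 1
  rw [h1, h2, ← h3]
  exact hWL U

end Pool.Agent.MP_9cec2c_lc.SLT
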