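import Pool.Agent.Lib.MP_9cec2c_lc.TTDefs
import Pool.Agent.Lib.MP_9cec2c_lc.SLT.Def

/-!
Campaign SLT, upper bound: tree decompositions as a structure, the edges at a bag and the cut of a set.
-/

set_option autoImplicit false

open Finset
open scoped Classical

namespace Pool.Agent.MP_9cec2c_lc.SLT

open SL

noncomputable section

variable {V E : Type} [Fintype V] [Fintype E]

/-- The edges with exactly one end in `U`. -/
def cutE (G : MG V E) (U : Finset V) : Finset E := univ.filter fun e => ¬ (G.src e ∈ U ↔ G.dst e ∈ U)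

/-- A tree decomposition with bags of at most `k` vertices (see `TT.HasTreeDec`). -/
structure TDec (G : MG V E) (k : ℕ) where
  /-- the nodes -/
  I : Type
  /-- there are finitely many nodes -/
  fin : Fintype I
  /-- the parent -/
  par : I → Option I
  /-- the rank -/
  rank : I → ℕ
  /-- the bag -/
  bag : I → Finset V
  hr : ∀ i j, par i = some j → rank j < rank i
  root : ∀ i j, par i = none → par j = none → i = j
  card : ∀ i, (bag i).card ≤ k
  cov : ∀ v, ∃ i, v ∈ bag i
  edge : ∀ e, ∃ i, G.src e ∈ bag i ∧ G.dst e ∈ bag i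
  sub : ∀ v i j, v ∈ bag i → v ∈ bag j → (∀ i', par i = some i' → v ∉ bag i') →
    (∀ j', par j = some j' → v ∉ bag j') → i = j

theorem tdec_of {G : MG V E} {k : ℕ} (h : TT.HasTreeDec G.src G.dst k) : Nonempty (TDec G k) := by
  obtain ⟨I, inst, par, rank, bag, h1, h2, h3, h4, h5, h6⟩ := h
  exact ⟨⟨I, inst, par, rank, bag, h1, h2, h3, h4, h5, h6⟩⟩

/-- The edges with an end in the bag `i`. -/
def TDec.X {G : MG V E} {k : ℕ} (T : TDec G k) (i : T.I) : Finset E :=
  univ.filter fun e => G.src e ∈ T.bag i ∨ G.dst e ∈ T.bag i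

end

end Pool.Agent.MP_9cec2c_lc.SLT
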