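import Pool.Agent.Lib.MP_9cec2c_lc.TVBram
import Pool.Agent.Lib.MP_9cec2c_lc.SLT.UDef

/-!
TASK USlot: slots for the edges. There are numbers `slot e < M` such that all edges at a bag have different
numbers, if every bag has at most `M` edges (`T.X i`).

For an edge `e` let `B e = {src e, dst e}` (connected: `TT.ConnOn`); the nodes `i` with `e ∈ T.X i` are those whose
bag meets `B e`, and they have a unique top `top e` (`TT.exists_top`, `TT.top_conn` of TVBram, or by hand: the nodes
with `src e` have a unique top, the nodes with `dst e` too, and some node contains both ends). From every node `i`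
with `e ∈ T.X i` the path up inside these nodes ends in `top e`.
(a) If `e, e' ∈ T.X i` and `rank (top e') ≤ rank (top e)`, then `e' ∈ T.X (top e)` (`TT.top_mem`).
(b) For every finite set `F` of edges there is `slot : E → ℕ` with `slot e < M` for all `e ∈ F` and
`slot e ≠ slot e'` for `e ≠ e'` in `F` with `e, e' ∈ T.X i` for some `i`: induction on the number of elements of `F`:
remove `e ∈ F` with the largest `rank (top e)` (`Finset.exists_max_image`); the edges of `F \ {e}` which share a bag
with `e` are in `T.X (top e) \ {e}` by (a), so there are at most `M - 1` of them and some number `< M` is free.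
-/

set_option autoImplicit false

open Finset
open scoped Classical

namespace Pool.Agent.MP_9cec2c_lc.SLT

open SL

variable {V E : Type} [Fintype V] [Fintype E]

omit [Fintype V] in
private theorem USlot_mem {G : MG V E} {k : ℕ} (T : TDec G k) (e : E) (i : T.I) :
    e ∈ T.X i ↔ (T.bag i ∩ {G.src e, G.dst e}).Nonempty := by
  unfold TDec.X
  rw [mem_filter]
  constructor
  · rintro ⟨-, h | h⟩
    · exact ⟨G.src e, by simp [h]⟩
    · exact ⟨G.dst e, by simp [h]⟩
  · rintro ⟨v, hv⟩
    rw [mem_inter, mem_insert, mem_singleton] at hv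
    obtain ⟨h1, rfl | rfl⟩ := hv
    · exact ⟨mem_univ _, Or.inl h1⟩
    · exact ⟨mem_univ _, Or.inr h1⟩

omit [Fintype V] [Fintype E] in
private theorem USlot_conn {G : MG V E} (e : E) : TT.ConnOn G.src G.dst {G.src e, G.dst e} := by
  have h1 : TT.Adj G.src G.dst {G.src e, G.dst e} (G.src e) (G.dst e) :=
    ⟨by simp, by simp, e, Or.inl ⟨rfl, rfl⟩⟩
  have h2 : TT.Adj G.src G.dst {G.src e, G.dst e} (G.dst e) (G.src e) :=
    ⟨by simp, by simp, e, Or.inr ⟨rfl, rfl⟩⟩
  intro u hu v hv
  rw [mem_insert, mem_singleton] at hu hv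
  rcases hu with rfl | rfl <;> rcases hv with rfl | rfl
  · exact Relation.ReflTransGen.refl
  · exact Relation.ReflTransGen.single h1
  · exact Relation.ReflTransGen.single h2
  · exact Relation.ReflTransGen.refl

private theorem USlot_top {G : MG V E} {k : ℕ} (T : TDec G k) (e : E) :
    ∃ y, e ∈ T.X y ∧ ∀ i, e ∈ T.X i →
      TT.Top T.par (fun i => (T.bag i ∩ {G.src e, G.dst e}).Nonempty) i y := by
  obtain ⟨i, hi, -⟩ := T.edge e
  have hi' : (T.bag i ∩ {G.src e, G.dst e}).Nonempty := ⟨G.src e, by simp [hi]⟩
  obtain ⟨y, hy, hy'⟩ := TT.exists_top T.hr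
    (T := fun i => (T.bag i ∩ {G.src e, G.dst e}).Nonempty) i hi'
  refine ⟨y, (USlot_mem T e y).2 hy', fun j hj => ?_⟩
  have hj' := (USlot_mem T e j).1 hj
  obtain ⟨z, hz, -⟩ := TT.exists_top T.hr
    (T := fun i => (T.bag i ∩ {G.src e, G.dst e}).Nonempty) j hj'
  have h := TT.top_conn T.hr T.cov T.edge T.sub (USlot_conn e) hi' hj' hy hz
  rw [h]
  exact hz

theorem exists_slot {G : MG V E} {k : ℕ} (T : TDec G k) {M : ℕ} (hM : ∀ i, (T.X i).card ≤ M) :
    ∃ slot : E → ℕ, (∀ e, slot e < M) ∧
      ∀ i, ∀ e ∈ T.X i, ∀ e' ∈ T.X i, slot e = slot e' → e = e' := by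
  choose top htop hTop using USlot_top T
  have hA : ∀ e e' : E, (∃ i, e ∈ T.X i ∧ e' ∈ T.X i) → T.rank (top e') ≤ T.rank (top e) →
      e' ∈ T.X (top e) := by
    rintro e e' ⟨i, hi, hi'⟩ hr
    exact (USlot_mem T e' (top e)).2 (TT.top_mem T.hr
      (T := fun i => (T.bag i ∩ {G.src e, G.dst e}).Nonempty)
      (T' := fun i => (T.bag i ∩ {G.src e', G.dst e'}).Nonempty)
      ((USlot_mem T e i).1 hi) ((USlot_mem T e' i).1 hi') (hTop e i hi) (hTop e' i hi') hr)
  have hB : ∀ (n : ℕ) (F : Finset E), F.card = n → ∃ slot : E → ℕ, (∀ e ∈ F, slot e < M) ∧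
      ∀ e ∈ F, ∀ e' ∈ F, (∃ i, e ∈ T.X i ∧ e' ∈ T.X i) → slot e = slot e' → e = e' := by
    intro n
    induction n with
    | zero =>
      intro F hF
      rw [card_eq_zero] at hF
      subst hF
      exact ⟨fun _ => 0, by simp, by simp⟩
    | succ n ih =>
      intro F hF
      have hne : F.Nonempty := by
        rw [← card_pos]
        omega
      obtain ⟨e, he, hmax⟩ := exists_max_image F (fun e => T.rank (top e)) hne
      obtain ⟨slot, hs1, hs2⟩ := ih (F.erase e) (by rw [card_erase_of_mem he]; omega)
      have hcard : ((((T.X (top e)).erase e).image slot)).card < (range M).card := by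
        rw [card_range]
        have h1 : ((T.X (top e)).erase e).card < (T.X (top e)).card :=
          card_erase_lt_of_mem (htop e)
        have h2 := card_image_le (s := (T.X (top e)).erase e) (f := slot)
        have h3 := hM (top e)
        omega
      obtain ⟨m, hm, hm'⟩ := exists_mem_notMem_of_card_lt_card hcard
      rw [mem_range] at hm
      have key : ∀ e' ∈ F, e' ≠ e → (∃ i, e ∈ T.X i ∧ e' ∈ T.X i) → slot e' ≠ m := by
        intro e' he' hne' hi hsl
        apply hm'
        rw [mem_image]
        exact ⟨e', mem_erase.2 ⟨hne', hA e e' hi (hmax e' he')⟩, hsl⟩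
      refine ⟨Function.update slot e m, ?_, ?_⟩
      · intro a ha
        by_cases hae : a = e
        · rw [hae, Function.update_self]
          exact hm
        · rw [Function.update_of_ne hae]
          exact hs1 a (mem_erase.2 ⟨hae, ha⟩)
      · intro a ha b hb hi hab
        by_cases hae : a = e
        · by_cases hbe : b = e
          · rw [hae, hbe]
          · rw [hae, Function.update_self, Function.update_of_ne hbe] at hab
            rw [hae] at hi
            exact absurd hab.symm (key b hb hbe hi)
        · by_cases hbe : b = e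
          · rw [hbe, Function.update_self, Function.update_of_ne hae] at hab
            rw [hbe] at hi
            obtain ⟨i, h1, h2⟩ := hi
            exact absurd hab (key a ha hae ⟨i, h2, h1⟩)
          · rw [Function.update_of_ne hae, Function.update_of_ne hbe] at hab
            exact hs2 a (mem_erase.2 ⟨hae, ha⟩) b (mem_erase.2 ⟨hbe, hb⟩) hi hab
  obtain ⟨slot, h1, h2⟩ := hB _ univ rfl
  exact ⟨slot, fun e => h1 e (mem_univ e), fun i e he e' he' h =>
    h2 e (mem_univ e) e' (mem_univ e') ⟨i, he, he'⟩ h⟩

end Pool.Agent.MP_9cec2c_lc.SLT
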