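import Pool.Agent.Lib.MP_9cec2c_lc.TVBram
import Pool.Agent.Lib.MP_9cec2c_lc.SLT.UDef

/-!
TASK UTree: induction along a tree decomposition.

For a vertex `v` the nodes `i` with `v ∈ bag i` have a unique top `top v` (`v ∈ bag (top v)`, the parent of
`top v` does not contain `v`): existence by going up (strong induction on `rank`, or `TT.exists_top`), uniqueness
is `T.sub`; from every node whose bag contains `v` the path up (inside the nodes that contain `v`) ends in
`top v`. `Anc i j`: the node `j` is reached from `i` by going up (reflexive transitive closure of
`par i = some j`). For a node `i` let `U i = {v | Anc (top v) i}` (the vertices all of whose bags are below `i`).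

(a) If exactly one end `u` of the edge `e` is in `U i`, `v` the other end, then `v ∈ bag i`, and `v ∈ bag j` if
`par i = some j`. Proof: let `t` be a node with `u, v ∈ bag t` (`T.edge`). `t` goes up to `top u`, which goes up to
`i`. `t` also goes up to `top v` inside the nodes which contain `v`. Of the two ancestors `i`, `top v` of `t` one is an
ancestor of the other (paths up are unique). `top v` does not go up to `i` (`v ∉ U i`), so `i ≠ top v` is on the path
from `t` to `top v`, before `top v`, so `i` and its parent contain `v`.
(b) So for a child `c` of `i` all edges of `cutE G (U c)` are in `T.X i`, and if `top v = i` then `cutE G {v} ⊆ T.X i`.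
(c) `U i` is the disjoint union of the sets `U c`, `c` child of `i`, and `{v}`, `top v = i`. `P (U i)` for all nodes `i`,
by strong induction on `(maximal rank) - rank i`: add the children one by one (`Finset.induction_on`; the union of
the sets `U c` for a set of children has all its cut edges in `T.X i`, since the cut of a union is contained in the
union of the cuts), then the single vertices one by one; `h2` with the node `i`.
(d) The root: if there is a vertex there is a node; going up ends in a node without parent, which is unique
(`T.root`), so `U root = univ`. If there is no vertex, `univ = ∅`.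
-/

set_option autoImplicit false

open Finset
open scoped Classical

namespace Pool.Agent.MP_9cec2c_lc.SLT

open SL

variable {V E : Type} [Fintype V] [Fintype E]

private theorem UTree_rank {I : Type} {par : I → Option I} {rank : I → ℕ}
    (hr : ∀ i j, par i = some j → rank j < rank i) {x y : I}
    (h : Relation.ReflTransGen (fun a b => par a = some b) x y) : rank y ≤ rank x := by
  induction h with
  | refl => exact le_rfl
  | @tail b c _ h1 ih => exact (hr b c h1).le.trans ih

private theorem UTree_path {I : Type} {par : I → Option I} {S : I → Prop} {t x i : I} (ht : S t)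
    (h : Relation.ReflTransGen (TT.Up par S) t x)
    (hi : Relation.ReflTransGen (fun a b => par a = some b) t i) :
    Relation.ReflTransGen (fun a b => par a = some b) x i ∨
      (S i ∧ ∀ j, par i = some j → S j) := by
  induction h using Relation.ReflTransGen.head_induction_on with
  | refl => exact Or.inl hi
  | @head a c h5 _ ih =>
    rcases Relation.ReflTransGen.cases_head hi with h6 | ⟨d, h6, h7⟩
    · subst h6
      refine Or.inr ⟨ht, fun j hj => ?_⟩
      have : c = j := Option.some.inj (h5.1.symm.trans hj)
      exact this ▸ h5.2
    · have h8 : c = d := Option.some.inj (h5.1.symm.trans h6)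
      subst h8
      exact ih h5.2 h7

private theorem UTree_forget {I : Type} {par : I → Option I} {S : I → Prop} {t x : I}
    (h : Relation.ReflTransGen (TT.Up par S) t x) :
    Relation.ReflTransGen (fun a b => par a = some b) t x := by
  induction h with
  | refl => exact Relation.ReflTransGen.refl
  | tail _ h1 ih => exact ih.tail h1.1

private theorem UTree_comp {I : Type} {par : I → Option I} {t x y : I}
    (h : Relation.ReflTransGen (fun a b => par a = some b) t x)
    (h' : Relation.ReflTransGen (fun a b => par a = some b) t y) :
    Relation.ReflTransGen (fun a b => par a = some b) x y ∨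
      Relation.ReflTransGen (fun a b => par a = some b) y x := by
  induction h using Relation.ReflTransGen.head_induction_on with
  | refl => exact Or.inl h'
  | @head a c h5 h9 ih =>
    rcases Relation.ReflTransGen.cases_head h' with h6 | ⟨d, h6, h7⟩
    · subst h6
      exact Or.inr (h9.head h5)
    · have h8 : c = d := Option.some.inj (h5.symm.trans h6)
      subst h8
      exact ih h7

omit [Fintype V] in
private theorem UTree_cut_union {G : MG V E} (A B : Finset V) :
    cutE G (A ∪ B) ⊆ cutE G A ∪ cutE G B := by
  intro e he
  simp only [cutE, mem_filter, mem_univ, true_and, mem_union] at he ⊢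
  tauto

theorem tree_ind {G : MG V E} {k : ℕ} (T : TDec G k) (P : Finset V → Prop) (h0 : P ∅)
    (h1 : ∀ v, P {v})
    (h2 : ∀ i A B, Disjoint A B → cutE G A ⊆ T.X i → cutE G B ⊆ T.X i → P A → P B → P (A ∪ B)) :
    P univ := by
  have := T.fin
  have htop : ∀ v, ∃ i, v ∈ T.bag i ∧ (∀ i', T.par i = some i' → v ∉ T.bag i') ∧
      ∀ t, v ∈ T.bag t → Relation.ReflTransGen (TT.Up T.par fun j => v ∈ T.bag j) t i := by
    intro v
    obtain ⟨i0, hi0⟩ := T.cov v
    obtain ⟨y, hy, hvy⟩ := TT.exists_top T.hr (T := fun j => v ∈ T.bag j) i0 hi0
    refine ⟨y, hvy, hy.2, fun t ht => ?_⟩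
    obtain ⟨z, hz, hvz⟩ := TT.exists_top T.hr (T := fun j => v ∈ T.bag j) t ht
    have : z = y := T.sub v z y hvz hvy hz.2 hy.2
    exact this ▸ hz.1
  choose tp htp1 htp2 htp3 using htop
  set Anc : T.I → T.I → Prop := Relation.ReflTransGen (fun a b => T.par a = some b) with hAnc
  set U : T.I → Finset V := fun i => univ.filter fun v => Anc (tp v) i with hU
  have hmem : ∀ i v, v ∈ U i ↔ Anc (tp v) i := by
    intro i v
    simp [hU]
  -- (a)
  have key : ∀ i e u v, (∀ x, (G.src e ∈ T.bag x ∧ G.dst e ∈ T.bag x) →
      (u ∈ T.bag x ∧ v ∈ T.bag x)) → u ∈ U i → v ∉ U i →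
      v ∈ T.bag i ∧ ∀ j, T.par i = some j → v ∈ T.bag j := by
    intro i e u v hx hu hv
    obtain ⟨t, ht⟩ := T.edge e
    obtain ⟨htu, htv⟩ := hx t ht
    have h3 : Anc t i := (UTree_forget (htp3 u t htu)).trans ((hmem i u).1 hu)
    rcases UTree_path (S := fun j => v ∈ T.bag j) htv (htp3 v t htv) h3 with h | h
    · exact absurd ((hmem i v).2 h) hv
    · exact h
  have keycut : ∀ i e, e ∈ cutE G (U i) → e ∈ T.X i ∧ ∀ j, T.par i = some j → e ∈ T.X j := by
    intro i e he
    have he' : ¬ (G.src e ∈ U i ↔ G.dst e ∈ U i) := by
      simpa [cutE] using he
    by_cases hs : G.src e ∈ U i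
    · have hd : G.dst e ∉ U i := fun h => he' ⟨fun _ => h, fun _ => hs⟩
      have := key i e (G.src e) (G.dst e) (fun x hx => hx) hs hd
      refine ⟨?_, fun j hj => ?_⟩
      · simp only [TDec.X, mem_filter, mem_univ, true_and]
        exact Or.inr this.1
      · simp only [TDec.X, mem_filter, mem_univ, true_and]
        exact Or.inr (this.2 j hj)
    · have hd : G.dst e ∈ U i := by
        by_contra h
        exact he' ⟨fun h' => absurd h' hs, fun h' => absurd h' h⟩
      have := key i e (G.dst e) (G.src e) (fun x hx => ⟨hx.2, hx.1⟩) hd hs
      refine ⟨?_, fun j hj => ?_⟩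
      · simp only [TDec.X, mem_filter, mem_univ, true_and]
        exact Or.inl this.1
      · simp only [TDec.X, mem_filter, mem_univ, true_and]
        exact Or.inl (this.2 j hj)
  have keyv : ∀ i v, tp v = i → cutE G {v} ⊆ T.X i := by
    intro i v hv e he
    have he' : ¬ (G.src e ∈ ({v} : Finset V) ↔ G.dst e ∈ ({v} : Finset V)) := by
      simpa only [cutE, mem_filter, mem_univ, true_and] using he
    simp only [mem_singleton] at he'
    have hb : v ∈ T.bag i := hv ▸ htp1 v
    simp only [TDec.X, mem_filter, mem_univ, true_and]
    by_cases hs : G.src e = v
    · exact Or.inl (hs ▸ hb)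
    · have hd : G.dst e = v := by
        by_contra h
        exact he' ⟨fun h' => absurd h' hs, fun h' => absurd h' h⟩
      exact Or.inr (hd ▸ hb)
  have hcutbi : ∀ i (C : Finset T.I), (∀ c ∈ C, T.par c = some i) →
      cutE G (C.biUnion U) ⊆ T.X i := by
    intro i C
    induction C using Finset.induction_on with
    | empty =>
      intro _ e he
      simp [cutE] at he
    | insert c C hc ih =>
      intro h e he
      rw [Finset.biUnion_insert] at he
      rcases mem_union.1 (UTree_cut_union _ _ he) with h3 | h3
      · exact (keycut c e h3).2 i (h c (mem_insert_self c C))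
      · exact ih (fun c' hc' => h c' (mem_insert_of_mem hc')) h3
  have main : ∀ n i, (∀ j, T.rank j < T.rank i + n) → P (U i) := by
    intro n
    induction n with
    | zero =>
      intro i h
      exact absurd (h i) (by simp)
    | succ n ih =>
      intro i hn
      have hch : ∀ C : Finset T.I, (∀ c ∈ C, T.par c = some i) → P (C.biUnion U) := by
        intro C
        induction C using Finset.induction_on with
        | empty =>
          intro _
          simpa using h0
        | insert c C hc ihC =>
          intro h
          have hci := h c (mem_insert_self c C)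
          have hC : ∀ c' ∈ C, T.par c' = some i := fun c' hc' => h c' (mem_insert_of_mem hc')
          rw [Finset.biUnion_insert]
          refine h2 i _ _ ?_ (fun e he => (keycut c e he).2 i hci) (hcutbi i C hC) ?_ (ihC hC)
          · rw [Finset.disjoint_left]
            intro v hv hv'
            obtain ⟨c', hc', hv''⟩ := mem_biUnion.1 hv'
            have hne : c ≠ c' := fun h => hc (h ▸ hc')
            have hup : ∀ a b : T.I, T.par a = some i → T.par b = some i → a ≠ b → ¬ Anc a b := by
              intro a b ha hb hab h
              rcases Relation.ReflTransGen.cases_head h with h6 | ⟨d, h6, h7⟩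
              · exact hab h6
              · have h8 : i = d := Option.some.inj (ha.symm.trans h6)
                subst h8
                exact absurd (UTree_rank T.hr h7) (not_le.2 (T.hr b i hb))
            rcases UTree_comp ((hmem c v).1 hv) ((hmem c' v).1 hv'') with h3 | h3
            · exact hup c c' hci (hC c' hc') hne h3
            · exact hup c' c (hC c' hc') hci hne.symm h3
          · refine ih c fun j => ?_
            have := hn j
            have h4 := T.hr c i hci
            omega
      have hv : ∀ S : Finset V, (∀ v ∈ S, tp v = i) →
          P ((univ.filter fun c => T.par c = some i).biUnion U ∪ S) ∧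
          cutE G ((univ.filter fun c => T.par c = some i).biUnion U ∪ S) ⊆ T.X i := by
        intro S
        induction S using Finset.induction_on with
        | empty =>
          intro _
          rw [Finset.union_empty]
          exact ⟨hch _ (by simp), hcutbi i _ (by simp)⟩
        | insert v S hvS ihS =>
          intro h
          have hvi := h v (mem_insert_self v S)
          obtain ⟨h3, h4⟩ := ihS fun v' hv' => h v' (mem_insert_of_mem hv')
          have heq : (univ.filter fun c => T.par c = some i).biUnion U ∪ insert v S =
              ((univ.filter fun c => T.par c = some i).biUnion U ∪ S) ∪ {v} := by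
            ext x
            simp only [mem_union, mem_insert, mem_singleton]
            tauto
          rw [heq]
          refine ⟨h2 i _ _ ?_ h4 (keyv i v hvi) h3 (h1 v), ?_⟩
          · rw [Finset.disjoint_singleton_right]
            intro hv
            rcases mem_union.1 hv with hv | hv
            · obtain ⟨c', hc', hv''⟩ := mem_biUnion.1 hv
              have hc'' : T.par c' = some i := (mem_filter.1 hc').2
              have h5 := (hmem c' v).1 hv''
              rw [hvi] at h5
              exact absurd (UTree_rank T.hr h5) (not_le.2 (T.hr c' i hc''))
            · exact hvS hv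
          · intro e he
            rcases mem_union.1 (UTree_cut_union _ _ he) with h5 | h5
            · exact h4 h5
            · exact keyv i v hvi h5
      have hUi : U i = (univ.filter fun c => T.par c = some i).biUnion U ∪
          univ.filter fun v => tp v = i := by
        ext v
        simp only [mem_union, mem_biUnion, mem_filter, mem_univ, true_and]
        rw [hmem i v]
        constructor
        · intro h
          rcases Relation.ReflTransGen.cases_tail h with h6 | ⟨c, h6, h7⟩
          · exact Or.inr h6.symm
          · exact Or.inl ⟨c, h7, (hmem c v).2 h6⟩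
        · rintro (⟨c, hc, hvc⟩ | h)
          · exact Relation.ReflTransGen.tail ((hmem c v).1 hvc) hc
          · rw [h]
      rw [hUi]
      exact (hv _ (by simp)).1
  rcases isEmpty_or_nonempty V with hV | ⟨⟨v0⟩⟩
  · have : (univ : Finset V) = ∅ := univ_eq_empty
    rw [this]
    exact h0
  · obtain ⟨i0, _⟩ := T.cov v0
    have hroot : ∀ x : T.I, ∃ r, Anc x r ∧ T.par r = none := by
      intro x
      obtain ⟨y, hy, _⟩ := TT.exists_top T.hr (T := fun _ => True) x trivial
      refine ⟨y, UTree_forget hy.1, ?_⟩
      rcases hp : T.par y with _ | z
      · rfl
      · exact absurd trivial (hy.2 z hp)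
    obtain ⟨r, _, hr⟩ := hroot i0
    have hUr : U r = univ := by
      rw [eq_univ_iff_forall]
      intro v
      obtain ⟨r', hr', hr''⟩ := hroot (tp v)
      have : r' = r := T.root r' r hr'' hr
      exact (hmem r v).2 (this ▸ hr')
    rw [← hUr]
    refine main (univ.sup T.rank + 1) r fun j => ?_
    have : T.rank j ≤ univ.sup T.rank := Finset.le_sup (f := T.rank) (mem_univ j)
    omega

end Pool.Agent.MP_9cec2c_lc.SLT
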