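import Pool.Agent.Lib.MP_9cec2c_lc.SLT.UMerge
import Pool.Agent.Lib.MP_9cec2c_lc.SLT.UTree
import Pool.Agent.Lib.MP_9cec2c_lc.SLT.USlot

/-!
TASK UAsm: the refutation along a tree decomposition.

`Γ = {φ | ∃ C ∈ G.tseitin γ, φ = clause C}`. If `E` is empty some clause is `ff` (see `upper_nat` in SL/UbF: copy).
Otherwise let `slot` be from `exists_slot` with `M = B 2^k` (`hM`).
`PL U` (definition `PL`): the set of all lines in `WL x k B [] ((cutE G U).image slot) (∑ v ∈ U, γ v)` for some
`x : ℕ → E` with `x (slot e) = e` for all `e ∈ cutE G U`. If `x`, `x'` agree on `S` then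
`WL x k B [] S g = WL x' k B [] S g` (`leaf x S = leaf x' S`).
Let `Pr U := U = ∅ ∨ Reach mRules Γ s ∅ (PL U) ((2 |U| - 1) c)` with
`c = 2 (B 2^k) + 4^B (B + 4) + 2^(Δ+1) 2^B (2k + 9 + B) + 2^B (B + 1) + k + 1`.
* `Pr {v}`: `cutE G {v} = G.inc v`. Some bag `i` contains `v`, and `G.inc v ⊆ T.X i`, so `slot` is injective on it;
  `x` = inverse of `slot` on `T.X i`. `start` and `vertex` of SL/UbE, UbD (with `reach_rules ub_sub`), `I` = the list of the
  slots of `G.inc v`, as in `upper_nat`; `tog ∅ I` = the set of the slots (`I` has no duplicates), `g = 0`.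
* `Pr A`, `Pr B`, disjoint, both cuts in `T.X i`: if one is empty nothing is to be done; otherwise `merge` with `x` = the
  inverse of `slot` on `T.X i`: `cutE G (A ∪ B) = symmDiff (cutE G A) (cutE G B)` for disjoint sets, and images under an
  injective map respect symmetric differences; `(2|A| - 1) c + (2|B| - 1) c + c = (2|A ∪ B| - 1) c`.
* `tree_ind`: `Pr univ`; `univ ≠ ∅` since `∑ γ = 1`; `cutE G univ = ∅`, so `PL univ = WL x k B [] ∅ 1`, and `finish` of
  SL/UbE gives `ff`. Finally `Chain.isDerivation` (SL/UbF) as at the end of `upper_nat`.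
-/

set_option autoImplicit false

open Finset
open scoped Classical

namespace Pool.Agent.MP_9cec2c_lc.SLT

open SL SL.Ub

variable {V E : Type} [Fintype V] [Fintype E]

private theorem UAsm_leaf_congr {E : Type} {x x' : ℕ → E} {S : Finset ℕ}
    (h : ∀ i ∈ S, x i = x' i) : leaf x S = leaf x' S := by
  funext i
  unfold leaf
  by_cases h1 : i ∈ S
  · rw [if_pos h1, if_pos h1, h i h1]
  · rw [if_neg h1, if_neg h1]

private theorem UAsm_WL_congr {E : Type} {x x' : ℕ → E} {S : Finset ℕ} (k B : ℕ) (g : ZMod 2)
    (h : ∀ i ∈ S, x i = x' i) : WL x k B [] S g ⊆ WL x' k B [] S g := by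
  rintro φ ⟨α, b, hα, hg, rfl⟩
  refine ⟨α, b, hα, hg, ?_⟩
  have hα' : α = [] := by simpa using hα
  subst hα'
  rw [UAsm_leaf_congr h, ctx, ctx]
  · simp
  · simp

private theorem UAsm_tog : ∀ I : List ℕ, I.Nodup → tog ∅ I = I.toFinset
  | [], _ => rfl
  | i :: I, h => by
    have h1 := UAsm_tog I (List.nodup_cons.mp h).2
    have h2 := (List.nodup_cons.mp h).1
    rw [tog, h1, tgl]
    ext j
    simp only [Finset.mem_symmDiff, List.mem_toFinset, Finset.mem_singleton, List.mem_cons]
    by_cases hj : j = i
    · subst hj
      simp [h2]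
    · simp [hj]

private theorem UAsm_clause_eq {E : Type} (x : ℕ → E) (idx : E → ℕ) (f : E → Bool) :
    ∀ L : List E, (∀ e ∈ L, x (idx e) = e) →
      clause (L.map fun e => (e, !f e)) = ctx x (L.map idx) (L.map f)
  | [], _ => by simp [clause, ctx]
  | e :: L, hx => by
    have ih := UAsm_clause_eq x idx f L fun e' he' => hx e' (List.mem_cons_of_mem _ he')
    rw [List.map_cons, List.map_cons, List.map_cons, ctx, ← ih, hx e List.mem_cons_self]
    unfold clause
    rw [List.foldr_cons]
    congr 1
    unfold Form.lit
    cases f e <;> simp [Ub.sg]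

/-- The lines of a set of vertices. -/
private def UAsm_PL (G : MG V E) (slot : E → ℕ) (k B : ℕ) (γ : V → ZMod 2) (U : Finset V) :
    Set (Form E) :=
  {φ | ∃ x : ℕ → E, (∀ e ∈ cutE G U, x (slot e) = e) ∧
    φ ∈ WL x k B [] ((cutE G U).image slot) (∑ v ∈ U, γ v)}

omit [Fintype V] in
private theorem UAsm_PL_sub (G : MG V E) (slot : E → ℕ) (k B : ℕ) (γ : V → ZMod 2)
    (U : Finset V) {x : ℕ → E} (hx : ∀ e ∈ cutE G U, x (slot e) = e) :
    UAsm_PL G slot k B γ U ⊆ WL x k B [] ((cutE G U).image slot) (∑ v ∈ U, γ v) := by
  rintro φ ⟨x', hx', hφ⟩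
  refine UAsm_WL_congr k B _ ?_ hφ
  intro i hi
  obtain ⟨e, he, rfl⟩ := Finset.mem_image.mp hi
  rw [hx e he, hx' e he]

omit [Fintype V] in
private theorem UAsm_sub_PL (G : MG V E) (slot : E → ℕ) (k B : ℕ) (γ : V → ZMod 2)
    (U : Finset V) {x : ℕ → E} (hx : ∀ e ∈ cutE G U, x (slot e) = e) :
    WL x k B [] ((cutE G U).image slot) (∑ v ∈ U, γ v) ⊆ UAsm_PL G slot k B γ U :=
  fun _ hφ => ⟨x, hx, hφ⟩

omit [Fintype E] in
private theorem UAsm_symm {X Y Z : Finset E} (slot : E → ℕ) (hX : X ⊆ Z) (hY : Y ⊆ Z)
    (hinj : ∀ e ∈ Z, ∀ e' ∈ Z, slot e = slot e' → e = e') :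
    (symmDiff X Y).image slot = symmDiff (X.image slot) (Y.image slot) := by
  ext n
  simp only [Finset.mem_symmDiff, Finset.mem_image]
  constructor
  · rintro ⟨e, (⟨h1, h2⟩ | ⟨h1, h2⟩), rfl⟩
    · refine Or.inl ⟨⟨e, h1, rfl⟩, ?_⟩
      rintro ⟨e', h3, h4⟩
      exact h2 (hinj e' (hY h3) e (hX h1) h4 ▸ h3)
    · refine Or.inr ⟨⟨e, h1, rfl⟩, ?_⟩
      rintro ⟨e', h3, h4⟩
      exact h2 (hinj e' (hX h3) e (hY h1) h4 ▸ h3)
  · rintro (⟨⟨e, h1, rfl⟩, h2⟩ | ⟨⟨e, h1, rfl⟩, h2⟩)
    · exact ⟨e, Or.inl ⟨h1, fun h3 => h2 ⟨e, h3, rfl⟩⟩, rfl⟩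
    · exact ⟨e, Or.inr ⟨h1, fun h3 => h2 ⟨e, h3, rfl⟩⟩, rfl⟩

omit [Fintype V] in
private theorem UAsm_cut_union (G : MG V E) {A B : Finset V} (h : Disjoint A B) :
    cutE G (A ∪ B) = symmDiff (cutE G A) (cutE G B) := by
  ext e
  simp only [cutE, Finset.mem_symmDiff, Finset.mem_filter, Finset.mem_univ, true_and,
    Finset.mem_union]
  have h1 : ¬ (G.src e ∈ A ∧ G.src e ∈ B) := fun h1 =>
    Finset.disjoint_left.mp h h1.1 h1.2
  have h2 : ¬ (G.dst e ∈ A ∧ G.dst e ∈ B) := fun h1 =>
    Finset.disjoint_left.mp h h1.1 h1.2
  tauto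

theorem upper_tree (G : MG V E) {Δ w B k : ℕ} (hG : G.DegLE Δ) (T : TDec G w) (γ : V → ZMod 2)
    (hγ : ∑ v, γ v = 1) (hB : 1 ≤ B) (hM : ∀ i, (T.X i).card ≤ B * 2 ^ k) :
    ∃ (l : ℕ) (L : Fin l → Form E),
      IsDerivation mRules {φ | ∃ C ∈ G.tseitin γ, φ = clause C} L ∧ (∃ i, L i = Form.ff) ∧
      (∀ i, (L i).size ≤ 10 * (B * 4 ^ k) + 13 + Δ) ∧
      l ≤ 2 * Fintype.card V * (2 * (B * 2 ^ k) + 4 ^ B * (B + 4) +
        2 ^ (Δ + 1) * 2 ^ B * (2 * k + 9 + B) + 2 ^ B * (B + 1) + k + 1) := by
  set Γ : Set (Form E) := {φ | ∃ C ∈ G.tseitin γ, φ = clause C} with hΓ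
  set s := 10 * (B * 4 ^ k) + 13 + Δ with hs
  set c := 2 * (B * 2 ^ k) + 4 ^ B * (B + 4) + 2 ^ (Δ + 1) * 2 ^ B * (2 * k + 9 + B) +
    2 ^ B * (B + 1) + k + 1 with hc
  have hV : 1 ≤ Fintype.card V := by
    rcases isEmpty_or_nonempty V with h | h
    · exfalso
      rw [Finset.univ_eq_empty, Finset.sum_empty] at hγ
      exact zero_ne_one hγ
    · exact Fintype.card_pos
  have h4k : 4 ^ k ≤ B * 4 ^ k := Nat.le_mul_of_pos_left _ hB
  have key : Reach mRules Γ s ∅ {Form.ff} (2 * Fintype.card V * c) := by
    have mem_cl : ∀ (v : V) (T : Finset E), T ⊆ G.inc v → (T.card : ZMod 2) ≠ γ v →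
        clause ((G.inc v).toList.map fun e => (e, decide (e ∉ T))) ∈ Γ := by
      intro v T hT hc
      refine ⟨_, ?_, rfl⟩
      unfold MG.tseitin
      rw [List.mem_flatMap]
      refine ⟨v, by simp, ?_⟩
      unfold MG.vclauses
      rw [List.mem_map]
      refine ⟨T, ?_, ?_⟩
      · simp [hT, hc]
      · refine List.map_congr_left fun e _ => ?_
        congr
    rcases isEmpty_or_nonempty E with hE | hE
    · -- no edges: a clause is empty
      obtain ⟨v, hv⟩ : ∃ v, γ v ≠ 0 := by
        by_contra hcon
        push Not at hcon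
        rw [Finset.sum_eq_zero fun v _ => hcon v] at hγ
        exact zero_ne_one hγ
      have h1 := mem_cl v ∅ (Finset.empty_subset _)
        (by rw [Finset.card_empty, Nat.cast_zero]; exact fun h => hv h.symm)
      have h2 : (G.inc v).toList = [] := by
        rw [Finset.toList_eq_nil]
        exact Finset.eq_empty_of_isEmpty _
      rw [h2, List.map_nil] at h1
      have h3 : clause ([] : List (E × Bool)) = Form.ff := rfl
      rw [h3] at h1
      refine (Reach.step (Or.inl h1) (by simp only [Form.size]; omega)).mono le_rfl le_rfl ?_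
      have : 0 < 2 * Fintype.card V * c := by
        have : 0 < c := by omega
        positivity
      omega
    · obtain ⟨slot, hslot, hinj⟩ := exists_slot T hM
      have hxi : ∀ i, ∃ x : ℕ → E, ∀ e ∈ T.X i, x (slot e) = e := by
        intro i
        refine ⟨fun n => if h : ∃ e ∈ T.X i, slot e = n then h.choose else
          Classical.arbitrary E, fun e he => ?_⟩
        have h : ∃ e' ∈ T.X i, slot e' = slot e := ⟨e, he, rfl⟩
        simp only [dif_pos h]
        exact hinj i _ h.choose_spec.1 e he h.choose_spec.2
      let Pr : Finset V → Prop := fun U => U = ∅ ∨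
        Reach mRules Γ s ∅ (UAsm_PL G slot k B γ U) ((2 * U.card - 1) * c)
      have hPr : Pr univ := by
        refine tree_ind T Pr (Or.inl rfl) ?_ ?_
        · -- one vertex
          intro v
          refine Or.inr ?_
          have hcut : cutE G {v} = G.inc v := by
            ext e
            simp only [cutE, MG.inc, Finset.mem_filter, Finset.mem_univ, true_and,
              Finset.mem_singleton]
          obtain ⟨i, hi⟩ := T.cov v
          have hsub : G.inc v ⊆ T.X i := by
            intro e he
            rw [MG.inc, Finset.mem_filter] at he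
            rw [TDec.X, Finset.mem_filter]
            refine ⟨Finset.mem_univ _, ?_⟩
            by_cases h1 : G.src e = v
            · left
              rw [h1]
              exact hi
            · right
              by_cases h2 : G.dst e = v
              · rw [h2]
                exact hi
              · exact absurd (iff_of_false h1 h2) he.2
          obtain ⟨x, hx⟩ := hxi i
          set I : List ℕ := (G.inc v).toList.map slot with hI
          have hInd : I.Nodup := by
            rw [hI]
            refine (List.nodup_map_iff_inj_on (Finset.nodup_toList _)).mpr ?_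
            intro e he e' he' hee
            exact hinj i e (hsub (Finset.mem_toList.mp he)) e' (hsub (Finset.mem_toList.mp he'))
              hee
          have htog : tog ∅ I = (G.inc v).image slot := by
            rw [UAsm_tog I hInd, hI]
            ext n
            simp [List.mem_toFinset]
          have hlen : I.length = (G.inc v).card := by
            rw [hI, List.length_map, Finset.length_toList]
          have hcl : ∀ α : List Bool, α.length = I.length → psum α ≠ γ v → ctx x I α ∈ Γ := by
            intro α hα hne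
            obtain ⟨f, hf⟩ := exists_map (G.inc v).toList (Finset.nodup_toList _) α
              (by rw [hα, hlen, Finset.length_toList])
            set T := (G.inc v).filter fun e => f e = true with hT
            have hcard : (T.card : ZMod 2) = psum α := by
              rw [← hf, psum_map, Finset.sum_map_toList, hT, Finset.card_filter]
              push_cast
              rfl
            have h1 := mem_cl v T (Finset.filter_subset _ _) (by rw [hcard]; exact hne)
            have h2 : ((G.inc v).toList.map fun e => (e, decide (e ∉ T))) =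
                (G.inc v).toList.map fun e => (e, !f e) := by
              refine List.map_congr_left fun e he => ?_
              rw [Finset.mem_toList] at he
              congr 1
              rw [hT]
              simp only [Finset.mem_filter, he, true_and]
              cases f e <;> simp
            rw [h2, UAsm_clause_eq x slot f _
              (fun e he => hx e (hsub (Finset.mem_toList.mp he))), hf] at h1
            exact h1
          have r1 := reach_rules ub_sub (npar (Γ := Γ) (V := E) (s := s) k (by omega))
          have r2 := reach_rules ub_sub (start (Γ := Γ) (s := s) x k B (by omega))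
          have r3 := reach_rules ub_sub (vertex (Γ := Γ) (s := s) x k B Δ I ∅ 0 (γ v)
            (by
              intro n hn
              obtain ⟨e, _, rfl⟩ := List.mem_map.mp hn
              exact hslot e)
            (by rw [hlen]; exact inc_card G hG v) (by omega) hcl)
          rw [htog, zero_add] at r3
          refine ((r1.trans (r2.mono Set.subset_union_right le_rfl le_rfl)).trans
            (r3.mono Set.subset_union_right le_rfl le_rfl)).mono le_rfl ?_ ?_
          · refine (UAsm_PL_sub G slot k B γ {v} (x := x) ?_).trans ?_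
            · rw [hcut]
              exact fun e he => hx e (hsub he)
            · rw [hcut, Finset.sum_singleton]
          · rw [Finset.card_singleton, hc]
            have : 2 ^ (Δ + 1) * 2 ^ B * (2 * k + 8 + B) ≤
                2 ^ (Δ + 1) * 2 ^ B * (2 * k + 9 + B) := by
              gcongr
              omega
            omega
        · -- two sets of vertices
          intro i A A' hdis hA hA' hPA hPA'
          rcases hPA with rfl | rA
          · rw [Finset.empty_union]
            exact hPA'
          rcases hPA' with rfl | rA'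
          · rw [Finset.union_empty]
            exact Or.inr rA
          by_cases hA0 : A = ∅
          · subst hA0
            rw [Finset.empty_union]
            exact Or.inr rA'
          by_cases hA0' : A' = ∅
          · subst hA0'
            rw [Finset.union_empty]
            exact Or.inr rA
          refine Or.inr ?_
          obtain ⟨x, hx⟩ := hxi i
          have hcut := UAsm_cut_union G hdis
          have himg := UAsm_symm slot hA hA' (hinj i)
          have hsum : ∑ v ∈ A ∪ A', γ v = ∑ v ∈ A, γ v + ∑ v ∈ A', γ v :=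
            Finset.sum_union hdis
          have r1 := rA.mono le_rfl (UAsm_sub_PL G slot k B γ A (x := x)
            (fun e he => hx e (hA he))) le_rfl
          have r2 := rA'.mono le_rfl (UAsm_sub_PL G slot k B γ A' (x := x)
            (fun e he => hx e (hA' he))) le_rfl
          have r3 := merge (Γ := Γ) (s := s) x k B ((cutE G A).image slot)
            ((cutE G A').image slot) (∑ v ∈ A, γ v) (∑ v ∈ A', γ v) hB (by omega)
          refine ((r1.union r2).trans (r3.mono Set.subset_union_right le_rfl le_rfl)).mono le_rfl
            ?_ ?_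
          · refine (UAsm_PL_sub G slot k B γ (A ∪ A') (x := x) ?_).trans ?_
            · intro e he
              apply hx e
              rw [hcut, Finset.mem_symmDiff] at he
              rcases he with he | he
              · exact hA he.1
              · exact hA' he.1
            · rw [hcut, himg, hsum]
          · rw [Finset.card_union_of_disjoint hdis]
            have h1 : 1 ≤ A.card := Finset.card_pos.mpr (Finset.nonempty_iff_ne_empty.mpr hA0)
            have h2 : 1 ≤ A'.card := Finset.card_pos.mpr (Finset.nonempty_iff_ne_empty.mpr hA0')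
            have e1 : (2 * (A.card + A'.card) - 1) * c =
                (2 * A.card - 1) * c + (2 * A'.card - 1) * c + c := by
              obtain ⟨a, ha⟩ := Nat.exists_eq_add_of_le h1
              obtain ⟨a', ha'⟩ := Nat.exists_eq_add_of_le h2
              rw [ha, ha']
              have e2 : 2 * (1 + a + (1 + a')) - 1 = 2 * a + 2 * a' + 3 := by omega
              have e3 : 2 * (1 + a) - 1 = 2 * a + 1 := by omega
              have e4 : 2 * (1 + a') - 1 = 2 * a' + 1 := by omega
              rw [e2, e3, e4]
              ring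
            rw [e1]
            omega
      have hne : (univ : Finset V) ≠ ∅ := by
        intro h
        rw [h, Finset.sum_empty] at hγ
        exact zero_ne_one hγ
      rcases hPr with h | r
      · exact absurd h hne
      let x : ℕ → E := fun _ => Classical.arbitrary E
      have hcut : cutE G (univ : Finset V) = ∅ := by
        ext e
        simp [cutE]
      have r1 := r.mono le_rfl (UAsm_sub_PL G slot k B γ univ (x := x)
        (by rw [hcut]; intro e he; simp at he)) le_rfl
      rw [hcut, Finset.image_empty, hγ] at r1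
      have r0 := reach_rules ub_sub (npar (Γ := Γ) (V := E) (s := s) k (by omega))
      have r2 := reach_rules ub_sub (finish (Γ := Γ) (s := s) x k B (by omega))
      refine ((r0.union r1).trans (r2.mono Set.subset_union_right le_rfl le_rfl)).mono le_rfl
        le_rfl ?_
      rw [Finset.card_univ]
      have e1 : 2 * Fintype.card V * c = (2 * Fintype.card V - 1) * c + c := by
        obtain ⟨a, ha⟩ := Nat.exists_eq_add_of_le hV
        rw [ha]
        have e3 : 2 * (1 + a) - 1 = 2 * a + 1 := by omega
        rw [e3]
        ring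
      rw [e1]
      have e5 : B + 4 ≤ 4 ^ B * (B + 4) := Nat.le_mul_of_pos_left _ (by positivity)
      omega
  obtain ⟨l, h1, h2, h3, h4⟩ := key
  obtain ⟨L, h5, h6, h7⟩ := h1.isDerivation
  refine ⟨l.length, L, h5, h6 _ ?_, fun i => h3 _ (h7 i), h2⟩
  simpa using h4 (Set.mem_singleton (Form.ff : Form E))

end Pool.Agent.MP_9cec2c_lc.SLT
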