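import Pool.Agent.Lib.MP_9cec2c_lc.SLT.UAsm

/-!
TASK UFin: the upper bound for every implicationally complete set of rules.

`T` from `tdec_of`. Every bag has at most `w` vertices and every vertex at most `Δ` edges, so
`(T.X i).card ≤ Δ w ≤ M := (Δ + 1) w`. `exists_k` (SL/Ub) for `M` and `b ≤ w ≤ M`: `M ≤ b 2^k ≤ 2 M`. `upper_tree` with `B = b`.
Line size: `b · (10 (b 4^k) + 13 + Δ) = 10 (b 2^k)² + (13 + Δ) b ≤ (40 (Δ+1)² + 13 + Δ) w²`.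
Number of lines: `k ≤ 2^k ≤ 2M`, `b ≤ w`, `2^b ≤ 4^b`, so `l ≤ 2 |V| (4 M + (w + 4) + 2^(Δ+1)(4M + 9 + w) + w + 1 + 2M + 1) 4^b ≤
C |V| w 4^b` (`w ≥ b ≥ 1`). Then `sim_derivation` (SL/UbG) with `mRules_finite`, `mRules_sound`, as in the proof of
`upper_complete` (SL/UbG): copy it.
-/

set_option autoImplicit false

open Finset
open scoped Classical

namespace Pool.Agent.MP_9cec2c_lc.SLT

open SL SL.Ub

private theorem UFin_card {V E : Type} [Fintype V] [Fintype E] {G : MG V E} {Δ w : ℕ}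
    (hG : G.DegLE Δ) (T : TDec G w) (i : T.I) : (T.X i).card ≤ Δ * w := by
  have h1 : T.X i ⊆ (T.bag i).biUnion fun v =>
      (univ.filter fun e => G.src e = v) ∪ (univ.filter fun e => G.dst e = v) := by
    intro e he
    rw [TDec.X, mem_filter] at he
    rw [mem_biUnion]
    rcases he.2 with h | h
    · exact ⟨_, h, mem_union_left _ (by simp)⟩
    · exact ⟨_, h, mem_union_right _ (by simp)⟩
  refine (card_le_card h1).trans (card_biUnion_le.trans ?_)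
  calc ∑ v ∈ T.bag i, ((univ.filter fun e => G.src e = v) ∪
        (univ.filter fun e => G.dst e = v)).card ≤ ∑ v ∈ T.bag i, Δ := by
        refine sum_le_sum fun v _ => (card_union_le _ _).trans ?_
        convert hG v
    _ = (T.bag i).card * Δ := by rw [sum_const, smul_eq_mul]
    _ ≤ w * Δ := Nat.mul_le_mul_right _ (T.card i)
    _ = Δ * w := mul_comm _ _

private theorem UFin_m (Δ : ℕ) : ∃ C : ℕ, 1 ≤ C ∧
    ∀ (V E : Type) [Fintype V] [Fintype E] (G : MG V E) (γ : V → ZMod 2) (w b : ℕ), G.DegLE Δ →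
      TT.HasTreeDec G.src G.dst w → ∑ v, γ v = 1 → 1 ≤ b → b ≤ w →
      ∃ (l : ℕ) (L : Fin l → Form E),
        IsDerivation mRules {φ | ∃ C ∈ G.tseitin γ, φ = clause C} L ∧ (∃ i, L i = Form.ff) ∧
        (∀ i, (L i).size * b ≤ C * w ^ 2) ∧ l ≤ C * Fintype.card V * w * 4 ^ b := by
  refine ⟨2 * (4 * (Δ + 1) + 5 + 2 ^ (Δ + 1) * (4 * (Δ + 1) + 10) + 2 + (2 * (Δ + 1) + 1)) +
    (40 * (Δ + 1) ^ 2 + 13 + Δ), by omega, ?_⟩
  intro V E _ _ G γ w b hG hT hγ hb hbw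
  obtain ⟨T⟩ := tdec_of hT
  have hw1 : 1 ≤ w := hb.trans hbw
  have hwM : w ≤ (Δ + 1) * w := Nat.le_mul_of_pos_left _ (by omega)
  obtain ⟨k, hk1, hk2⟩ := Ub.exists_k hb (hbw.trans hwM)
  have hM : ∀ i, (T.X i).card ≤ b * 2 ^ k := by
    intro i
    refine (UFin_card hG T i).trans (le_trans ?_ hk1)
    exact Nat.mul_le_mul_right _ (by omega)
  obtain ⟨l, L, h1, h2, h3, h4⟩ := upper_tree G hG T γ hγ hb hM
  refine ⟨l, L, h1, h2, fun i => ?_, ?_⟩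
  · have hw2 : b ≤ w ^ 2 := by nlinarith
    calc (L i).size * b ≤ (10 * (b * 4 ^ k) + 13 + Δ) * b := Nat.mul_le_mul_right _ (h3 i)
      _ = 10 * (b * 2 ^ k) ^ 2 + (13 + Δ) * b := by
          have : (4 : ℕ) ^ k = 2 ^ k * 2 ^ k := by rw [← mul_pow]; norm_num
          rw [this]
          ring
      _ ≤ 10 * (2 * ((Δ + 1) * w)) ^ 2 + (13 + Δ) * w ^ 2 := by gcongr
      _ = (40 * (Δ + 1) ^ 2 + 13 + Δ) * w ^ 2 := by ring
      _ ≤ (2 * (4 * (Δ + 1) + 5 + 2 ^ (Δ + 1) * (4 * (Δ + 1) + 10) + 2 + (2 * (Δ + 1) + 1)) +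
            (40 * (Δ + 1) ^ 2 + 13 + Δ)) * w ^ 2 := Nat.mul_le_mul_right _ (by omega)
  · have hk : k ≤ 2 * ((Δ + 1) * w) := by
      calc k ≤ 2 ^ k := Nat.lt_two_pow_self.le
        _ ≤ b * 2 ^ k := Nat.le_mul_of_pos_left _ hb
        _ ≤ 2 * ((Δ + 1) * w) := hk2
    have h4b : 1 ≤ 4 ^ b := Nat.one_le_pow _ _ (by norm_num)
    have h24 : 2 ^ b ≤ 4 ^ b := Nat.pow_le_pow_left (by norm_num) b
    have e1 : 2 * (b * 2 ^ k) ≤ 4 * (Δ + 1) * (w * 4 ^ b) := by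
      calc 2 * (b * 2 ^ k) ≤ 2 * (2 * ((Δ + 1) * w)) := Nat.mul_le_mul_left _ hk2
        _ = 4 * (Δ + 1) * (w * 1) := by ring
        _ ≤ 4 * (Δ + 1) * (w * 4 ^ b) := by gcongr
    have e2 : 4 ^ b * (b + 4) ≤ 5 * (w * 4 ^ b) := by
      calc 4 ^ b * (b + 4) ≤ 4 ^ b * (5 * w) := Nat.mul_le_mul_left _ (by omega)
        _ = 5 * (w * 4 ^ b) := by ring
    have e3 : 2 ^ (Δ + 1) * 2 ^ b * (2 * k + 9 + b) ≤
        2 ^ (Δ + 1) * (4 * (Δ + 1) + 10) * (w * 4 ^ b) := by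
      calc 2 ^ (Δ + 1) * 2 ^ b * (2 * k + 9 + b)
          ≤ 2 ^ (Δ + 1) * 4 ^ b * ((4 * (Δ + 1) + 10) * w) := by
            apply Nat.mul_le_mul
            · exact Nat.mul_le_mul_left _ h24
            · nlinarith
        _ = 2 ^ (Δ + 1) * (4 * (Δ + 1) + 10) * (w * 4 ^ b) := by ring
    have e4 : 2 ^ b * (b + 1) ≤ 2 * (w * 4 ^ b) := by
      calc 2 ^ b * (b + 1) ≤ 4 ^ b * (2 * w) := Nat.mul_le_mul h24 (by omega)
        _ = 2 * (w * 4 ^ b) := by ring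
    have e5 : k + 1 ≤ (2 * (Δ + 1) + 1) * (w * 4 ^ b) := by
      calc k + 1 ≤ (2 * (Δ + 1) + 1) * (w * 1) := by nlinarith
        _ ≤ (2 * (Δ + 1) + 1) * (w * 4 ^ b) := by gcongr
    have e6 : 2 * (b * 2 ^ k) + 4 ^ b * (b + 4) +
        2 ^ (Δ + 1) * 2 ^ b * (2 * k + 9 + b) + 2 ^ b * (b + 1) + k + 1 ≤
        (4 * (Δ + 1) + 5 + 2 ^ (Δ + 1) * (4 * (Δ + 1) + 10) + 2 + (2 * (Δ + 1) + 1)) *
          (w * 4 ^ b) := by
      calc 2 * (b * 2 ^ k) + 4 ^ b * (b + 4) +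
        2 ^ (Δ + 1) * 2 ^ b * (2 * k + 9 + b) + 2 ^ b * (b + 1) + k + 1
          = 2 * (b * 2 ^ k) + 4 ^ b * (b + 4) +
        2 ^ (Δ + 1) * 2 ^ b * (2 * k + 9 + b) + 2 ^ b * (b + 1) + (k + 1) := by ring
        _ ≤ 4 * (Δ + 1) * (w * 4 ^ b) + 5 * (w * 4 ^ b) +
            2 ^ (Δ + 1) * (4 * (Δ + 1) + 10) * (w * 4 ^ b) + 2 * (w * 4 ^ b) +
            (2 * (Δ + 1) + 1) * (w * 4 ^ b) := by
            exact Nat.add_le_add (Nat.add_le_add (Nat.add_le_add (Nat.add_le_add e1 e2) e3) e4) e5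
        _ = _ := by ring
    calc l ≤ 2 * Fintype.card V * (2 * (b * 2 ^ k) + 4 ^ b * (b + 4) +
        2 ^ (Δ + 1) * 2 ^ b * (2 * k + 9 + b) + 2 ^ b * (b + 1) + k + 1) := h4
      _ ≤ 2 * Fintype.card V *
          ((4 * (Δ + 1) + 5 + 2 ^ (Δ + 1) * (4 * (Δ + 1) + 10) + 2 + (2 * (Δ + 1) + 1)) *
          (w * 4 ^ b)) := Nat.mul_le_mul_left _ e6
      _ = 2 * (4 * (Δ + 1) + 5 + 2 ^ (Δ + 1) * (4 * (Δ + 1) + 10) + 2 + (2 * (Δ + 1) + 1)) *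
          Fintype.card V * w * 4 ^ b := by ring
      _ ≤ (2 * (4 * (Δ + 1) + 5 + 2 ^ (Δ + 1) * (4 * (Δ + 1) + 10) + 2 + (2 * (Δ + 1) + 1)) +
            (40 * (Δ + 1) ^ 2 + 13 + Δ)) * Fintype.card V * w * 4 ^ b := by
          gcongr
          omega

theorem upper_tw (Δ : ℕ) (S : Set Rule) (hS : ImplComplete S) : ∃ C : ℕ,
    ∀ (V E : Type) [Fintype V] [Fintype E] (G : MG V E) (γ : V → ZMod 2) (w b : ℕ), G.DegLE Δ →
      TT.HasTreeDec G.src G.dst w → ∑ v, γ v = 1 → 1 ≤ b → b ≤ w →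
      ∃ (l : ℕ) (L : Fin l → Form E),
        IsDerivation S {φ | ∃ C ∈ G.tseitin γ, φ = clause C} L ∧ (∃ i, L i = Form.ff) ∧
        (∀ i, (L i).size * b ≤ C * w ^ 2) ∧ l ≤ C * Fintype.card V * w * 4 ^ b := by
  obtain ⟨C, hC1, hC⟩ := UFin_m Δ
  obtain ⟨K, hK1, hK⟩ := Ub.sim_derivation hS mRules_finite mRules_sound
  refine ⟨K * C, ?_⟩
  intro V E _ _ G γ w b hG hT hγ hb hbw
  obtain ⟨l, L, h1, ⟨i0, h2⟩, h3, h4⟩ := hC V E G γ w b hG hT hγ hb hbw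
  have hw1 : 1 ≤ w := hb.trans hbw
  set s := C * w ^ 2 / b with hs
  have hs1 : 1 ≤ s := by
    rw [hs, Nat.le_div_iff_mul_le (by omega), one_mul]
    calc b ≤ w := hbw
      _ ≤ w ^ 2 := by nlinarith
      _ ≤ C * w ^ 2 := Nat.le_mul_of_pos_left _ (by omega)
  obtain ⟨l', L', k1, k2, k3, k4⟩ := hK E _ s l L hs1 h1 fun i => by
    rw [hs, Nat.le_div_iff_mul_le (by omega)]
    exact h3 i
  obtain ⟨j0, hj0⟩ := k2 i0
  refine ⟨l', L', k1, ⟨j0, hj0.trans h2⟩, fun j => ?_, ?_⟩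
  · calc (L' j).size * b ≤ K * s * b := Nat.mul_le_mul_right _ (k3 j)
      _ = K * (s * b) := by ring
      _ ≤ K * (C * w ^ 2) := Nat.mul_le_mul_left _ (Nat.div_mul_le_self _ _)
      _ = K * C * w ^ 2 := by ring
  · calc l' ≤ K * l := k4
      _ ≤ K * (C * Fintype.card V * w * 4 ^ b) := Nat.mul_le_mul_left _ h4
      _ = K * C * Fintype.card V * w * 4 ^ b := by ring

end Pool.Agent.MP_9cec2c_lc.SLT
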