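import Pool.Agent.Lib.MP_9cec2c_lc.SLT.URule

/-!
TASK UMerge: merging the lines of two sets of leaves.

`WL x k B [] S g` (SL/UbD) = the lines `or ff (neg (cn (leaf x S) k b B))` for all `b` with `px b B ≠ g`
(`ctx x [] [] = ff`, `psum [] = 0`).
* `t3_par`: for every `o`: `T3 (par (leaf x (S₁ △ S₂)) k o) (par (leaf x S₁) k o) (par (leaf x S₂) k o)` in at most
  `2 · 2^k` steps, by induction on `k` (`m_leaf`: `leaf x S i = zf (decide (i ∉ S)) (var (x i))`; `m_node`). Sizes: `10 · 4^k`.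
* `im_cn`: for all `b`, `a`, `j ≤ B`: `im (cn (leaf x S) k b j) (cn (leaf x S₁) k a j) (cn (leaf x S₂) k (b + a) j)` from
  the lines of `t3_par` for `o = i 2^k`, `i < B`, in `j + 1` steps (`m_tt`, `m_cons`; `cn` in SL/UbC), where
  `(b + a) i = xor (b i) (a i)`. Sizes: `3 (j 4^k + 1)`.
* `pair`: if `px b B ≠ g₁ + g₂`: either `px a B ≠ g₁`, then `m_use1`, or `px (b + a) B ≠ g₂`, then `im_cn` and `m_use2`
  (`px (b + a) = px b + px a`, prove it): `or (neg (cn S b B)) (neg (cn S₁ a B))` in at most `B + 2` steps.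
* `elim_all`: for fixed `b`: from these lines for all `a` one gets `or (neg (cn S b B)) (neg (cn S₁ a j))` for all `a`,
  going down from `j = B` to `j = 0` (`m_elim`, `sg Q true = Q`, `sg Q false = neg Q`; `cn` depends only on the first `j`
  values of `a`: `cn_congr`; `2^j` lines for `j`), then `m_done`: at most `2^B + 1` steps.
All lines have size at most `10 (B 4^k) + 10 ≤ s` if `1 ≤ B`. To count the lines for all `b` and `a` use a finite set of
functions as in `cover` (SL/UbD) and `Reach.of_cover`, `Reach.iUnion`, for example with `a, b : Fin B → Bool`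
(`2^B` each) extended by `false`.
-/

set_option autoImplicit false

namespace Pool.Agent.MP_9cec2c_lc.SLT

open SL SL.Ub Form

variable {V : Type} {Γ : Set (Form V)} {s : ℕ}

private theorem UMerge_leaf (x : ℕ → V) (S : Finset ℕ) (i : ℕ) :
    leaf x S i = zf (decide (i ∉ S)) (var (x i)) := by
  unfold leaf zf
  by_cases h : i ∈ S <;> simp [h]

private theorem UMerge_size_im (C A D : Form V) : (im C A D).size = C.size + A.size + D.size := by
  simp only [im, Form.size]
  ring

/-- The lines of the parities. -/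
private theorem UMerge_t3 (x : ℕ → V) (S₁ S₂ : Finset ℕ) (k : ℕ) (hs : 10 * 4 ^ k ≤ s) :
    ∀ o, Reach mRules Γ s ∅ {T3 (par (leaf x (symmDiff S₁ S₂)) k o) (par (leaf x S₁) k o)
      (par (leaf x S₂) k o)} (2 * 2 ^ k - 1) := by
  induction k with
  | zero =>
    intro o
    refine Reach.step ?_ ?_
    · rw [par, par, par, UMerge_leaf, UMerge_leaf, UMerge_leaf]
      have h : decide (o ∉ symmDiff S₁ S₂) = (decide (o ∉ S₁) == decide (o ∉ S₂)) := by
        by_cases h1 : o ∈ S₁ <;> by_cases h2 : o ∈ S₂ <;> simp [Finset.mem_symmDiff, h1, h2]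
      rw [h]
      exact m_leaf _ _ _
    · rw [size_T3, size_par (size_leaf x _), size_par (size_leaf x _), size_par (size_leaf x _)]
      omega
  | succ k ih =>
    intro o
    have hs' : 10 * 4 ^ k ≤ s := by
      refine le_trans ?_ hs
      rw [pow_succ]
      omega
    have h1 := ih hs' o
    have h2 := ih hs' (o + 2 ^ k)
    refine ((h1.union h2).trans (Reach.step (φ := T3 (par (leaf x (symmDiff S₁ S₂)) (k + 1) o)
      (par (leaf x S₁) (k + 1) o) (par (leaf x S₂) (k + 1) o)) ?_ ?_)).mono le_rfl le_rfl ?_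
    · rw [par, par, par]
      exact m_node (Or.inr (Or.inl rfl)) (Or.inr (Or.inr rfl))
    · rw [size_T3, size_par (size_leaf x _), size_par (size_leaf x _), size_par (size_leaf x _)]
      omega
    · rw [pow_succ]
      have : 1 ≤ 2 ^ k := Nat.one_le_two_pow
      omega

/-- All lines of the parities of the blocks. -/
private def UMerge_D (x : ℕ → V) (k B : ℕ) (S₁ S₂ : Finset ℕ) : Set (Form V) :=
  ⋃ i : Fin B, {T3 (par (leaf x (symmDiff S₁ S₂)) k ((i : ℕ) * 2 ^ k))
    (par (leaf x S₁) k ((i : ℕ) * 2 ^ k)) (par (leaf x S₂) k ((i : ℕ) * 2 ^ k))}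

private theorem UMerge_reach_D (x : ℕ → V) (k B : ℕ) (S₁ S₂ : Finset ℕ) (hB : 1 ≤ B)
    (hs : 10 * (B * 4 ^ k) + 10 ≤ s) (X : Set (Form V)) :
    Reach mRules Γ s X (UMerge_D x k B S₁ S₂) (2 * (B * 2 ^ k)) := by
  have h4k : 4 ^ k ≤ B * 4 ^ k := Nat.le_mul_of_pos_left _ hB
  have h1 := Reach.iUnion (S := mRules) (Γ := Γ) (s := s) (X := X) (ι := Fin B)
    (Y := fun i => {T3 (par (leaf x (symmDiff S₁ S₂)) k ((i : ℕ) * 2 ^ k))
    (par (leaf x S₁) k ((i : ℕ) * 2 ^ k)) (par (leaf x S₂) k ((i : ℕ) * 2 ^ k))})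
    (m := 2 * 2 ^ k) (fun i => (UMerge_t3 x S₁ S₂ k (by omega) _).mono (Set.empty_subset _)
      le_rfl (Nat.sub_le _ _))
  refine h1.mono le_rfl le_rfl ?_
  rw [Fintype.card_fin]
  apply le_of_eq
  ring

/-- The lines of the conjunctions. -/
private theorem UMerge_im (x : ℕ → V) (k B : ℕ) (S₁ S₂ : Finset ℕ)
    (hs : 10 * (B * 4 ^ k) + 10 ≤ s) (b a : ℕ → Bool) : ∀ j, j ≤ B →
    Reach mRules Γ s (UMerge_D x k B S₁ S₂) {im (cn (leaf x (symmDiff S₁ S₂)) k b j)
      (cn (leaf x S₁) k a j) (cn (leaf x S₂) k (fun i => xor (b i) (a i)) j)} (j + 1) := by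
  have size_ok : ∀ j ≤ B, (im (cn (leaf x (symmDiff S₁ S₂)) k b j)
      (cn (leaf x S₁) k a j) (cn (leaf x S₂) k (fun i => xor (b i) (a i)) j)).size ≤ s := by
    intro j hj
    rw [UMerge_size_im, size_cn (size_leaf x _), size_cn (size_leaf x _), size_cn (size_leaf x _)]
    have : j * 4 ^ k ≤ B * 4 ^ k := Nat.mul_le_mul_right _ hj
    omega
  intro j
  induction j with
  | zero =>
    intro _
    refine Reach.step ?_ (size_ok 0 (Nat.zero_le _))
    exact m_tt
  | succ j ih =>
    intro hj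
    refine (ih (by omega)).trans (Reach.step ?_ (size_ok _ hj))
    rw [cn, cn, cn]
    refine m_cons _ _ (Or.inl ?_) (Or.inr rfl)
    exact Set.mem_iUnion.mpr ⟨⟨j, hj⟩, rfl⟩

private theorem UMerge_px (b a : ℕ → Bool) (B : ℕ) :
    px (fun i => xor (b i) (a i)) B = px b B + px a B := by
  unfold px
  rw [← Finset.sum_add_distrib]
  exact Finset.sum_congr rfl fun i _ => bz_xor _ _

/-- The lines for two conjunctions. -/
private theorem UMerge_pair (x : ℕ → V) (k B : ℕ) (S₁ S₂ : Finset ℕ) (g₁ g₂ : ZMod 2)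
    (hs : 10 * (B * 4 ^ k) + 10 ≤ s) (b a : ℕ → Bool) (hb : px b B ≠ g₁ + g₂) :
    Reach mRules Γ s ((WL x k B [] S₁ g₁ ∪ WL x k B [] S₂ g₂) ∪ UMerge_D x k B S₁ S₂)
      {or (neg (cn (leaf x (symmDiff S₁ S₂)) k b B)) (neg (cn (leaf x S₁) k a B))} (B + 2) := by
  have hsz : (or (neg (cn (leaf x (symmDiff S₁ S₂)) k b B))
      (neg (cn (leaf x S₁) k a B))).size ≤ s := by
    rw [Form.size, Form.size, Form.size, size_cn (size_leaf x _), size_cn (size_leaf x _)]
    omega
  by_cases h1 : px a B = g₁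
  · have h2 : px (fun i => xor (b i) (a i)) B ≠ g₂ := by
      rw [UMerge_px, h1]
      intro h3
      apply hb
      rw [← h3]
      have h4 : g₁ + g₁ = 0 := CharTwo.add_self_eq_zero g₁
      calc px b B = px b B + (g₁ + g₁) := by rw [h4, add_zero]
        _ = g₁ + (px b B + g₁) := by ring
    have h3 : or ff (neg (cn (leaf x S₂) k (fun i => xor (b i) (a i)) B)) ∈
        WL x k B [] S₂ g₂ := by
      refine ⟨[], fun i => xor (b i) (a i), rfl, ?_, ?_⟩
      · rw [psum, zero_add]
        exact h2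
      · rw [ctx]
        simp
    have h4 := UMerge_im (Γ := Γ) (s := s) x k B S₁ S₂ hs b a B le_rfl
    refine ((h4.mono Set.subset_union_right le_rfl le_rfl).trans (Reach.step
      (m_use2 (Or.inr rfl) (Or.inl (Or.inl (Or.inr h3)))) hsz)).mono le_rfl le_rfl le_rfl
  · have h3 : or ff (neg (cn (leaf x S₁) k a B)) ∈ WL x k B [] S₁ g₁ := by
      refine ⟨[], a, rfl, ?_, ?_⟩
      · rw [psum, zero_add]
        exact h1
      · rw [ctx]
        simp
    exact (Reach.step (m_use1 _ (Or.inl (Or.inl h3))) hsz).mono le_rfl le_rfl (by omega)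

/-- The lines for a fixed conjunction `C`. -/
private def UMerge_P (x : ℕ → V) (k : ℕ) (S : Finset ℕ) (C : Form V) (j : ℕ) : Set (Form V) :=
  {φ | ∃ a : ℕ → Bool, φ = or (neg C) (neg (cn (leaf x S) k a j))}

private theorem UMerge_cover (x : ℕ → V) (k : ℕ) (S : Finset ℕ) (C : Form V) (j : ℕ) :
    ∃ J : Finset (Form V), J.card ≤ 2 ^ j ∧ ∀ φ ∈ UMerge_P x k S C j, φ ∈ J := by
  classical
  let F : (Fin j → Bool) → Form V := fun p =>
    or (neg C) (neg (cn (leaf x S) k (fun i => if h : i < j then p ⟨i, h⟩ else false) j))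
  refine ⟨(Finset.univ : Finset (Fin j → Bool)).image F, ?_, ?_⟩
  · refine Finset.card_image_le.trans ?_
    rw [Finset.card_univ, Fintype.card_fun, Fintype.card_bool, Fintype.card_fin]
  · rintro φ ⟨a, rfl⟩
    refine Finset.mem_image.mpr ⟨fun i => a i, Finset.mem_univ _, ?_⟩
    simp only [F]
    congr 2
    refine cn_congr j (fun _ _ => rfl) fun i hi => ?_
    rw [dif_pos hi]

private theorem UMerge_elim (x : ℕ → V) (k B : ℕ) (S : Finset ℕ) (C : Form V)
    (hC : C.size ≤ B * 4 ^ k + 1) (hs : 10 * (B * 4 ^ k) + 10 ≤ s) : ∀ j, j ≤ B →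
    Reach mRules Γ s (UMerge_P x k S C j) (UMerge_P x k S C 0) (2 ^ j - 1) := by
  intro j
  induction j with
  | zero =>
    intro _
    exact (Reach.refl le_rfl).mono le_rfl le_rfl (Nat.zero_le _)
  | succ j ih =>
    intro hj
    have h1 : Reach mRules Γ s (UMerge_P x k S C (j + 1)) (UMerge_P x k S C j) (2 ^ j * 1) := by
      obtain ⟨J, hJ, hJ2⟩ := UMerge_cover x k S C j
      refine Reach.of_cover J hJ hJ2 ?_
      rintro φ ⟨a, rfl⟩
      refine Reach.step ?_ ?_
      · refine m_elim (Q := par (leaf x S) k (j * 2 ^ k)) ?_ ?_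
        · refine ⟨Function.update a j true, ?_⟩
          rw [cn, Function.update_self]
          congr 3
          exact cn_congr j (fun _ _ => rfl) fun i hi => by
            rw [Function.update_of_ne hi.ne]
        · refine ⟨Function.update a j false, ?_⟩
          rw [cn, Function.update_self]
          congr 3
          exact cn_congr j (fun _ _ => rfl) fun i hi => by
            rw [Function.update_of_ne hi.ne]
      · rw [Form.size, Form.size, Form.size, size_cn (size_leaf x _)]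
        have : j * 4 ^ k ≤ B * 4 ^ k := Nat.mul_le_mul_right _ (by omega)
        omega
    refine (h1.trans ((ih (by omega)).mono Set.subset_union_right le_rfl le_rfl)).mono le_rfl
      le_rfl ?_
    rw [pow_succ]
    have : 1 ≤ 2 ^ j := Nat.one_le_two_pow
    omega

theorem merge (x : ℕ → V) (k B : ℕ) (S₁ S₂ : Finset ℕ) (g₁ g₂ : ZMod 2) (hB : 1 ≤ B)
    (hs : 10 * (B * 4 ^ k) + 10 ≤ s) :
    Reach mRules Γ s (WL x k B [] S₁ g₁ ∪ WL x k B [] S₂ g₂)
      (WL x k B [] (symmDiff S₁ S₂) (g₁ + g₂)) (2 * (B * 2 ^ k) + 4 ^ B * (B + 4)) := by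
  set X := WL x k B [] S₁ g₁ ∪ WL x k B [] S₂ g₂ with hX
  set S := symmDiff S₁ S₂ with hS
  have h1 := UMerge_reach_D (Γ := Γ) (s := s) x k B S₁ S₂ hB hs X
  have h2 : Reach mRules Γ s (X ∪ UMerge_D x k B S₁ S₂) (WL x k B [] S (g₁ + g₂))
      (2 ^ B * (2 ^ B * (B + 3))) := by
    obtain ⟨J, hJ, hJ2⟩ := cover x k B [] S
    rw [List.length_nil, pow_zero, one_mul] at hJ
    refine Reach.of_cover J hJ ?_ ?_
    · rintro φ ⟨α, b, hα, _, rfl⟩
      exact hJ2 α b hα
    · rintro φ ⟨α, b, hα, hg, rfl⟩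
      have hα' : α = [] := by simpa using hα
      subst hα'
      rw [psum, zero_add] at hg
      have hctx : ctx x [] [] = ff := by
        rw [ctx]
        simp
      rw [hctx]
      set C := cn (leaf x S) k b B with hC
      have hCs : C.size = B * 4 ^ k + 1 := size_cn (size_leaf x _) k b B
      have r1 : Reach mRules Γ s (X ∪ UMerge_D x k B S₁ S₂) (UMerge_P x k S₁ C B)
          (2 ^ B * (B + 2)) := by
        obtain ⟨J', hJ', hJ2'⟩ := UMerge_cover x k S₁ C B
        refine Reach.of_cover J' hJ' hJ2' ?_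
        rintro φ ⟨a, rfl⟩
        exact UMerge_pair x k B S₁ S₂ g₁ g₂ hs b a hg
      have r2 := UMerge_elim (Γ := Γ) (s := s) x k B S₁ C hCs.le hs B le_rfl
      have r3 : Reach mRules Γ s (UMerge_P x k S₁ C 0) {or ff (neg C)} 1 := by
        refine Reach.step (m_done ⟨fun _ => false, rfl⟩) ?_
        rw [Form.size, Form.size, Form.size]
        omega
      refine (r1.trans ((r2.trans (r3.mono Set.subset_union_right le_rfl le_rfl)).mono
        Set.subset_union_right le_rfl le_rfl)).mono le_rfl le_rfl ?_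
      have : 1 ≤ 2 ^ B := Nat.one_le_two_pow
      have e1 : 2 ^ B * (B + 3) = 2 ^ B * (B + 2) + 2 ^ B := by ring
      omega
  refine (h1.trans h2).mono le_rfl le_rfl ?_
  have e1 : (4 : ℕ) ^ B = 2 ^ B * 2 ^ B := by
    rw [← mul_pow]
    norm_num
  have e2 : 2 ^ B * (2 ^ B * (B + 3)) ≤ 4 ^ B * (B + 4) := by
    rw [e1, mul_assoc]
    gcongr
    omega
  omega

/-- More rules. -/
theorem reach_rules {S S' : Set Rule} (h : S ⊆ S') {X Y : Set (Form V)} {n : ℕ}
    (hr : Reach S Γ s X Y n) : Reach S' Γ s X Y n := by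
  obtain ⟨l, h1, h2, h3, h4⟩ := hr
  refine ⟨l, ?_, h2, h3, h4⟩
  clear h2 h3 h4
  induction h1 with
  | nil => exact Chain.nil
  | @cons φ l _ hst ih =>
    refine Chain.cons ih ?_
    rcases hst with h5 | ⟨R, hR, σ, h5, h6⟩
    · exact Or.inl h5
    · exact Or.inr ⟨R, h hR, σ, h5, h6⟩

end Pool.Agent.MP_9cec2c_lc.SLT
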