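import Pool.Agent.Lib.MP_9cec2c_lc.SL.UcE

/-!
TASK URule: the rules for merging, their soundness, and the single steps.

`mRules_sound`: cases on the rule and on the Booleans, `simp [Form.eval, T3, zf, xr, im, sg]`, `grind` (see
`ucRules_sound` in SL/UcB). The steps `m_leaf`, …, `m_done` are instances of the rules: see `step_xl` in SL/UbB for
the pattern (`Or.inr ⟨R, _, σ, _, _⟩` with the substitution `sub6`), with `T3_subst`, `zf_subst`, `sg_subst`,
`xr_subst`.
-/

set_option autoImplicit false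

namespace Pool.Agent.MP_9cec2c_lc.SLT

open SL SL.Ub Form

variable {V : Type}

/-- `C` and `A` imply `D`. -/
def im (C A D : Form V) : Form V := or (neg C) (or (neg A) D)

/-- The rules for merging. -/
def mRules : Set Rule :=
  ubRules ∪
  Set.range (fun p : Bool × Bool => (⟨[], T3 (zf (p.1 == p.2) (var 0)) (zf p.1 (var 0))
    (zf p.2 (var 0))⟩ : Rule)) ∪
  Set.range (fun p : Bool × Bool => (⟨[T3 (var 0) (var 1) (var 2), im (var 3) (var 4) (var 5)],
    im (and (sg (var 0) p.1) (var 3)) (and (sg (var 1) p.2) (var 4))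
      (and (sg (var 2) (xor p.1 p.2)) (var 5))⟩ : Rule)) ∪
  {⟨[T3 (var 0) (var 2) (var 4), T3 (var 1) (var 3) (var 5)],
      T3 (xr (var 0) (var 1)) (xr (var 2) (var 3)) (xr (var 4) (var 5))⟩,
    ⟨[], im tt tt tt⟩,
    ⟨[im (var 0) (var 1) (var 2), or ff (neg (var 2))], or (neg (var 0)) (neg (var 1))⟩,
    ⟨[or ff (neg (var 1))], or (neg (var 0)) (neg (var 1))⟩,
    ⟨[or (neg (var 0)) (neg (and (var 1) (var 2))),
      or (neg (var 0)) (neg (and (neg (var 1)) (var 2)))], or (neg (var 0)) (neg (var 2))⟩,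
    ⟨[or (neg (var 0)) (neg tt)], or ff (neg (var 0))⟩}

theorem mRules_finite : mRules.Finite := by
  unfold mRules
  refine Set.Finite.union ?_ (Set.toFinite _)
  refine Set.Finite.union ?_ (Set.finite_range _)
  exact ubRules_finite.union (Set.finite_range _)

theorem mRules_sound : ∀ R ∈ mRules, R.Sound := by
  rintro R (((h | h) | h) | h)
  · exact ubRules_sound R h
  · obtain ⟨⟨a, b⟩, rfl⟩ := h
    intro x _
    cases a <;> cases b <;> simp [Form.eval, T3, zf, xr]
  · obtain ⟨⟨a, b⟩, rfl⟩ := h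
    intro x hx
    cases a <;> cases b <;> simp [Form.eval, T3, im, sg, xr] at hx ⊢ <;> grind
  · simp only [Set.mem_insert_iff, Set.mem_singleton_iff] at h
    rcases h with rfl | rfl | rfl | rfl | rfl | rfl <;>
      intro x hx <;> simp [Form.eval, xr, T3, im] at hx ⊢ <;> grind

private theorem im_subst {W : Type} (σ : ℕ → Form W) (A B C : Form ℕ) :
    (im A B C).subst σ = im (A.subst σ) (B.subst σ) (C.subst σ) := rfl

theorem ub_sub : ubRules ⊆ mRules := fun _ h => Or.inl (Or.inl (Or.inl h))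

variable {Γ X : Set (Form V)}

theorem m_leaf (A : Form V) (b c : Bool) :
    Step mRules Γ X (T3 (zf (b == c) A) (zf b A) (zf c A)) := by
  refine Or.inr ⟨⟨[], T3 (zf (b == c) (var 0)) (zf b (var 0)) (zf c (var 0))⟩,
    Or.inl (Or.inl (Or.inr ⟨(b, c), rfl⟩)), fun _ => A, ?_, by simp⟩
  simp only [T3_subst, zf_subst]
  rfl

theorem m_node {A1 A2 B1 B2 C1 C2 : Form V} (h1 : T3 A1 B1 C1 ∈ X) (h2 : T3 A2 B2 C2 ∈ X) :
    Step mRules Γ X (T3 (xr A1 A2) (xr B1 B2) (xr C1 C2)) := by
  refine Or.inr ⟨_, Or.inr (Or.inl rfl), sub6 A1 A2 B1 B2 C1 C2, rfl, ?_⟩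
  intro P hP
  simp only [List.mem_cons, List.not_mem_nil, or_false] at hP
  rcases hP with rfl | rfl
  · exact h1
  · exact h2

theorem m_tt : Step mRules Γ X (im tt tt tt) :=
  Or.inr ⟨_, Or.inr (Or.inr (Or.inl rfl)), fun _ => ff, rfl, by simp⟩

theorem m_cons {P Q R C A D : Form V} (β α : Bool) (h1 : T3 P Q R ∈ X) (h2 : im C A D ∈ X) :
    Step mRules Γ X (im (and (sg P β) C) (and (sg Q α) A) (and (sg R (xor β α)) D)) := by
  refine Or.inr ⟨⟨[T3 (var 0) (var 1) (var 2), im (var 3) (var 4) (var 5)],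
    im (and (sg (var 0) β) (var 3)) (and (sg (var 1) α) (var 4))
      (and (sg (var 2) (xor β α)) (var 5))⟩, Or.inl (Or.inr ⟨(β, α), rfl⟩),
      sub6 P Q R C A D, ?_, ?_⟩
  · simp only [im_subst, Form.subst, sg_subst]
    rfl
  · intro p hp
    simp only [List.mem_cons, List.not_mem_nil, or_false] at hp
    rcases hp with rfl | rfl
    · exact h1
    · exact h2

theorem m_use2 {C A D : Form V} (h1 : im C A D ∈ X) (h2 : or ff (neg D) ∈ X) :
    Step mRules Γ X (or (neg C) (neg A)) := by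
  refine Or.inr ⟨_, Or.inr (Or.inr (Or.inr (Or.inl rfl))), sub6 C A D ff ff ff, rfl, ?_⟩
  intro p hp
  simp only [List.mem_cons, List.not_mem_nil, or_false] at hp
  rcases hp with rfl | rfl
  · exact h1
  · exact h2

theorem m_use1 {A : Form V} (C : Form V) (h : or ff (neg A) ∈ X) :
    Step mRules Γ X (or (neg C) (neg A)) := by
  refine Or.inr ⟨_, Or.inr (Or.inr (Or.inr (Or.inr (Or.inl rfl)))), sub6 C A ff ff ff ff, rfl, ?_⟩
  intro p hp
  simp only [List.mem_cons, List.not_mem_nil, or_false] at hp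
  subst hp
  exact h

theorem m_elim {C Q A : Form V} (h1 : or (neg C) (neg (and Q A)) ∈ X)
    (h2 : or (neg C) (neg (and (neg Q) A)) ∈ X) : Step mRules Γ X (or (neg C) (neg A)) := by
  refine Or.inr ⟨_, Or.inr (Or.inr (Or.inr (Or.inr (Or.inr (Or.inl rfl))))),
    sub6 C Q A ff ff ff, rfl, ?_⟩
  intro p hp
  simp only [List.mem_cons, List.not_mem_nil, or_false] at hp
  rcases hp with rfl | rfl
  · exact h1
  · exact h2

theorem m_done {C : Form V} (h : or (neg C) (neg tt) ∈ X) : Step mRules Γ X (or ff (neg C)) := by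
  refine Or.inr ⟨_, Or.inr (Or.inr (Or.inr (Or.inr (Or.inr (Or.inr rfl))))),
    sub6 C ff ff ff ff ff, rfl, ?_⟩
  intro p hp
  simp only [List.mem_cons, List.not_mem_nil, or_false] at hp
  subst hp
  exact h

end Pool.Agent.MP_9cec2c_lc.SLT
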