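import Pool.Agent.Lib.MP_9cec2c_lc.SL.ShFin

/-!
Campaign SLT: the asymptotic inequality `sh_fin` (file SL/ShFin) for sizes `b ≤ 2 ^ μ` of the hypotheses.
-/

set_option autoImplicit false

open Finset

namespace Pool.Agent.MP_9cec2c_lc.SLT

open SL

/-- Exponential against linear. -/
private lemma VFin_growth (a b : ℕ) : ∀ μ : ℕ, 4 * (a + b) ≤ μ → a * μ + b ≤ 2 ^ μ := by
  intro μ hμ
  have h1 : μ / 2 + 1 ≤ 2 ^ (μ / 2) := Nat.lt_two_pow_self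
  have h2 : 2 ^ (μ / 2) * 2 ^ (μ / 2) ≤ 2 ^ μ := by
    rw [← pow_add]
    exact Nat.pow_le_pow_right (by norm_num) (by omega)
  have h3 : 2 * (a + b) ≤ μ / 2 + 1 := by omega
  have h4 : μ + 1 ≤ 2 * (μ / 2 + 1) := by omega
  calc a * μ + b ≤ (a + b) * (μ + 1) := by nlinarith
    _ ≤ (a + b) * (2 * (μ / 2 + 1)) := Nat.mul_le_mul_left _ h4
    _ = (2 * (a + b)) * (μ / 2 + 1) := by ring
    _ ≤ (μ / 2 + 1) * (μ / 2 + 1) := Nat.mul_le_mul_right _ h3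
    _ ≤ 2 ^ (μ / 2) * 2 ^ (μ / 2) := Nat.mul_le_mul h1 h1
    _ ≤ 2 ^ μ := h2

private lemma VFin_w (β μ : ℕ) (hβ : 1 ≤ β) : 2 ^ μ ≤ 2 ^ (β * μ) := by
  refine Nat.pow_le_pow_right (by norm_num) ?_
  calc μ = 1 * μ := (one_mul μ).symm
    _ ≤ β * μ := Nat.mul_le_mul_right _ hβ

private lemma VFin_s {P μ m s : ℕ} (hm : m ≤ P * (μ + 1)) (hs : s ≤ 2 ^ (2 * m)) :
    (s : ℝ) ≤ 2 ^ (2 * P * (μ + 1)) := by
  have h1 : s ≤ 2 ^ (2 * P * (μ + 1)) := by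
    refine hs.trans (Nat.pow_le_pow_right (by norm_num) ?_)
    nlinarith
  exact_mod_cast h1

private lemma VFin_b {b μ : ℕ} (hb : b ≤ 2 ^ μ) : 40 * (b : ℝ) ≤ 2 ^ (6 + μ) := by
  have hb : (b : ℝ) ≤ 2 ^ μ := by exact_mod_cast hb
  rw [pow_add]
  have h0 : (0 : ℝ) ≤ (b : ℝ) := by positivity
  nlinarith

theorem v_fin (P T C β : ℕ) (hβ : 1 ≤ β) : ∃ μ₀ : ℕ, ∀ μ : ℕ, μ₀ ≤ μ →
    ∀ (m s Z b : ℕ) (Q θ : ℝ), b ≤ 2 ^ μ → m ≤ P * (μ + 1) → s ≤ 2 ^ (2 * m) → Z ≤ 2 ^ 2 ^ (β * μ + 3) →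
    Q = 8 * (Z : ℝ) ^ 3 * (m + 1) + 1 → θ = (1 / 2) ^ (796 + (398 * (C ^ 2 + 1) + 2)) →
    (2 * (2 ^ 398) ^ (C * 2 ^ ((β + 1) * μ)) * ((2 * Q) ^ T * 2)) ^ C *
    (5 * (2 ^ 398) ^ (2 ^ ((β + 1) * μ)) * ((2 * Q) ^ T * 2) *
      ((20 * Q * (2 * Q) ^ (2 * T) * 2 ^ 2) ^ T * (T + 1) *
        (40 * b * s * (1 / 2) ^ 2 ^ ((β + 2) * μ) +
          ((2 ^ 398) ^ 2 * θ) ^ (2 ^ ((β + 1) * μ))))) < 1 := by
  set c1 := 33 * T * C + 33 * T + 32 * T + 66 * T ^ 2 with hc1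
  set c0 := 2 * C + 4 + 7 * T + T + 1 with hc0
  set e := 398 * (C ^ 2 + 1) + 2 with he
  refine ⟨4 * ((2 * P + 1) + (6 + 2 * P)) + 4 * (P + (4 + P)) + (c1 + c0) + e, ?_⟩
  intro μ hμ m s Z b Q θ hb hm hs hZ hQ hθ
  have heμ : e ≤ μ := le_trans (Nat.le_add_left _ _) hμ
  have hcμ : c1 + c0 ≤ μ :=
    le_trans (le_trans (Nat.le_add_left _ _) (Nat.le_add_right _ _)) hμ
  have hg := VFin_growth P (4 + P) μ (by omega)
  have hg2 := VFin_growth (2 * P + 1) (6 + 2 * P) μ (by omega)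
  have hbb := VFin_b hb
  have huw := VFin_w β μ hβ
  have hk : 2 ^ ((β + 1) * μ) = 2 ^ μ * 2 ^ (β * μ) := by rw [← pow_add]; congr 1; ring
  have hk2 : 2 ^ ((β + 2) * μ) = 2 ^ μ * (2 ^ μ * 2 ^ (β * μ)) := by
    rw [← pow_add, ← pow_add]; congr 1; ring
  have hk3 : 2 ^ (β * μ + 3) = 8 * 2 ^ (β * μ) := by rw [pow_add]; ring
  have huμ : μ < 2 ^ μ := Nat.lt_two_pow_self
  rw [hk3] at hZ
  rw [hk, hk2]
  generalize 2 ^ μ = u at *
  generalize 2 ^ (β * μ) = w at *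
  have hu1 : 1 ≤ u := Nat.one_le_iff_ne_zero.2 (Nat.ne_zero_of_lt huμ)
  have hw1 : 1 ≤ w := hu1.trans huw
  have heu : e + 1 ≤ u := Nat.succ_le_of_lt (lt_of_le_of_lt heμ huμ)
  have hcu : c1 + c0 ≤ u := hcμ.trans huμ.le
  -- Q
  have hQ1 : (1 : ℝ) ≤ Q := by
    rw [hQ]
    have : (0 : ℝ) ≤ 8 * (Z : ℝ) ^ 3 * (m + 1) := by positivity
    linarith
  have hQ0 : (0 : ℝ) ≤ Q := by linarith
  have hQ2 : Q ≤ 2 ^ (32 * w) := by
    have hm1 : ((m : ℝ) + 1) ≤ 2 ^ (P * (μ + 1)) := by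
      have h1 : m + 1 ≤ 2 ^ m := Nat.lt_two_pow_self
      have h2 : m + 1 ≤ 2 ^ (P * (μ + 1)) := h1.trans (Nat.pow_le_pow_right (by norm_num) hm)
      exact_mod_cast h2
    have hZr : (Z : ℝ) ≤ 2 ^ (8 * w) := by exact_mod_cast hZ
    have hZ3 : (Z : ℝ) ^ 3 ≤ 2 ^ (24 * w) := by
      have h3 : (Z : ℝ) ^ 3 ≤ (2 ^ (8 * w)) ^ 3 := pow_le_pow_left₀ (by positivity) hZr 3
      rw [← pow_mul] at h3
      have h4 : 8 * w * 3 = 24 * w := by ring
      rwa [h4] at h3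
    have h4 : 8 * (Z : ℝ) ^ 3 * (m + 1) ≤ 8 * 2 ^ (24 * w) * 2 ^ (P * (μ + 1)) := by
      refine mul_le_mul ?_ hm1 (by positivity) (by positivity)
      linarith
    have h5 : (1 : ℝ) ≤ 8 * 2 ^ (24 * w) * 2 ^ (P * (μ + 1)) := by
      have h6 : (1 : ℝ) ≤ 2 ^ (24 * w) := one_le_pow₀ (by norm_num)
      have h7 : (1 : ℝ) ≤ 2 ^ (P * (μ + 1)) := one_le_pow₀ (by norm_num)
      have h8 : (1 : ℝ) ≤ 8 * 2 ^ (24 * w) := by linarith
      exact one_le_mul_of_one_le_of_one_le h8 h7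
    have h8 : Q ≤ 2 ^ (4 + 24 * w + P * (μ + 1)) := by
      rw [hQ, pow_add, pow_add]
      have h9 : (2 : ℝ) ^ 4 * 2 ^ (24 * w) * 2 ^ (P * (μ + 1)) =
          2 * (8 * 2 ^ (24 * w) * 2 ^ (P * (μ + 1))) := by ring
      rw [h9]
      linarith
    refine h8.trans (pow_le_pow_right₀ (by norm_num) ?_)
    have h10 : P * (μ + 1) = P * μ + P := by ring
    omega
  have h2Q : 2 * Q ≤ 2 ^ (33 * w) := by
    have h1 : 2 * Q ≤ 2 ^ (32 * w + 1) := by rw [pow_succ]; linarith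
    exact h1.trans (pow_le_pow_right₀ (by norm_num) (by omega))
  have h2Q0 : (0 : ℝ) ≤ 2 * Q := by linarith
  have hQT : (2 * Q) ^ T ≤ 2 ^ (33 * w * T) := by
    rw [pow_mul]
    exact pow_le_pow_left₀ h2Q0 h2Q T
  -- term 1
  have t1 : (2 * (2 ^ 398) ^ (C * (u * w)) * ((2 * Q) ^ T * 2)) ^ C ≤
      2 ^ ((2 + 398 * (C * (u * w)) + 33 * w * T) * C) := by
    rw [pow_mul (2 : ℝ) (2 + 398 * (C * (u * w)) + 33 * w * T) C]
    refine pow_le_pow_left₀ (by positivity) ?_ C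
    rw [← pow_mul]
    have e1 : (2 : ℝ) ^ (2 + 398 * (C * (u * w)) + 33 * w * T) =
        2 * 2 ^ (398 * (C * (u * w))) * (2 ^ (33 * w * T) * 2) := by
      rw [pow_add, pow_add]; ring
    rw [e1]
    refine mul_le_mul_of_nonneg_left ?_ (by positivity)
    exact mul_le_mul_of_nonneg_right hQT (by norm_num)
  -- term 2
  have t2 : 5 * (2 ^ 398) ^ (u * w) * ((2 * Q) ^ T * 2) ≤
      2 ^ (4 + 398 * (u * w) + 33 * w * T) := by
    rw [← pow_mul]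
    have e1 : (2 : ℝ) ^ (4 + 398 * (u * w) + 33 * w * T) =
        8 * 2 ^ (398 * (u * w)) * (2 ^ (33 * w * T) * 2) := by
      rw [pow_add, pow_add]; ring
    rw [e1]
    refine mul_le_mul ?_ ?_ (by positivity) (by positivity)
    · exact mul_le_mul_of_nonneg_right (by norm_num) (by positivity)
    · exact mul_le_mul_of_nonneg_right hQT (by norm_num)
  -- term 3
  have t3 : (20 * Q * (2 * Q) ^ (2 * T) * 2 ^ 2) ^ T * ((T : ℝ) + 1) ≤
      2 ^ ((7 + 32 * w + 66 * w * T) * T + T) := by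
    rw [pow_add (2 : ℝ) ((7 + 32 * w + 66 * w * T) * T) T,
      pow_mul (2 : ℝ) (7 + 32 * w + 66 * w * T) T]
    have hT : ((T : ℝ) + 1) ≤ 2 ^ T := by
      have h1 : T + 1 ≤ 2 ^ T := Nat.lt_two_pow_self
      exact_mod_cast h1
    refine mul_le_mul ?_ hT (by positivity) (by positivity)
    refine pow_le_pow_left₀ (by positivity) ?_ T
    have h1 : (2 * Q) ^ (2 * T) ≤ 2 ^ (66 * w * T) := by
      have h2 : (2 * Q) ^ (2 * T) ≤ (2 ^ (33 * w)) ^ (2 * T) := pow_le_pow_left₀ h2Q0 h2Q _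
      rw [← pow_mul] at h2
      have h3 : 33 * w * (2 * T) = 66 * w * T := by ring
      rwa [h3] at h2
    have e1 : (2 : ℝ) ^ (7 + 32 * w + 66 * w * T) =
        32 * 2 ^ (32 * w) * 2 ^ (66 * w * T) * 2 ^ 2 := by
      rw [pow_add, pow_add]; ring
    rw [e1]
    refine mul_le_mul_of_nonneg_right ?_ (by norm_num)
    refine mul_le_mul ?_ h1 (by positivity) (by positivity)
    refine mul_le_mul (by norm_num) hQ2 hQ0 (by norm_num)
  -- term 4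
  have t4 : 40 * b * s * (1 / 2) ^ (u * (u * w)) +
      ((2 ^ 398) ^ 2 * θ) ^ (u * w) ≤ 2 * (1 / 2) ^ (e * (u * w)) := by
    have h1 : 40 * (b : ℝ) * s * (1 / 2) ^ (u * (u * w)) ≤ (1 / 2) ^ (e * (u * w)) := by
      have e1 := hbb
      have e2 := VFin_s hm hs
      have key : 6 + μ + 2 * P * (μ + 1) + e * (u * w) ≤ u * (u * w) := by
        have h3 : 6 + μ + 2 * P * (μ + 1) = (2 * P + 1) * μ + (6 + 2 * P) := by ring
        have h5 : u ≤ u * w := Nat.le_mul_of_pos_right _ hw1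
        calc 6 + μ + 2 * P * (μ + 1) + e * (u * w) ≤ u * w + e * (u * w) :=
              Nat.add_le_add_right ((h3.le.trans hg2).trans h5) _
          _ = (e + 1) * (u * w) := by ring
          _ ≤ u * (u * w) := Nat.mul_le_mul_right _ heu
      have hpos : ∀ n : ℕ, (0 : ℝ) < 2 ^ n := fun n => by positivity
      calc 40 * (b : ℝ) * s * (1 / 2) ^ (u * (u * w))
          ≤ (2 ^ (6 + μ) * 2 ^ (2 * P * (μ + 1))) * (1 / 2) ^ (u * (u * w)) := by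
            refine mul_le_mul_of_nonneg_right ?_ (by positivity)
            exact mul_le_mul e1 e2 (by positivity) (by positivity)
        _ = 2 ^ (6 + μ + 2 * P * (μ + 1)) * (1 / 2) ^ (u * (u * w)) := by
            rw [pow_add (2 : ℝ) (6 + μ) (2 * P * (μ + 1))]
        _ ≤ (1 / 2) ^ (e * (u * w)) := by
            rw [one_div, inv_pow, inv_pow, ← div_eq_mul_inv, div_le_iff₀ (hpos _), inv_mul_eq_div,
              le_div_iff₀ (hpos _), ← pow_add]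
            exact pow_le_pow_right₀ (by norm_num) key
    have h2 : ((2 ^ 398) ^ 2 * θ) ^ (u * w) = (1 / 2 : ℝ) ^ (e * (u * w)) := by
      rw [pow_mul (1 / 2 : ℝ) e (u * w), hθ]
      congr 1
      rw [pow_add, ← pow_mul]
      have h4 : (2 : ℝ) ^ (398 * 2) * (1 / 2) ^ 796 = 1 := by
        rw [← mul_pow]; norm_num
      rw [← mul_assoc, h4, one_mul]
    rw [h2]
    linarith
  -- product
  have hE : (2 + 398 * (C * (u * w)) + 33 * w * T) * C + (4 + 398 * (u * w) + 33 * w * T) +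
      ((7 + 32 * w + 66 * w * T) * T + T) + 1 < e * (u * w) := by
    have h1 : (2 + 398 * (C * (u * w)) + 33 * w * T) * C + (4 + 398 * (u * w) + 33 * w * T) +
      ((7 + 32 * w + 66 * w * T) * T + T) + 1 =
        398 * (C ^ 2 + 1) * (u * w) + (w * c1 + c0) := by
      rw [hc1, hc0]; ring
    have h2 : w * c1 + c0 ≤ u * w := by
      calc w * c1 + c0 ≤ w * c1 + w * c0 :=
            Nat.add_le_add_left (Nat.le_mul_of_pos_left c0 hw1) _
        _ = (c1 + c0) * w := by ring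
        _ ≤ u * w := Nat.mul_le_mul_right _ hcu
    have h3 : e * (u * w) = 398 * (C ^ 2 + 1) * (u * w) + 2 * (u * w) := by
      rw [he]; ring
    have h4 : 0 < u * w := Nat.mul_pos hu1 hw1
    rw [h1, h3]
    omega
  have hfin : 2 ^ ((2 + 398 * (C * (u * w)) + 33 * w * T) * C) *
      (2 ^ (4 + 398 * (u * w) + 33 * w * T) *
        (2 ^ ((7 + 32 * w + 66 * w * T) * T + T) * (2 * (1 / 2 : ℝ) ^ (e * (u * w))))) < 1 := by
    have h1 : (2 : ℝ) ^ ((2 + 398 * (C * (u * w)) + 33 * w * T) * C) *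
      (2 ^ (4 + 398 * (u * w) + 33 * w * T) *
        (2 ^ ((7 + 32 * w + 66 * w * T) * T + T) * (2 * (1 / 2 : ℝ) ^ (e * (u * w))))) =
        2 ^ ((2 + 398 * (C * (u * w)) + 33 * w * T) * C + (4 + 398 * (u * w) + 33 * w * T) +
      ((7 + 32 * w + 66 * w * T) * T + T) + 1) / 2 ^ (e * (u * w)) := by
      rw [pow_add _ _ 1, pow_add _ (_ + _) (_ + T), pow_add _ (_ * C) _, one_div, inv_pow, pow_one]
      ring
    rw [h1, div_lt_one (by positivity)]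
    exact pow_lt_pow_right₀ (by norm_num) hE
  refine lt_of_le_of_lt ?_ hfin
  have hθ0 : 0 ≤ θ := by rw [hθ]; positivity
  refine mul_le_mul t1 ?_ (by positivity) (by positivity)
  refine mul_le_mul t2 ?_ (by positivity) (by positivity)
  exact mul_le_mul t3 t4 (by positivity) (by positivity)

end Pool.Agent.MP_9cec2c_lc.SLT
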